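import Pool.Agent.Y671.GL.SpecR

set_option autoImplicit false

/-!
# Task RYA: the integral over the ray, assembly with the Fricke involution
-/

namespace Pool.Agent.Y671.GL

open Complex Filter Topology MeasureTheory Set
open scoped ComplexConjugate
open Pool.Agent.H24R2.DZ (ray)

namespace RA

lemma ray_re (δ x : ℝ) : (ray δ x).re = x * Real.sin δ := by
  unfold ray
  rw [mul_comm I, Complex.re_ofReal_mul, Complex.exp_ofReal_mul_I_re, Real.cos_pi_div_two_sub]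

lemma ray_cont (δ : ℝ) : Continuous (ray δ) := by
  unfold ray
  fun_prop

lemma lam_bd {k N : ℕ} {ps lam : ℕ → ℂ} (h : Frm k N ps lam) : ∃ C : ℝ, 0 < C ∧ ∀ n : ℕ, ‖lam n‖ ≤ C * n := by
  obtain ⟨th, C, h0, h1, hC⟩ := h.ram
  refine ⟨|C| + 1, by positivity, fun n => ?_⟩
  rcases Nat.eq_zero_or_pos n with rfl | hn
  · rw [h.zero]; simp
  · have hn1 : (1 : ℝ) ≤ n := by exact_mod_cast hn
    refine (hC n hn).trans ?_
    have h2 : (n : ℝ) ^ th ≤ n := by
      calc (n : ℝ) ^ th ≤ (n : ℝ) ^ (1 : ℝ) := Real.rpow_le_rpow_of_exponent_le hn1 (by linarith)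
        _ = n := Real.rpow_one _
    have h3 : 0 ≤ (n : ℝ) ^ th := by positivity
    calc C * (n : ℝ) ^ th ≤ |C| * (n : ℝ) ^ th := by gcongr; exact le_abs_self C
      _ ≤ |C| * n := by gcongr
      _ ≤ (|C| + 1) * n := by gcongr; linarith

lemma aa_bd {k N : ℕ} {ps lam : ℕ → ℂ} (h : Frm k N ps lam) : ∃ C : ℝ, 0 < C ∧ ∀ n : ℕ,
    ‖aa k lam n‖ ≤ C * (n : ℝ) ^ (k + 1) := by
  obtain ⟨C, hC, hb⟩ := lam_bd h
  refine ⟨C, hC, fun n => ?_⟩
  rcases Nat.eq_zero_or_pos n with rfl | hn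
  · unfold aa; rw [h.zero]; simp
  · unfold aa
    have hn1 : (1 : ℝ) ≤ n := by exact_mod_cast hn
    rw [norm_mul, Complex.norm_real, Real.norm_of_nonneg (by positivity)]
    have h2 : (n : ℝ) ^ (((k : ℝ) - 1) / 2) ≤ (n : ℝ) ^ k := by
      rw [← Real.rpow_natCast]
      refine Real.rpow_le_rpow_of_exponent_le hn1 ?_
      have : (0 : ℝ) ≤ k := Nat.cast_nonneg k
      linarith
    calc ‖lam n‖ * (n : ℝ) ^ (((k : ℝ) - 1) / 2) ≤ (C * n) * (n : ℝ) ^ k :=
          mul_le_mul (hb n) h2 (by positivity) (by positivity)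
      _ = C * (n : ℝ) ^ (k + 1) := by ring

lemma term_le {k : ℕ} {lam : ℕ → ℂ} {C : ℝ} (h : ∀ n : ℕ, ‖aa k lam n‖ ≤ C * (n : ℝ) ^ (k + 1)) {c : ℝ} {z : ℂ}
    (hz : c ≤ z.re) (n : ℕ) :
    ‖aa k lam n * cexp (-(n * z))‖ ≤ C * ((n : ℝ) ^ (k + 1) * Real.exp (-c * n)) := by
  rw [norm_mul, Complex.norm_exp]
  have e : (-((n : ℂ) * z)).re = -(n * z.re) := by simp
  rw [e, ← mul_assoc]
  refine mul_le_mul (h n) (Real.exp_le_exp.2 ?_) (Real.exp_pos _).le ((norm_nonneg _).trans (h n))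
  have : (0 : ℝ) ≤ n := Nat.cast_nonneg n
  nlinarith

lemma ph_cont {k N : ℕ} {ps lam : ℕ → ℂ} (h : Frm k N ps lam) {z : ℂ} (hz : 0 < z.re) :
    ContinuousAt (Ph k lam) z := by
  obtain ⟨C, hC, hb⟩ := aa_bd h
  have hc : 0 < z.re / 2 := half_pos hz
  have h1 : ContinuousOn (Ph k lam) {w : ℂ | z.re / 2 ≤ w.re} := by
    unfold Ph
    refine continuousOn_tsum (fun n => by fun_prop)
      ((Real.summable_pow_mul_exp_neg_nat_mul (k + 1) hc).mul_left C) ?_
    intro n w hw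
    exact term_le hb hw n
  refine h1.continuousAt (mem_of_superset ((isOpen_lt continuous_const Complex.continuous_re).mem_nhds
    (show z.re / 2 < z.re by linarith)) ?_)
  intro w hw
  exact (show z.re / 2 < w.re from hw).le

lemma ph_conj (k : ℕ) (lam : ℕ → ℂ) (z : ℂ) : Ph k (fun n => conj (lam n)) (conj z) = conj (Ph k lam z) := by
  unfold Ph
  rw [Complex.conj_tsum]
  refine tsum_congr fun n => ?_
  unfold aa
  rw [map_mul, map_mul, conj_ofReal, ← Complex.exp_conj, map_neg, map_mul, conj_natCast]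

/-- the polynomial on the primal side -/
noncomputable def DP (k y : ℕ) (lam b : ℕ → ℂ) (z : ℂ) : ℂ :=
  ∑ h ∈ Finset.Icc 1 y, b h * (((h : ℝ) ^ (((k : ℝ) - 1) / 2) : ℝ) : ℂ) * Ph k lam (h * z)

lemma ray_inv {N : ℕ} (hN : 1 ≤ N) {δ x x' : ℝ} (hx : 0 < x) (hx' : x' = 4 * Real.pi ^ 2 / (N * x)) :
    (4 * Real.pi ^ 2 : ℂ) = N * (ray δ x * conj (ray δ x')) := by
  have hN0 : (0 : ℝ) < N := by exact_mod_cast hN
  unfold ray
  rw [map_mul, conj_ofReal, ← Complex.exp_conj, map_mul, conj_I, conj_ofReal]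
  have e : (x : ℂ) * cexp (I * ((Real.pi / 2 - δ : ℝ) : ℂ)) *
      ((x' : ℂ) * cexp (-I * ((Real.pi / 2 - δ : ℝ) : ℂ))) = (x * x' : ℂ) *
        (cexp (I * ((Real.pi / 2 - δ : ℝ) : ℂ)) * cexp (-I * ((Real.pi / 2 - δ : ℝ) : ℂ))) := by ring
  rw [e, ← Complex.exp_add]
  have e2 : I * ((Real.pi / 2 - δ : ℝ) : ℂ) + -I * ((Real.pi / 2 - δ : ℝ) : ℂ) = 0 := by ring
  rw [e2, Complex.exp_zero, mul_one]
  have e3 : (4 * Real.pi ^ 2 : ℝ) = N * (x * x') := by
    rw [hx']; field_simp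
  exact_mod_cast e3

/-- the Fricke involution for the polynomial -/
lemma fricke_DP {k N : ℕ} {ps lam : ℕ → ℂ} (hf : Frm k N ps lam) (y : ℕ) (b : ℕ → ℂ) {δ x x' : ℝ}
    (hδ : 0 < Real.sin δ) (hx : 0 < x) (hx' : x' = 4 * Real.pi ^ 2 / (N * x)) :
    ‖DP k y lam b (ray δ x)‖ = (Real.sqrt N * x' / (2 * Real.pi)) ^ k * ‖DB k y lam b (ray δ x')‖ := by
  obtain ⟨ε, hε, hfr⟩ := hf.fricke
  have hN := hf.N_pos
  have hN0 : (0 : ℝ) < N := by exact_mod_cast hN
  have hpi := Real.pi_pos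
  have hx'0 : 0 < x' := by rw [hx']; positivity
  have hkey := ray_inv hN hx hx' (δ := δ)
  set z := ray δ x with hz
  set w := ray δ x' with hw
  have hzr : 0 < z.re := by rw [hz, ray_re]; positivity
  have hwr : 0 < w.re := by rw [hw, ray_re]; positivity
  have hw0 : conj w ≠ 0 := by
    intro h0
    rw [map_eq_zero] at h0
    rw [h0] at hwr
    simp at hwr
  have hNc : (N : ℂ) ≠ 0 := by exact_mod_cast hN0.ne'
  have hterm : ∀ h ∈ Finset.Icc 1 y, b h * (((h : ℝ) ^ (((k : ℝ) - 1) / 2) : ℝ) : ℂ) * Ph k lam (h * z) =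
      ε * ((Real.sqrt N : ℝ) * conj w / (2 * Real.pi)) ^ k *
        conj (conj (b h) * (((h : ℝ) ^ (-(((k : ℝ) + 1) / 2)) : ℝ) : ℂ) * Ph k lam (w / h)) := by
    intro h hh
    have h1 : 1 ≤ h := (Finset.mem_Icc.1 hh).1
    have h0 : (0 : ℝ) < h := by exact_mod_cast h1
    have hc : (h : ℂ) ≠ 0 := by exact_mod_cast h0.ne'
    have e1 : (h : ℂ) * z = 4 * Real.pi ^ 2 / (N * (conj w / h)) := by
      rw [hkey]
      field_simp
    have hre : 0 < (conj w / (h : ℂ)).re := by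
      have : (conj w / (h : ℂ)).re = w.re / h := by
        rw [Complex.div_natCast_re, Complex.conj_re]
      rw [this]; positivity
    rw [e1, hfr _ hre]
    have e2 : conj w / (h : ℂ) = conj (w / h) := by rw [map_div₀, Complex.conj_natCast]
    have e3 : Ph k (fun n => conj (lam n)) (conj w / (h : ℂ)) = conj (Ph k lam (w / h)) := by
      rw [e2, ph_conj]
    rw [e3, map_mul, map_mul, Complex.conj_conj, conj_ofReal]
    have e4 : ((Real.sqrt N : ℝ) : ℂ) * (conj w / (h : ℂ)) / (2 * Real.pi) =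
        ((Real.sqrt N : ℝ) * conj w / (2 * Real.pi)) * (h : ℂ)⁻¹ := by
      field_simp
    rw [e4, mul_pow]
    have e5 : (((h : ℝ) ^ (((k : ℝ) - 1) / 2) : ℝ) : ℂ) * ((h : ℂ)⁻¹) ^ k =
        (((h : ℝ) ^ (-(((k : ℝ) + 1) / 2)) : ℝ) : ℂ) := by
      have : (h : ℝ) ^ (((k : ℝ) - 1) / 2) * ((h : ℝ)⁻¹) ^ k = (h : ℝ) ^ (-(((k : ℝ) + 1) / 2)) := by
        rw [inv_pow, ← Real.rpow_natCast, ← Real.rpow_neg h0.le, ← Real.rpow_add h0]
        congr 1
        ring
      rw [← this]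
      push_cast
      ring
    rw [← e5]
    ring
  unfold DP DB
  rw [Finset.sum_congr rfl hterm, ← Finset.mul_sum, ← map_sum, norm_mul, norm_mul, hε, one_mul, norm_pow,
    Complex.norm_conj]
  congr 2
  rw [norm_div, norm_mul, Complex.norm_conj, Complex.norm_real]
  have e6 : ‖w‖ = x' := by
    rw [hw]
    unfold ray
    rw [norm_mul, Complex.norm_real, Real.norm_of_nonneg hx'0.le, mul_comm I, Complex.norm_exp_ofReal_mul_I,
      mul_one]
  rw [e6, Real.norm_of_nonneg (Real.sqrt_nonneg _)]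
  congr 1
  rw [norm_mul, Complex.norm_real, Real.norm_of_nonneg hpi.le]
  norm_num

lemma DP_cont {k N : ℕ} {ps lam : ℕ → ℂ} (hf : Frm k N ps lam) (y : ℕ) (b : ℕ → ℂ) {δ : ℝ}
    (hδ : 0 < Real.sin δ) : ContinuousOn (fun x : ℝ => DP k y lam b (ray δ x)) (Ioi 0) := by
  unfold DP
  refine continuousOn_finset_sum _ fun h hh => ?_
  refine ContinuousOn.mul continuousOn_const ?_
  have h1 : 1 ≤ h := (Finset.mem_Icc.1 hh).1
  have h0 : (0 : ℝ) < h := by exact_mod_cast h1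
  intro x hx
  have hx0 : 0 < x := hx
  have hre : 0 < ((h : ℂ) * ray δ x).re := by
    have : ((h : ℂ) * ray δ x).re = h * (ray δ x).re := by simp
    rw [this, ray_re]; positivity
  have h2 : ContinuousAt (fun x : ℝ => (h : ℂ) * ray δ x) x := by
    have := ray_cont δ
    fun_prop
  exact (ContinuousAt.comp (f := fun x : ℝ => (h : ℂ) * ray δ x) (ph_cont hf hre) h2).continuousWithinAt

lemma cn_bd {k N : ℕ} {ps lam : ℕ → ℂ} (hf : Frm k N ps lam) (y : ℕ) (b : ℕ → ℂ) (hb : ∀ h, y < h → b h = 0) :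
    ∃ C : ℝ, 0 ≤ C ∧ ∀ n : ℕ, ‖cn lam b n‖ ≤ C * n := by
  obtain ⟨C, hC, hl⟩ := lam_bd hf
  refine ⟨(∑ h ∈ Finset.Icc 1 y, ‖b h‖) * C, by positivity, fun n => ?_⟩
  unfold cn
  have h1 : ∀ h ∈ n.divisors, ‖b h * lam (n / h)‖ ≤ ‖b h‖ * (C * n) := by
    intro h hh
    rw [norm_mul]
    refine mul_le_mul_of_nonneg_left ((hl _).trans ?_) (norm_nonneg _)
    have : ((n / h : ℕ) : ℝ) ≤ n := by exact_mod_cast Nat.div_le_self n h
    gcongr
  refine (norm_sum_le _ _).trans ((Finset.sum_le_sum h1).trans ?_)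
  rw [← Finset.sum_mul, mul_assoc]
  refine mul_le_mul_of_nonneg_right ?_ (by positivity)
  calc ∑ h ∈ n.divisors, ‖b h‖ = ∑ h ∈ n.divisors.filter (fun h => h ∈ Finset.Icc 1 y), ‖b h‖ := by
        rw [Finset.sum_filter]
        refine Finset.sum_congr rfl fun h hh => ?_
        split_ifs with h2
        · rfl
        · have h3 : 1 ≤ h := Nat.pos_of_mem_divisors hh
          rw [Finset.mem_Icc, not_and] at h2
          rw [hb h (not_le.1 (h2 h3)), norm_zero]
    _ ≤ ∑ h ∈ Finset.Icc 1 y, ‖b h‖ := by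
        refine Finset.sum_le_sum_of_subset_of_nonneg ?_ fun _ _ _ => norm_nonneg _
        intro h hh
        exact (Finset.mem_filter.1 hh).2

end RA

open RA

theorem rya : S_RYA := by
  intro h1 h2 k N ps lam hf
  obtain ⟨c, C1, A, T1, hc, hC1, hA, hT1, H1⟩ := h1 k N ps lam hf
  obtain ⟨C2, T2, hC2, hT2, H2⟩ := h2 k N ps lam hf
  have hN := hf.N_pos
  have hk := hf.k_pos
  have hN0 : (1 : ℝ) ≤ N := by exact_mod_cast hN
  have hk0 : (1 : ℝ) ≤ k := by exact_mod_cast hk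
  have hpi := Real.pi_gt_three
  have hpi0 : 0 < Real.pi := by linarith
  obtain ⟨κ, hκ⟩ : ∃ κ : ℝ, κ = 4 * Real.pi ^ 2 / N := ⟨_, rfl⟩
  have hκ0 : 0 < κ := by rw [hκ]; positivity
  obtain ⟨D, hD⟩ : ∃ D : ℝ, D = κ * (Real.sqrt N / (2 * Real.pi)) ^ (2 * k) * (1 + κ) ^ (k + 1) := ⟨_, rfl⟩
  have hD0 : 0 < D := by rw [hD]; positivity
  refine ⟨min c 1, max (C1 * (N : ℝ) ^ A + 2) (max (C1 * N) (2 * D * C2)) , 3 * A, max T1 T2,
    lt_min hc one_pos, ?_, by linarith, hT1.trans (le_max_left _ _), ?_⟩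
  · refine lt_of_lt_of_le ?_ (le_max_left _ _)
    positivity
  intro T σ y b hT hy hyT hσ1 hσ2 hb
  set C : ℝ := max (C1 * (N : ℝ) ^ A + 2) (max (C1 * N) (2 * D * C2)) with hC
  have hTT1 : T1 ≤ T := (le_max_left _ _).trans hT
  have hTT2 : T2 ≤ T := (le_max_right _ _).trans hT
  have hT10 : 10 ≤ T := hT1.trans hTT1
  have hT0 : 0 < T := by linarith
  have hy1 : (1 : ℝ) ≤ y := by exact_mod_cast hy
  have hδ : 0 < Real.sin (1 / T) := by
    apply Real.sin_pos_of_pos_of_lt_pi (by positivity)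
    have : 1 / T ≤ 1 := by rw [div_le_one hT0]; linarith
    linarith
  obtain ⟨x0, hx0⟩ : ∃ x0 : ℝ, x0 = 1 / (N * (y : ℝ) ^ 2) := ⟨_, rfl⟩
  have hx0p : 0 < x0 := by rw [hx0]; positivity
  have hx01 : x0 ≤ 1 := by
    rw [hx0, div_le_one (by positivity)]
    nlinarith
  obtain ⟨hi1, hb1⟩ := H1 T σ x0 y b hTT1 hy hσ1 hσ2 hx0p hx01 hb
  obtain ⟨hi2, hb2⟩ := H2 T y b hTT2 hy hb
  set p : ℝ := 2 * σ + k - 2 with hp
  have hp1 : (k : ℝ) - 1 ≤ p := by rw [hp]; linarith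
  have hp2 : p ≤ k + 1 := by rw [hp]; linarith
  have hp0 : 0 ≤ p := by linarith
  -- the small range for `DP`
  set S : Set ℝ := Ioi (κ / x0) with hS
  set f : ℝ → ℝ := fun x' => κ / x' with hfd
  have hSpos : ∀ x' ∈ S, 0 < x' := fun x' hx' => (div_pos hκ0 hx0p).trans hx'
  have hSy : ∀ x' ∈ S, (y : ℝ) ^ 2 < x' := by
    intro x' hx'
    refine lt_of_lt_of_le ?_ (le_of_lt hx')
    rw [hκ, hx0, div_div_eq_mul_div, div_one, div_mul_eq_mul_div, lt_div_iff₀ (by positivity)]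
    have : 1 < 4 * Real.pi ^ 2 := by nlinarith
    have h3 : 0 < (N : ℝ) * (y : ℝ) ^ 2 := by positivity
    nlinarith
  have hder : ∀ x' ∈ S, HasDerivWithinAt f (-κ / x' ^ 2) S x' := by
    intro x' hx'
    have h3 := (hSpos x' hx').ne'
    have := ((hasDerivAt_inv h3).const_mul κ).hasDerivWithinAt (s := S)
    refine HasDerivWithinAt.congr_deriv (this.congr_of_eventuallyEq ?_ ?_) ?_
    · exact Filter.Eventually.of_forall fun z => by simp [hfd, div_eq_mul_inv]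
    · simp [hfd, div_eq_mul_inv]
    · ring
  have hinj : InjOn f S := by
    intro a ha a' ha' haa
    simp only [hfd] at haa
    have h3 := hSpos a ha
    have h4 := hSpos a' ha'
    rw [div_eq_div_iff h3.ne' h4.ne'] at haa
    exact (mul_left_cancel₀ hκ0.ne' haa).symm
  have himg : f '' S = Ioo 0 x0 := by
    ext x
    constructor
    · rintro ⟨x', hx', rfl⟩
      have h3 := hSpos x' hx'
      refine ⟨div_pos hκ0 h3, ?_⟩
      have h4 : κ / x0 < x' := hx'
      rw [div_lt_iff₀ hx0p] at h4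
      simp only [hfd]
      rw [div_lt_iff₀ h3]
      linarith
    · rintro ⟨h3, h4⟩
      refine ⟨κ / x, ?_, ?_⟩
      · show κ / x0 < κ / x
        exact div_lt_div_of_pos_left hκ0 h3 h4
      · simp only [hfd]
        field_simp
  set q : ℝ → ℝ := fun x => ‖DP k y lam b (ray (1 / T) x)‖ ^ 2 * x ^ p with hq
  set g : ℝ → ℝ := fun x' => ‖DB k y lam b (ray (1 / T) x')‖ ^ 2 * x' ^ ((k : ℝ) - 1) with hg
  have hg0 : ∀ x', 0 < x' → 0 ≤ g x' := fun x' h => by simp only [hg]; positivity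
  have hqf : ∀ x' ∈ S, 0 ≤ |(-κ / x' ^ 2)| • q (f x') ∧ |(-κ / x' ^ 2)| • q (f x') ≤ D * g x' := by
    intro x' hx'
    have h3 := hSpos x' hx'
    have h31 : 1 ≤ x' := by
      have := (hSy x' hx').le
      nlinarith
    have h4 : 0 < f x' := by simp only [hfd]; positivity
    have hfr := fricke_DP hf y b (δ := 1 / T) hδ h4 (x' := x') (by
      simp only [hfd]; rw [hκ]; field_simp)
    simp only [hq, smul_eq_mul]
    rw [hfr]
    have e1 : |(-κ / x' ^ 2)| = κ / x' ^ 2 := by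
      rw [abs_div, abs_neg, abs_of_pos hκ0, abs_of_pos (by positivity)]
    rw [e1]
    refine ⟨by positivity, ?_⟩
    have e2 : f x' ^ p = κ ^ p * x' ^ (-p) := by
      simp only [hfd]
      rw [Real.div_rpow hκ0.le h3.le, Real.rpow_neg h3.le, div_eq_mul_inv]
    rw [e2]
    have e3 : κ ^ p ≤ (1 + κ) ^ (k + 1) := by
      calc κ ^ p ≤ (1 + κ) ^ p := Real.rpow_le_rpow hκ0.le (by linarith) hp0
        _ ≤ (1 + κ) ^ (((k + 1 : ℕ) : ℝ)) := by
            apply Real.rpow_le_rpow_of_exponent_le (by linarith)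
            push_cast; exact hp2
        _ = _ := Real.rpow_natCast _ _
    have e4 : x' ^ (-p) * ((x') ^ (2 * k) / x' ^ 2) ≤ x' ^ ((k : ℝ) - 1) := by
      rw [← Real.rpow_natCast x' (2 * k), ← Real.rpow_natCast x' 2, ← Real.rpow_sub h3, ← Real.rpow_add h3]
      apply Real.rpow_le_rpow_of_exponent_le h31
      push_cast
      linarith
    have e5 : κ / x' ^ 2 * (((Real.sqrt N * x' / (2 * Real.pi)) ^ k * ‖DB k y lam b (ray (1 / T) x')‖) ^ 2 *
        (κ ^ p * x' ^ (-p))) = κ * (Real.sqrt N / (2 * Real.pi)) ^ (2 * k) * κ ^ p *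
          (‖DB k y lam b (ray (1 / T) x')‖ ^ 2 * (x' ^ (-p) * (x' ^ (2 * k) / x' ^ 2))) := by
      have : Real.sqrt N * x' / (2 * Real.pi) = Real.sqrt N / (2 * Real.pi) * x' := by ring
      rw [this, mul_pow, mul_pow, mul_pow, ← pow_mul, ← pow_mul, mul_comm k 2]
      ring
    rw [e5, hD]
    simp only [hg]
    gcongr
  have hgi : IntegrableOn g S := by
    refine hi2.mono_set ?_
    intro x' hx'
    exact hSy x' hx'
  have hqcont : ContinuousOn q (Ioi 0) := by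
    refine ContinuousOn.mul (((DP_cont hf y b hδ).norm).pow 2) ?_
    intro x hx
    exact (Real.continuousAt_rpow_const x p (Or.inl (ne_of_gt hx))).continuousWithinAt
  have hmeas : MeasurableSet S := measurableSet_Ioi
  have hqi' : IntegrableOn (fun x' => |(-κ / x' ^ 2)| • q (f x')) S := by
    refine Integrable.mono' (hgi.const_mul D) ?_ ?_
    · have hcont : ContinuousOn (fun x' => |(-κ / x' ^ 2)| • q (f x')) S := by
        have h3 : ContinuousOn f S := fun x' hx' => (hder x' hx').continuousWithinAt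
        have h4 : ContinuousOn (fun x' => q (f x')) S := by
          refine hqcont.comp h3 ?_
          intro x' hx'
          have := hSpos x' hx'
          show 0 < κ / x'
          positivity
        have h5 : ContinuousOn (fun x' : ℝ => |(-κ / x' ^ 2)|) S := by
          refine ContinuousOn.abs (ContinuousOn.div continuousOn_const (by fun_prop) ?_)
          intro x' hx'
          have := hSpos x' hx'
          positivity
        exact h5.smul h4
      exact hcont.aestronglyMeasurable hmeas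
    · rw [ae_restrict_iff' hmeas]
      refine Filter.Eventually.of_forall fun x' hx' => ?_
      obtain ⟨h3, h4⟩ := hqf x' hx'
      rw [Real.norm_of_nonneg h3]
      exact h4
  have hqi : IntegrableOn q (Ioo 0 x0) := by
    rw [← himg]
    exact (integrableOn_image_iff_integrableOn_abs_deriv_smul hmeas hder hinj q).2 hqi'
  have hqb : ∫ x in Ioo 0 x0, q x ≤ D * (C2 * T ^ k * DS y lam b T) := by
    rw [← himg, integral_image_eq_integral_abs_deriv_smul hmeas hder hinj q]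
    calc ∫ x' in S, |(-κ / x' ^ 2)| • q (f x') ≤ ∫ x' in S, D * g x' :=
          setIntegral_mono_on hqi' (hgi.const_mul D) hmeas fun x' hx' => (hqf x' hx').2
      _ = D * ∫ x' in S, g x' := by rw [integral_const_mul]
      _ ≤ D * ∫ x' in Ioi ((y : ℝ) ^ 2), g x' := by
          refine mul_le_mul_of_nonneg_left ?_ hD0.le
          refine setIntegral_mono_set hi2 ?_ (HasSubset.Subset.eventuallyLE fun x' hx' => hSy x' hx')
          rw [Filter.EventuallyLE, ae_restrict_iff' measurableSet_Ioi]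
          refine Filter.Eventually.of_forall fun x' hx' => ?_
          exact hg0 x' ((by positivity : (0 : ℝ) ≤ (y : ℝ) ^ 2).trans_lt hx')
      _ ≤ _ := mul_le_mul_of_nonneg_left hb2 hD0.le
  -- `GF` on the small range
  set G : ℝ → ℝ := fun x => ‖GF k y lam b (ray (1 / T) x)‖ ^ 2 * x ^ p with hG
  set B1 : ℝ := ‖b 1‖ ^ 2 with hB1
  have hB10 : 0 ≤ B1 := by positivity
  have hGq : ∀ x ∈ Ioo 0 x0, 0 ≤ G x ∧ G x ≤ 2 * q x + 2 * B1 := by
    intro x hx
    have hx1 : 0 < x := hx.1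
    have hx2 : x ≤ 1 := hx.2.le.trans hx01
    refine ⟨by simp only [hG]; positivity, ?_⟩
    have e1 : GF k y lam b (ray (1 / T) x) = DP k y lam b (ray (1 / T) x) - b 1 * cexp (-(ray (1 / T) x)) := rfl
    have e2 : ‖b 1 * cexp (-(ray (1 / T) x))‖ ≤ ‖b 1‖ := by
      rw [norm_mul, Complex.norm_exp, Complex.neg_re, ray_re]
      have : Real.exp (-(x * Real.sin (1 / T))) ≤ 1 := by
        rw [Real.exp_le_one_iff]
        have := mul_pos hx1 hδ
        linarith
      calc ‖b 1‖ * Real.exp (-(x * Real.sin (1 / T))) ≤ ‖b 1‖ * 1 := by gcongr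
        _ = _ := mul_one _
    have e3 : ‖GF k y lam b (ray (1 / T) x)‖ ^ 2 ≤ 2 * ‖DP k y lam b (ray (1 / T) x)‖ ^ 2 + 2 * B1 := by
      have h3 : ‖GF k y lam b (ray (1 / T) x)‖ ≤ ‖DP k y lam b (ray (1 / T) x)‖ + ‖b 1‖ := by
        rw [e1]
        exact (norm_sub_le _ _).trans (by linarith)
      have h4 := norm_nonneg (GF k y lam b (ray (1 / T) x))
      have h5 : ‖GF k y lam b (ray (1 / T) x)‖ ^ 2 ≤ (‖DP k y lam b (ray (1 / T) x)‖ + ‖b 1‖) ^ 2 := by gcongr
      nlinarith [sq_nonneg (‖DP k y lam b (ray (1 / T) x)‖ - ‖b 1‖)]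
    have e4 : 0 ≤ x ^ p := by positivity
    have e5 : x ^ p ≤ 1 := Real.rpow_le_one hx1.le hx2 hp0
    simp only [hG, hq]
    nlinarith
  have hGcont : ContinuousOn G (Ioi 0) := by
    refine ContinuousOn.mul (ContinuousOn.pow (ContinuousOn.norm ?_) 2) ?_
    · have : (fun x : ℝ => GF k y lam b (ray (1 / T) x)) = fun x : ℝ =>
          DP k y lam b (ray (1 / T) x) - b 1 * cexp (-(ray (1 / T) x)) := rfl
      rw [this]
      refine (DP_cont hf y b hδ).sub (Continuous.continuousOn ?_)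
      have := ray_cont (1 / T)
      fun_prop
    · intro x hx
      exact (Real.continuousAt_rpow_const x p (Or.inl (ne_of_gt hx))).continuousWithinAt
  have hcst : IntegrableOn (fun _ : ℝ => 2 * B1) (Ioo 0 x0) := by
    refine integrableOn_const ?_
    rw [Real.volume_Ioo]
    exact ENNReal.ofReal_ne_top
  have hGi : IntegrableOn G (Ioo 0 x0) := by
    refine Integrable.mono' ((hqi.const_mul 2).add hcst) ?_ ?_
    · exact (hGcont.mono fun x hx => hx.1).aestronglyMeasurable measurableSet_Ioo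
    · rw [ae_restrict_iff' measurableSet_Ioo]
      refine Filter.Eventually.of_forall fun x hx => ?_
      obtain ⟨h3, h4⟩ := hGq x hx
      rw [Real.norm_of_nonneg h3]
      exact h4
  have hGb : ∫ x in Ioo 0 x0, G x ≤ 2 * (D * (C2 * T ^ k * DS y lam b T)) + 2 * B1 := by
    calc ∫ x in Ioo 0 x0, G x ≤ ∫ x in Ioo 0 x0, (2 * q x + 2 * B1) :=
          setIntegral_mono_on hGi ((hqi.const_mul 2).add hcst) measurableSet_Ioo fun x hx => (hGq x hx).2
      _ = 2 * (∫ x in Ioo 0 x0, q x) + ∫ x in Ioo 0 x0, 2 * B1 := by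
          rw [integral_add (hqi.const_mul 2) hcst, integral_const_mul]
      _ ≤ 2 * (D * (C2 * T ^ k * DS y lam b T)) + 2 * B1 := by
          refine add_le_add (by linarith) ?_
          rw [setIntegral_const, smul_eq_mul, Measure.real, Real.volume_Ioo, sub_zero,
            ENNReal.toReal_ofReal hx0p.le]
          nlinarith
  -- assembly
  have hu : Ioi (0 : ℝ) = Ioc 0 x0 ∪ Ioi x0 := (Ioc_union_Ioi_eq_Ioi hx0p.le).symm
  have hGi2 : IntegrableOn G (Ioc 0 x0) := by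
    rw [integrableOn_Ioc_iff_integrableOn_Ioo]
    exact hGi
  have hGb2 : ∫ x in Ioc 0 x0, G x = ∫ x in Ioo 0 x0, G x := integral_Ioc_eq_integral_Ioo
  refine ⟨by rw [hu]; exact hGi2.union hi1, ?_⟩
  have hsplit : ∫ x in Ioi (0 : ℝ), G x = (∫ x in Ioo 0 x0, G x) + ∫ x in Ioi x0, G x := by
    rw [hu, setIntegral_union Ioc_disjoint_Ioi_same measurableSet_Ioi hGi2 hi1, hGb2]
  change ∫ x in Ioi (0 : ℝ), G x ≤ _
  rw [hsplit]
  -- the sums
  obtain ⟨Sb, hSb⟩ : ∃ Sb : ℝ, Sb = ∑ h ∈ Finset.Icc 1 y, ‖b h‖ ^ 2 := ⟨_, rfl⟩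
  have hSb0 : 0 ≤ Sb := by rw [hSb]; positivity
  have hB1S : B1 ≤ Sb := by
    rw [hSb, hB1]
    exact Finset.single_le_sum (f := fun h => ‖b h‖ ^ 2) (fun _ _ => by positivity)
      (Finset.mem_Icc.2 ⟨le_rfl, hy⟩)
  have hDS0 : 0 ≤ DS y lam b T := by
    unfold DS
    refine Finset.sum_nonneg fun q _ => tsum_nonneg fun a => ?_
    split_ifs
    · positivity
    · exact le_rfl
  have hCC1 : C1 * N ≤ C := (le_max_left _ _).trans (le_max_right _ _)
  have hCC2 : 2 * D * C2 ≤ C := (le_max_right _ _).trans (le_max_right _ _)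
  have hCC3 : C1 * (N : ℝ) ^ A + 2 ≤ C := le_max_left _ _
  have hNA : 1 ≤ (N : ℝ) ^ A := Real.one_le_rpow hN0 (by linarith)
  have hCC4 : C1 ≤ C := by nlinarith
  have hC0 : 0 < C := by linarith
  clear_value C
  set W : ℝ → ℝ := fun e => ∑' n : ℕ, if n ≤ 1 then 0 else ‖cn lam b n‖ ^ 2 * (n : ℝ) ^ (-(2 * σ)) *
        Real.exp (-(n * e)) with hW
  have hyA : (1 : ℝ) ≤ (y : ℝ) ^ (3 * A) := Real.one_le_rpow hy1 (by linarith)
  have hy2A : (y : ℝ) ^ 2 ≤ (y : ℝ) ^ (3 * A) := by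
    rw [← Real.rpow_natCast]
    apply Real.rpow_le_rpow_of_exponent_le hy1
    push_cast; linarith
  have hWle : (∑' n : ℕ, if n ≤ 1 then 0 else ‖cn lam b n‖ ^ 2 * (n : ℝ) ^ (-(2 * σ)) *
        Real.exp (-(n * x0 / (C1 * T)))) ≤ ∑' n : ℕ, if n ≤ 1 then 0 else ‖cn lam b n‖ ^ 2 * (n : ℝ) ^ (-(2 * σ)) *
        Real.exp (-(n / (C * T * (y : ℝ) ^ (3 * A)))) := by
    obtain ⟨K, hK, hKb⟩ := cn_bd hf y b hb
    have hsum : ∀ e : ℝ, 0 < e → Summable (fun n : ℕ => if n ≤ 1 then 0 else ‖cn lam b n‖ ^ 2 *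
        (n : ℝ) ^ (-(2 * σ)) * Real.exp (-(n * e))) := by
      intro e he
      refine Summable.of_nonneg_of_le (fun n => ?_) (fun n => ?_)
        ((Real.summable_pow_mul_exp_neg_nat_mul 2 he).mul_left (K ^ 2))
      · split_ifs
        · exact le_rfl
        · positivity
      · split_ifs with hn
        · positivity
        · have hn1 : (1 : ℝ) ≤ n := by
            have : 1 ≤ n := by omega
            exact_mod_cast this
          have e1 : (n : ℝ) ^ (-(2 * σ)) ≤ 1 :=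
            Real.rpow_le_one_of_one_le_of_nonpos hn1 (by linarith)
          have e2 : ‖cn lam b n‖ ^ 2 ≤ (K * n) ^ 2 := by
            gcongr; exact hKb n
          have e3 : -(n * e) = -e * n := by ring
          rw [e3]
          calc ‖cn lam b n‖ ^ 2 * (n : ℝ) ^ (-(2 * σ)) * Real.exp (-e * n) ≤ (K * n) ^ 2 * 1 * Real.exp (-e * n) := by
                gcongr
            _ = _ := by ring
    have h3 : ∀ n : ℕ, (n : ℝ) * x0 / (C1 * T) = n * (x0 / (C1 * T)) := fun n => by ring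
    have h4 : ∀ n : ℕ, (n : ℝ) / (C * T * (y : ℝ) ^ (3 * A)) = n * (1 / (C * T * (y : ℝ) ^ (3 * A))) := fun n => by ring
    simp only [h3, h4]
    refine Summable.tsum_le_tsum ?_ (hsum _ (by positivity)) (hsum _ (by positivity))
    intro n
    split_ifs with hn
    · exact le_rfl
    · refine mul_le_mul_of_nonneg_left (Real.exp_le_exp.2 ?_) (by positivity)
      rw [neg_le_neg_iff]
      refine mul_le_mul_of_nonneg_left ?_ (Nat.cast_nonneg n)
      rw [hx0, div_div]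
      refine div_le_div_of_nonneg_left zero_le_one (by positivity) ?_
      calc N * (y : ℝ) ^ 2 * (C1 * T) = (C1 * N) * T * (y : ℝ) ^ 2 := by ring
        _ ≤ C * T * (y : ℝ) ^ (3 * A) := by gcongr
  set W1 : ℝ := ∑' n : ℕ, if n ≤ 1 then 0 else ‖cn lam b n‖ ^ 2 * (n : ℝ) ^ (-(2 * σ)) *
        Real.exp (-(n * x0 / (C1 * T))) with hW1
  set W2 : ℝ := ∑' n : ℕ, if n ≤ 1 then 0 else ‖cn lam b n‖ ^ 2 * (n : ℝ) ^ (-(2 * σ)) *
        Real.exp (-(n / (C * T * (y : ℝ) ^ (3 * A)))) with hW2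
  have hW20 : 0 ≤ W2 := by
    rw [hW2]
    refine tsum_nonneg fun n => ?_
    split_ifs
    · exact le_rfl
    · positivity
  obtain ⟨Tm, hTm⟩ : ∃ Tm : ℝ, Tm = T ^ (2 * σ + k - 1) := ⟨_, rfl⟩
  have hT1' : 1 ≤ T := by linarith
  have hTm1 : 1 ≤ Tm * T ^ (-(min c 1)) := by
    rw [hTm, ← Real.rpow_add hT0]
    apply Real.one_le_rpow hT1'
    have := min_le_right c 1
    linarith
  have hTm0 : 0 < Tm := by rw [hTm]; positivity
  have hTk : T ^ k = Tm * T ^ (1 - 2 * σ) := by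
    rw [hTm, ← Real.rpow_add hT0, ← Real.rpow_natCast]
    congr 1; ring
  have hcc : T ^ (-c) ≤ T ^ (-(min c 1)) := by
    apply Real.rpow_le_rpow_of_exponent_le hT1'
    have := min_le_left c 1
    linarith
  have hyx : ((y : ℝ) / x0) ^ A = (N : ℝ) ^ A * (y : ℝ) ^ (3 * A) := by
    have : (y : ℝ) / x0 = N * (y : ℝ) ^ (3 : ℝ) := by
      rw [hx0, div_div_eq_mul_div, div_one]
      have : (y : ℝ) ^ (3 : ℝ) = (y : ℝ) ^ (3 : ℕ) := by
        rw [← Real.rpow_natCast]; norm_num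
      rw [this]; ring
    rw [this, Real.mul_rpow (by positivity) (by positivity), ← Real.rpow_mul (by positivity)]
  rw [← hTm, ← hSb] at hb1
  rw [← hTm, ← hSb]
  rw [hyx] at hb1
  rw [hTk] at hGb
  set Tc : ℝ := T ^ (-(min c 1)) with hTc
  set Y : ℝ := (y : ℝ) ^ (3 * A) with hY
  set TD : ℝ := T ^ (1 - 2 * σ) with hTD
  set DD : ℝ := DS y lam b T with hDD
  have hTc0 : 0 < Tc := by positivity
  have hTD0 : 0 < TD := by positivity
  have e1 : 2 * B1 ≤ Tm * (2 * (Tc * Y * Sb)) := by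
    have h3 : 1 ≤ Tm * Tc * Y := by nlinarith
    have h4 : 1 * Sb ≤ Tm * Tc * Y * Sb := mul_le_mul_of_nonneg_right h3 hSb0
    linarith
  have e2 : C1 * Tm * (W1 + T ^ (-c) * ((N : ℝ) ^ A * Y) * Sb) ≤
      Tm * (C1 * W2 + (C1 * (N : ℝ) ^ A) * (Tc * Y * Sb)) := by
    have h3 : C1 * Tm * (W1 + T ^ (-c) * ((N : ℝ) ^ A * Y) * Sb) ≤ C1 * Tm * (W2 + Tc * ((N : ℝ) ^ A * Y) * Sb) := by
      gcongr
    refine h3.trans (le_of_eq ?_)
    ring
  have e3 : 2 * (D * (C2 * (Tm * TD) * DD)) = Tm * ((2 * D * C2) * (TD * DD)) := by ring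
  have e4 : 0 ≤ Tc * Y * Sb := by positivity
  have e5 : 0 ≤ TD * DD := by positivity
  calc (∫ x in Ioo 0 x0, G x) + ∫ x in Ioi x0, G x
      ≤ (2 * (D * (C2 * (Tm * TD) * DD)) + 2 * B1) + C1 * Tm * (W1 + T ^ (-c) * ((N : ℝ) ^ A * Y) * Sb) :=
        add_le_add hGb hb1
    _ ≤ (Tm * ((2 * D * C2) * (TD * DD)) + Tm * (2 * (Tc * Y * Sb))) +
        Tm * (C1 * W2 + (C1 * (N : ℝ) ^ A) * (Tc * Y * Sb)) := by
        rw [e3]
        exact add_le_add (add_le_add le_rfl e1) e2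
    _ = Tm * (C1 * W2 + (2 * D * C2) * (TD * DD) + (C1 * (N : ℝ) ^ A + 2) * (Tc * Y * Sb)) := by ring
    _ ≤ Tm * (C * W2 + C * (TD * DD) + C * (Tc * Y * Sb)) := by gcongr
    _ = C * Tm * (W2 + TD * DD + Tc * Y * Sb) := by ring

end Pool.Agent.Y671.GL
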