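import Pool.Agent.Y671.GL.Spec2
import Pool.Agent.Y671.GL.RYA
import Pool.Agent.Y809.GL.JUT
import Pool.Agent.Y809.GL.SC
import Pool.Agent.Y412.GL.ARC
import Pool.Agent.Y412.GL.RYP
import Pool.Agent.Y285.GL.RTA
import Pool.Agent.Y494.GL.FJ1
import Pool.Agent.Y494.GL.FJ2
import Pool.Agent.Y494.GL.MO
import Pool.Agent.Y180.GL.Gam
import Pool.Agent.Y180.GL.Mel
import Pool.Agent.Y180.GL.San
import Pool.Agent.Y287.GL.RYD
import Pool.Agent.Y771.GL.MF
import Pool.Agent.Y771.GL.EU1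
import Pool.Agent.Y771.GL.EU2b
import Pool.Agent.Y157.GL.MV
import Pool.Agent.Y157.GL.GC1
import Pool.Agent.Y419.GL.GC2
import Pool.Agent.Y660.GL.Top2
import Pool.Agent.W261.SD.SSq
import Pool.Agent.W688.SD.SHar

set_option autoImplicit false

/-!
# Project GD2: assembly of the analytic part
-/

namespace Pool.Agent.Y671.GL

open Complex

theorem sc_all : S_SC := Pool.Agent.Y809.GL.sc Pool.Agent.Y809.GL.jut Pool.Agent.Y412.GL.arc

theorem ray_all : S_RAY :=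
  rya (Pool.Agent.Y412.GLP.ryp sc_all Pool.Agent.Y285.GL.rta Pool.Agent.Y494.GL.fj1)
    (Pool.Agent.Y287.GL.ryd Pool.Agent.Y285.GL.rta Pool.Agent.Y494.GL.fj2)

theorem san_all : S_SAN :=
  Pool.Agent.Y180.GL.san ray_all Pool.Agent.Y180.GL.mel Pool.Agent.Y180.GL.gam

theorem sq_all : Pool.Agent.Y494.GL.S_SQ := fun _ _ _ _ h _ hσ => Pool.Agent.Y771.GL.sq h hσ

theorem mo1_all : S_MO1 := Pool.Agent.Y494.GL.mo1 Pool.Agent.Y771.GL.eu1

theorem mo2_all : S_MO2 := Pool.Agent.Y494.GL.mo2 sq_all Pool.Agent.Y771.GL.eu2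

theorem mv1_all : S_MV1 := Pool.Agent.Y157.GL.mv1 san_all Pool.Agent.Y771.GL.mf mo1_all mo2_all

theorem mv2_all : S_MV2 := Pool.Agent.Y157.GL.mv2 san_all Pool.Agent.Y771.GL.mf mo1_all mo2_all

theorem gc1_all : S_GC1 := Pool.Agent.Y157.GL.gc1

theorem gc2_all : S_GC2 := Pool.Agent.Y419.GL.gc2 Pool.Agent.W261.SD.ssq Pool.Agent.W688.SD.shar

theorem gtop_all : S_GTOP := Pool.Agent.Y660.GL.gtop Pool.Agent.W261.SD.ssq

end Pool.Agent.Y671.GL
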