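import Pool.Agent.Y671.GL.Spec3
import Pool.Agent.Y671.LD.SpecH
import Pool.Agent.W169.HF.Defs

set_option autoImplicit false

/-!
# Project GD2, fourth part: from completed L-functions `X` (line = imaginary axis) to the abstract theorems

`F z = X (z / (2 κ))` satisfies the hypotheses `DD`, `HD` of `Pool.Agent.Y671.LD`.
-/

namespace Pool.Agent.Y671.GL

open Complex Filter Topology MeasureTheory Set Polynomial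
open scoped ComplexConjugate
open Pool.Agent.H24R2.JP (Om)
open Pool.Agent.H24R2.DZ (ra NN)
open Pool.Agent.Y671.LD (bad badH FarOK DD HD)

/-- A completed L-function with the results of the first part of the project. -/
structure GG (κ : ℝ) (H X Z : ℂ → ℂ) : Prop where
  cg : CG κ H X Z
  good : GoodX κ X
  top : TopL κ X

/-- Task MUL: products. -/
def S_MUL : Prop := ∀ (κ κ' : ℝ) (H X Z H' X' Z' : ℂ → ℂ), GG κ H X Z → GG κ' H' X' Z' →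
  GG (κ + κ') (fun w => H w * H' w) (fun w => X w * X' w) (fun w => Z w * Z' w)

/-- Task HSZ: size of `F z = X (z / (2 κ))`. -/
def S_HSZ : Prop := ∀ (κ : ℝ) (H X Z : ℂ → ℂ), 1 / 2 ≤ κ → CG κ H X Z →
  ∀ (F : ℂ → ℂ) (h : ℝ → ℝ), F = (fun z => X (z / (2 * κ))) → h = (fun t : ℝ => if 0 < ‖H (I * t / (2 * κ))‖ then
    ‖H (I * t / (2 * κ))‖ else 1) →
  (∀ t : ℝ, 0 < h t) ∧
  (∃ K T0 : ℝ, 1 ≤ K ∧ 1 ≤ T0 ∧ ∀ t v : ℝ, T0 ≤ t → |v| ≤ t / 8 → h (t + v) ≤ h t * Real.exp (K * |v|)) ∧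
  (∃ K T0 : ℝ, 1 ≤ K ∧ 1 ≤ T0 ∧ ∀ (t : ℝ) (u : ℂ), T0 ≤ t → |u.im| ≤ 21 →
    (|u.re| ≤ t / 16 → ‖F (I * t + u)‖ ≤ Real.exp (K * Real.log t) * h t * Real.exp ((Om t + K) * |u.re|)) ∧
    (t / 16 ≤ |u.re| → ‖F (I * t + u)‖ ≤ h t * Real.exp (K * |u.re| ^ (7 / 4 : ℝ)))) ∧
  (∃ R0 K T0 : ℝ, 1 ≤ R0 ∧ 1 ≤ K ∧ 1 ≤ T0 ∧ ∀ (t : ℝ) (u : ℂ), T0 ≤ t → R0 ≤ u.re → ‖u‖ ≤ t / 8 →
    ‖F (I * t + u)‖ ≤ h t * Real.exp (Om t * u.re + K * (‖u‖ + 1))) ∧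
  (∃ R0 K : ℝ, 1 ≤ R0 ∧ 1 ≤ K ∧ ∀ x : ℝ, R0 ≤ x → ∃ T0 : ℝ, 1 ≤ T0 ∧ ∀ t : ℝ, T0 ≤ t →
    h t * Real.exp ((Om t - K) * x - K) ≤ ‖F (I * t + (x : ℂ))‖) ∧
  (∀ R : ℝ, ∃ K T0 : ℝ, 1 ≤ T0 ∧ ∀ (t : ℝ) (u : ℂ), T0 ≤ t → ‖u‖ ≤ R → 10 * κ ≤ u.re →
    F (I * t + u) ≠ 0 ∧ ‖logDeriv F (I * t + u) - (Om t : ℂ)‖ ≤ K) ∧
  (∀ R : ℝ, ∃ K T0 : ℝ, 1 ≤ T0 ∧ ∀ (t : ℝ) (u : ℂ), T0 ≤ t → ‖u‖ ≤ R →
    ‖F (I * t + u)‖ ≤ Real.exp (K * Real.log t) * h t ∧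
    (10 * κ ≤ u.re → F (I * t + u) ≠ 0 ∧
      Real.exp (-(K * Real.log t)) * h t ≤ ‖F (I * t + u)‖ ∧
      ‖logDeriv F (I * t + u) - ((Real.log t / 2 : ℝ) : ℂ)‖ ≤ K))

open Pool.Agent.W169.HF (heat Slow)

/-- Task HHT: the heat flow of an entire function with zeros in the strip `|Re s| ≤ 1/2`. -/
def S_HHT : Prop := ∀ X : ℂ → ℂ, Slow X → (∀ z : ℂ, X (-(conj z)) = conj (X z)) → (∃ z, X z ≠ 0) →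
  (∀ s : ℂ, X s = 0 → |s.re| ≤ 1 / 2) →
  heat 0 X = X ∧
  (∀ τ : ℝ, 0 ≤ τ → Differentiable ℂ (heat τ X)) ∧
  (∀ (τ : ℝ) (z : ℂ), 0 ≤ τ →
    Integrable (fun v : ℝ => ((Real.exp (-v ^ 2) : ℝ) : ℂ) * X (z + ((2 * Real.sqrt τ * v : ℝ) : ℂ)))) ∧
  (∀ (τ : ℝ) (s : ℂ), 0 ≤ τ → heat τ X s = 0 → |s.re| ≤ 1 / 2) ∧
  (∀ T1 : ℝ, ∃ C : ℝ, ∀ τ : ℝ, 0 ≤ τ → τ ≤ 1 / 8 → ∀ S : Finset ℂ,
    (∀ s ∈ S, |s.im| ≤ T1 ∧ heat τ X s = 0) → ∑ s ∈ S, (analyticOrderNatAt (heat τ X) s : ℝ) ≤ C)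

/-- Zeros of high derivatives up to height `exp (n / K)` are simple and on the line. -/
def LowX (X : ℂ → ℂ) : Prop := ∃ K : ℝ, 0 < K ∧ ∃ N : ℕ, ∀ n : ℕ, N ≤ n → ∀ s : ℂ,
  |s.im| ≤ Real.exp (n / K) → ¬ bad X n s

/-- Zeros of the heat flow for `τ log t` large are simple and on the line. -/
def HugeX (X : ℂ → ℂ) : Prop := ∃ X0 T0 : ℝ, 1 ≤ X0 ∧ 2 ≤ T0 ∧ ∀ (t τ : ℝ) (s : ℂ), T0 ≤ t → 0 < τ → τ ≤ 1 / 8 →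
  X0 ≤ τ * Real.log t → s.im = t → ¬ badH (fun τ => heat τ X) τ s

/-- locally uniform limit of polynomials with zeros in the strip `|Re z| ≤ 1/2` -/
def AppX (X : ℂ → ℂ) : Prop := ∃ Q : ℕ → ℂ[X], (∀ N (z : ℂ), (Q N).IsRoot z → |z.re| ≤ 1 / 2) ∧
    TendstoLocallyUniformly (fun (N : ℕ) (z : ℂ) => (Q N).eval z) X atTop

/-- Final theorem on derivatives. -/
def S_DDX : Prop := ∀ (κ : ℝ) (H X Z : ℂ → ℂ), 1 / 2 ≤ κ → κ ≤ 10 ^ 40 → GG κ H X Z → AppX X → LowX X →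
  ∃ c C : ℝ, 0 < c ∧ 0 < C ∧ ∀ (n : ℕ) (T : ℝ), 2 ≤ T → ∀ S : Finset ℂ,
    (∀ s ∈ S, bad X n s ∧ 0 < s.im ∧ s.im ≤ T) →
    ∑ s ∈ S, (analyticOrderNatAt (iteratedDeriv n X) s : ℝ) ≤ C * T * Real.log T * Real.exp (-(c * n))

/-- Final theorem on the heat flow. -/
def S_HDX : Prop := ∀ (κ : ℝ) (H X Z : ℂ → ℂ), 1 / 2 ≤ κ → κ ≤ 5 → GG κ H X Z →
  (∀ s : ℂ, X s = 0 → |s.re| ≤ 1 / 2) → HugeX X →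
  ∃ c C : ℝ, 0 < c ∧ 0 < C ∧ ∀ (T τ : ℝ), 2 ≤ T → 0 < τ → τ ≤ 1 / 8 → ∀ S : Finset ℂ,
    (∀ s ∈ S, badH (fun τ => heat τ X) τ s ∧ T < s.im ∧ s.im ≤ 2 * T) →
    ∑ s ∈ S, (analyticOrderNatAt (heat τ X) s : ℝ) ≤ C * T * Real.log T * Real.exp (-(c * τ * Real.log T ^ 2))

end Pool.Agent.Y671.GL
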