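import Pool.Agent.Y671.LD.Fin
import Pool.Agent.Y671.GL.Spec4

set_option autoImplicit false

/-!
# Project GD2: the completed function is not a polynomial; its derivatives do not vanish outside the strip
-/

namespace Pool.Agent.Y671.GL

open Complex Filter Topology MeasureTheory Set Polynomial
open scoped ComplexConjugate
open Pool.Agent.H24R2.JP (Om)
open Pool.Agent.H24R2.DZ (ra NN)
open Pool.Agent.Y671.LD

theorem poly_of_iter {F : ℂ → ℂ} (hF : Differentiable ℂ F) (n : ℕ) (h : ∀ z, iteratedDeriv n F z = 0) :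
    ∃ P : ℂ[X], ∀ z, F z = P.eval z := by
  have h0 : ∀ k : ℕ, iteratedDeriv (n + k) F = fun _ => 0 := by
    intro k
    induction k with
    | zero => funext z; simpa using h z
    | succ k ih =>
      rw [← add_assoc, iteratedDeriv_succ, ih]
      funext z
      simp
  refine ⟨∑ k ∈ Finset.range n, C (((k.factorial : ℕ) : ℂ)⁻¹ * iteratedDeriv k F 0) * X ^ k, ?_⟩
  intro z
  have h1 := (hasSum_taylorSeries_of_entire hF 0 z).tsum_eq
  rw [← h1, tsum_eq_sum (s := Finset.range n)]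
  · rw [eval_finset_sum]
    refine Finset.sum_congr rfl ?_
    intro k hk
    simp only [sub_zero, smul_eq_mul, eval_mul, eval_C, eval_pow, eval_X]
    ring
  · intro k hk
    have h2 : n ≤ k := by simpa using hk
    obtain ⟨m, rfl⟩ := Nat.exists_eq_add_of_le h2
    rw [h0 m]
    simp

theorem poly_log (P : ℂ[X]) (x : ℝ) : ∃ M C : ℝ, ∀ t : ℝ, M ≤ t →
    P.eval (I * t + (x : ℂ)) ≠ 0 → ‖logDeriv (fun z => P.eval z) (I * t + (x : ℂ))‖ ≤ C := by
  refine ⟨(P.roots.map (fun ρ => ‖ρ‖)).sum + 1, (Multiset.card P.roots : ℝ), ?_⟩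
  intro t ht h0
  have h1 : logDeriv (fun z => P.eval z) (I * t + (x : ℂ)) =
      P.derivative.eval (I * t + (x : ℂ)) / P.eval (I * t + (x : ℂ)) := by
    rw [logDeriv_apply, Polynomial.deriv]
  rw [h1, (IsAlgClosed.splits P).eval_derivative_div_eval_of_ne_zero h0]
  refine (norm_multiset_sum_le _).trans ?_
  have h2 : ∀ y ∈ Multiset.map norm (Multiset.map (fun z => 1 / ((I * t + (x : ℂ)) - z)) P.roots), y ≤ (1 : ℝ) := by
    intro y hy
    rw [Multiset.map_map, Multiset.mem_map] at hy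
    obtain ⟨ρ, hρ, rfl⟩ := hy
    simp only [Function.comp_apply, norm_div, norm_one]
    have h3 : ‖ρ‖ ≤ (P.roots.map (fun ρ => ‖ρ‖)).sum := by
      refine Multiset.single_le_sum ?_ _ ?_
      · intro y hy
        rw [Multiset.mem_map] at hy
        obtain ⟨a, -, rfl⟩ := hy
        exact norm_nonneg a
      · exact Multiset.mem_map_of_mem _ hρ
    have h4 : 1 ≤ ‖(I * t + (x : ℂ)) - ρ‖ := by
      have h5 := Complex.abs_im_le_norm ((I * t + (x : ℂ)) - ρ)
      have h6 : ((I * t + (x : ℂ)) - ρ).im = t - ρ.im := by simp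
      rw [h6] at h5
      have h7 := Complex.abs_im_le_norm ρ
      have h8 := le_abs_self (t - ρ.im)
      have h9 := le_abs_self ρ.im
      linarith
    exact (div_le_one (by linarith)).2 h4
  have h3 := Multiset.sum_le_card_nsmul _ _ h2
  refine h3.trans ?_
  simp

/-- An entire function whose logarithmic derivative tends to infinity is not a polynomial. -/
theorem iter_ne {F : ℂ → ℂ} (hF : Differentiable ℂ F) (x K T0 : ℝ)
    (h : ∀ t : ℝ, T0 ≤ t → F (I * t + (x : ℂ)) ≠ 0 ∧ ‖logDeriv F (I * t + (x : ℂ)) - (Om t : ℂ)‖ ≤ K) (n : ℕ) :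
    ∃ p, iteratedDeriv n F p ≠ 0 := by
  by_contra hcon
  push Not at hcon
  obtain ⟨P, hP⟩ := poly_of_iter hF n hcon
  have hPF : F = fun z => P.eval z := funext hP
  obtain ⟨M, C, hM⟩ := poly_log P x
  set t : ℝ := max (max T0 M) (Real.exp (2 * (K + C + 1))) with ht
  have h1 : T0 ≤ t := (le_max_left _ _).trans (le_max_left _ _)
  have h2 : M ≤ t := (le_max_right _ _).trans (le_max_left _ _)
  have h3 : Real.exp (2 * (K + C + 1)) ≤ t := le_max_right _ _
  have h4 : 2 * (K + C + 1) ≤ Real.log t := by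
    rw [Real.le_log_iff_exp_le (lt_of_lt_of_le (Real.exp_pos _) h3)]
    exact h3
  obtain ⟨h5, h6⟩ := h t h1
  have h7 := hM t h2 (by rw [← hP]; exact h5)
  rw [hPF] at h6
  have h8 : ‖((Om t : ℝ) : ℂ)‖ ≤ ‖logDeriv (fun z => P.eval z) (I * t + (x : ℂ))‖ +
      ‖logDeriv (fun z => P.eval z) (I * t + (x : ℂ)) - (Om t : ℂ)‖ := by
    have := norm_sub_le (logDeriv (fun z => P.eval z) (I * t + (x : ℂ)))
      (logDeriv (fun z => P.eval z) (I * t + (x : ℂ)) - (Om t : ℂ))
    simpa using this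
  rw [Complex.norm_real, Real.norm_eq_abs] at h8
  have h9 := le_abs_self (Om t)
  have h10 : Om t = Real.log t / 2 := rfl
  linarith

theorem approx' {B : ℝ} {F : ℂ → ℂ} (happ : App B F) (hne : ∀ n, ∃ p, iteratedDeriv n F p ≠ 0)
    (n : ℕ) : ∃ Q : ℕ → ℂ[X],
    (∀ᶠ N in atTop, Q N ≠ 0 ∧ ∀ z : ℂ, (Q N).IsRoot z → |z.re| ≤ B) ∧
    TendstoLocallyUniformly (fun (N : ℕ) (z : ℂ) => (Q N).eval z) (iteratedDeriv n F) atTop := by
  have hnz : ∀ (n : ℕ) (Q : ℕ → ℂ[X]), TendstoLocallyUniformly (fun (N : ℕ) (z : ℂ) => (Q N).eval z)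
      (iteratedDeriv n F) atTop → ∀ᶠ N in atTop, Q N ≠ 0 := by
    intro n Q hQ
    obtain ⟨p, hp⟩ := hne n
    have h1 := (tendstoLocallyUniformlyOn_univ.2 hQ).tendsto_at (Set.mem_univ (p : ℂ))
    filter_upwards [h1.eventually_ne hp] with N hN h0
    rw [h0] at hN
    simp at hN
  induction n with
  | zero =>
    obtain ⟨Q, hQ1, hQ2⟩ := happ
    refine ⟨Q, ?_, by simpa using hQ2⟩
    filter_upwards [hnz 0 Q (by simpa using hQ2)] with N hN
    exact ⟨hN, hQ1 N⟩
  | succ n ih =>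
    obtain ⟨Q, hQ1, hQ2⟩ := ih
    have h3 : TendstoLocallyUniformly (fun (N : ℕ) (z : ℂ) => (derivative (Q N)).eval z)
        (iteratedDeriv (n + 1) F) atTop := by
      rw [iteratedDeriv_succ]
      exact CirAux.tlu_deriv hQ2
    refine ⟨fun N => derivative (Q N), ?_, h3⟩
    filter_upwards [hQ1, hnz (n + 1) (fun N => derivative (Q N)) h3] with N hN1 hN2
    exact ⟨hN2, fun z hz => gl_strip' (Q N) hN2 hN1.2 z hz⟩

theorem strip_of_app' {B : ℝ} {F : ℂ → ℂ} (hF : Differentiable ℂ F) (happ : App B F)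
    (hne : ∀ n, ∃ p, iteratedDeriv n F p ≠ 0) : Strip F B := by
  intro n a ha
  obtain ⟨Q, hQ1, hQ2⟩ := approx' happ hne n
  obtain ⟨p, hp⟩ := hne n
  refine le_of_forall_pos_le_add fun ε hε => ?_
  have h1 := Pool.Agent.H24R2.JP.ParCircAux.hurw (F := fun (N : ℕ) (z : ℂ) => (Q N).eval z)
    (f := iteratedDeriv n F) (fun N => (Q N).differentiable) hQ2
    (Pool.Agent.H24R2.JP.ParCircAux.diff_iter hF n) ha hp hε
  obtain ⟨N, hN1, hN2⟩ := (h1.and hQ1).exists
  obtain ⟨z, hz1, hz2⟩ := hN1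
  have h2 := hN2.2 z hz2
  have h3 : |a.re| ≤ |z.re| + ‖z - a‖ := by
    have h4 := Complex.abs_re_le_norm (z - a)
    rw [Complex.sub_re] at h4
    have h5 : |a.re| ≤ |z.re| + |z.re - a.re| := by
      have := abs_sub_abs_le_abs_sub a.re z.re
      rw [abs_sub_comm] at this
      linarith
    linarith
  linarith

end Pool.Agent.Y671.GL
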