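import Pool.Agent.Y671.GL.Spec2

set_option autoImplicit false

/-!
# Project GD2, third part: gamma factors, and completed L-functions on larger domains
-/

namespace Pool.Agent.Y671.GL

open Complex Filter Topology MeasureTheory Set
open scoped ComplexConjugate

/-- the gamma factor `c^w Γ(w + A)` -/
noncomputable def Hg (c A : ℝ) (w : ℂ) : ℂ := (c : ℂ) ^ w * Complex.Gamma (w + (A : ℂ))

/-- Task STIR: Stirling's formula for `Hg`. -/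
def S_STIR : Prop := ∀ c A : ℝ, 0 < c → 0 < A → ∃ K T0 : ℝ, 1 ≤ K ∧ 2 ≤ T0 ∧ ∀ t : ℝ, T0 ≤ t →
  Real.exp (-(K * t)) ≤ ‖Hg c A (I * t)‖ ∧ ∀ u : ℂ, ‖u‖ ≤ t / 8 →
    DifferentiableAt ℂ (Hg c A) (I * t + u) ∧ Hg c A (I * t + u) ≠ 0 ∧
    ‖logDeriv (Hg c A) (I * t + u) - (Real.log t : ℂ)‖ ≤ K

/-- A completed L-function with `2 κ` gamma factors `Γ_ℝ`: `CF` and bounds on larger domains. -/
structure CG (κ : ℝ) (H X Z : ℂ → ℂ) : Prop where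
  cf : CF κ H X Z
  gam2 : ∃ K T0 : ℝ, 1 ≤ K ∧ 2 ≤ T0 ∧ ∀ t : ℝ, T0 ≤ t → Real.exp (-(K * t)) ≤ ‖H (I * t)‖ ∧
    ∀ u : ℂ, ‖u‖ ≤ t / 8 → DifferentiableAt ℂ H (I * t + u) ∧ H (I * t + u) ≠ 0 ∧
      ‖logDeriv H (I * t + u) - ((κ * Real.log t : ℝ) : ℂ)‖ ≤ K
  slow : ∃ K : ℝ, 0 < K ∧ ∀ z : ℂ, ‖X z‖ ≤ Real.exp (K * (1 + ‖z‖) ^ (3 / 2 : ℝ))

end Pool.Agent.Y671.GL
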