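import Pool.Agent.Y671.GL.Spec4
import Pool.Agent.Y494.GL.STIR
import Pool.Agent.Y771.GL.MF
import Pool.Agent.W148.SDGrow
import Pool.Agent.H986R2.DBN.Stir2

set_option autoImplicit false

/-!
# Project GD2: the structure `CG` for the completed L-function of a form
-/

namespace Pool.Agent.Y671.GL

open Complex Filter Topology MeasureTheory Set
open scoped ComplexConjugate

/-- The completed function `X w = u c^w Γ(w + k/2) Z(1/2 + w)`. -/
structure LData (k : ℕ) (c : ℝ) (u : ℂ) (X Z : ℂ → ℂ) : Prop where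
  c_pos : 0 < c
  u_ne : u ≠ 0
  diff : Differentiable ℂ X
  symm : ∀ z : ℂ, X (-(conj z)) = conj (X z)
  eq : ∀ w : ℂ, (0 < w.im ∨ 1 / 2 < w.re) → X w = u * Hg c ((k : ℝ) / 2) w * Z (1 / 2 + w)
  vert : ∀ a b : ℝ, ∃ M : ℝ, ∀ z : ℂ, a ≤ z.re → z.re ≤ b → ‖X z‖ ≤ M
  gro : ∃ A : ℝ, ∀ s : ℂ, 1 / 16 ≤ s.re → 1 ≤ s.im → ‖Z s‖ ≤ A * s.im ^ A

/-! ## The Dirichlet series -/

section ser

variable {k N : ℕ} {ps lam : ℕ → ℂ} {Z : ℂ → ℂ}

lemma ser_eq (hf : Frm k N ps lam) (hL : IsL lam Z) {s : ℂ} (hs : 1 < s.re) : Z s = LSeries lam s := by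
  rw [hL.ser s hs, LSeries]
  refine tsum_congr fun n => ?_
  rcases Nat.eq_zero_or_pos n with rfl | hn
  · simp [hf.zero]
  · rw [LSeries.term_of_ne_zero hn.ne', Complex.cpow_neg, div_eq_mul_inv]

lemma sum_of {g : ℕ → ℂ} {σ : ℝ} (h : Summable (fun n : ℕ => ‖g n‖ * (n : ℝ) ^ (-σ))) {s : ℂ} (hs : σ ≤ s.re) :
    LSeriesSummable g s ∧ ‖LSeries g s‖ ≤ ∑' n : ℕ, ‖g n‖ * (n : ℝ) ^ (-σ) := by
  have h1 : ∀ n : ℕ, ‖LSeries.term g s n‖ ≤ ‖g n‖ * (n : ℝ) ^ (-σ) := by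
    intro n
    rcases Nat.eq_zero_or_pos n with rfl | hn
    · rw [LSeries.term_zero, norm_zero]
      positivity
    · rw [LSeries.term_of_ne_zero hn.ne', norm_div, Complex.norm_natCast_cpow_of_pos hn, div_eq_mul_inv,
        ← Real.rpow_neg (Nat.cast_nonneg n)]
      apply mul_le_mul_of_nonneg_left _ (norm_nonneg _)
      apply Real.rpow_le_rpow_of_exponent_le
      · exact_mod_cast hn
      · linarith
  have h2 : Summable (fun n => ‖LSeries.term g s n‖) := h.of_nonneg_of_le (fun n => norm_nonneg _) h1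
  exact ⟨h2.of_norm, (norm_tsum_le_tsum_norm h2).trans (h2.tsum_le_tsum h1 h)⟩

lemma inv_mul_one (hf : Frm k N ps lam) {s : ℂ} (hs : 1 < s.re) :
    LSeries (mf ps lam) s * LSeries lam s = 1 := by
  obtain ⟨-, h2, -, h4⟩ := Pool.Agent.Y771.GL.mf k N ps lam hf
  obtain ⟨h5, h6⟩ := h4 s.re hs
  have h7 := (sum_of h6 le_rfl).1
  have h8 := (sum_of h5 le_rfl).1
  rw [← LSeries_convolution' h7 h8]
  have h9 : LSeries (LSeries.convolution (mf ps lam) lam) s = LSeries LSeries.delta s := by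
    apply LSeries_congr
    intro n hn
    rw [LSeries.convolution_def]
    show ∑ p ∈ n.divisorsAntidiagonal, mf ps lam p.1 * lam p.2 = LSeries.delta n
    rw [Nat.sum_divisorsAntidiagonal (fun a b => mf ps lam a * lam b), h2 n (Nat.pos_of_ne_zero hn)]
    unfold LSeries.delta
    rfl
  rw [h9, LSeries_delta]
  rfl

theorem rgt_of (hf : Frm k N ps lam) (hL : IsL lam Z) : ∀ ε : ℝ, 0 < ε → ∃ c K : ℝ, 0 < c ∧ 0 < K ∧
    ∀ s : ℂ, 1 + ε ≤ s.re → c ≤ ‖Z s‖ ∧ ‖Z s‖ ≤ K ∧ ‖logDeriv Z s‖ ≤ K := by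
  intro ε hε
  obtain ⟨-, -, -, h4⟩ := Pool.Agent.Y771.GL.mf k N ps lam hf
  obtain ⟨h5, -⟩ := h4 (1 + ε / 2) (by linarith)
  obtain ⟨-, h6⟩ := h4 (1 + ε) (by linarith)
  obtain ⟨K1, hK1⟩ : ∃ K1, K1 = ∑' n : ℕ, ‖lam n‖ * (n : ℝ) ^ (-(1 + ε / 2)) := ⟨_, rfl⟩
  obtain ⟨M1, hM1⟩ : ∃ M1, M1 = ∑' n : ℕ, ‖mf ps lam n‖ * (n : ℝ) ^ (-(1 + ε)) := ⟨_, rfl⟩
  have hK0 : 0 ≤ K1 := by rw [hK1]; exact tsum_nonneg fun n => by positivity
  have hM0 : 0 ≤ M1 := by rw [hM1]; exact tsum_nonneg fun n => by positivity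
  have hb : ∀ s : ℂ, 1 + ε / 2 ≤ s.re → ‖Z s‖ ≤ K1 := by
    intro s hs
    rw [ser_eq hf hL (by linarith), hK1]
    exact (sum_of h5 hs).2
  have hl : ∀ s : ℂ, 1 + ε ≤ s.re → 1 / (M1 + 1) ≤ ‖Z s‖ := by
    intro s hs
    have h7 := inv_mul_one hf (s := s) (by linarith)
    have h8 := (sum_of h6 hs).2
    rw [← hM1] at h8
    have h9 : ‖LSeries (mf ps lam) s‖ * ‖Z s‖ = 1 := by
      rw [ser_eq hf hL (by linarith), ← norm_mul, h7, norm_one]
    rw [div_le_iff₀ (by linarith)]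
    nlinarith [norm_nonneg (Z s)]
  refine ⟨1 / (M1 + 1), K1 * (1 + (2 / ε) * (M1 + 1)) + 1, by positivity, by positivity, ?_⟩
  intro s hs
  have h1 := hb s (by linarith)
  have h2 := hl s hs
  have h3 : 0 < 1 / (M1 + 1) := by positivity
  refine ⟨h2, ?_, ?_⟩
  · have : 0 ≤ K1 * ((2 / ε) * (M1 + 1)) := by positivity
    linarith
  · rw [logDeriv_apply, norm_div]
    have h4 : ‖deriv Z s‖ ≤ K1 / (ε / 2) := by
      apply Complex.norm_deriv_le_of_forall_mem_sphere_norm_le (by positivity) hL.diff.diffContOnCl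
      intro z hz
      apply hb
      rw [mem_sphere_iff_norm] at hz
      have h5 := Complex.abs_re_le_norm (z - s)
      rw [hz, Complex.sub_re] at h5
      have := (abs_le.1 h5).1
      linarith
    have h5 : 0 < ‖Z s‖ := by linarith
    rw [div_le_iff₀ h5]
    have h6 : K1 / (ε / 2) = (K1 * (2 / ε) * (M1 + 1)) * (1 / (M1 + 1)) := by
      field_simp
    have h7 : (K1 * (2 / ε) * (M1 + 1)) * (1 / (M1 + 1)) ≤ (K1 * (2 / ε) * (M1 + 1)) * ‖Z s‖ := by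
      gcongr
    have h8 : 0 ≤ K1 * ‖Z s‖ := by positivity
    calc ‖deriv Z s‖ ≤ (K1 * (2 / ε) * (M1 + 1)) * ‖Z s‖ := by rw [h6] at h4; exact h4.trans h7
      _ ≤ _ := by nlinarith

end ser

/-! ## The gamma factor -/

section gam

variable {c A : ℝ} {u0 : ℂ}

lemma ld_const {f : ℂ → ℂ} {u0 : ℂ} (hu : u0 ≠ 0) (z : ℂ) :
    logDeriv (fun w => u0 * f w) z = logDeriv f z := logDeriv_const_mul z u0 hu

/-- Stirling for `u0 * Hg c A`. -/
lemma stir_u (hc : 0 < c) (hA : 0 < A) (hu : u0 ≠ 0) : ∃ K T0 : ℝ, 1 ≤ K ∧ 2 ≤ T0 ∧ ∀ t : ℝ, T0 ≤ t →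
    Real.exp (-(K * t)) ≤ ‖u0 * Hg c A (I * t)‖ ∧ ∀ u : ℂ, ‖u‖ ≤ t / 8 →
    DifferentiableAt ℂ (fun w => u0 * Hg c A w) (I * t + u) ∧ u0 * Hg c A (I * t + u) ≠ 0 ∧
    ‖logDeriv (fun w => u0 * Hg c A w) (I * t + u) - (Real.log t : ℂ)‖ ≤ K := by
  obtain ⟨K, T0, hK, hT0, H⟩ := Pool.Agent.Y494.GL.stir c A hc hA
  have hu0 : 0 < ‖u0‖ := norm_pos_iff.2 hu
  refine ⟨K + |Real.log ‖u0‖|, T0, by linarith [abs_nonneg (Real.log ‖u0‖)], hT0, ?_⟩
  intro t ht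
  obtain ⟨h1, h2⟩ := H t ht
  refine ⟨?_, ?_⟩
  · rw [norm_mul]
    have h3 : Real.exp (-|Real.log ‖u0‖|) ≤ ‖u0‖ := by
      rw [← Real.le_log_iff_exp_le hu0]
      exact neg_abs_le _
    have h4 : Real.exp (-((K + |Real.log ‖u0‖|) * t)) ≤ Real.exp (-|Real.log ‖u0‖|) * Real.exp (-(K * t)) := by
      rw [← Real.exp_add]
      apply Real.exp_le_exp.2
      have : |Real.log ‖u0‖| ≤ |Real.log ‖u0‖| * t := by
        have := abs_nonneg (Real.log ‖u0‖)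
        nlinarith
      linarith
    exact h4.trans (mul_le_mul h3 h1 (Real.exp_pos _).le hu0.le)
  · intro u hu1
    obtain ⟨h3, h4, h5⟩ := h2 u hu1
    refine ⟨h3.const_mul u0, mul_ne_zero hu h4, ?_⟩
    rw [ld_const hu]
    exact h5.trans (by linarith [abs_nonneg (Real.log ‖u0‖)])

/-- the field `gam` of `CF` -/
theorem gam_of {H : ℂ → ℂ} (hH : ∃ K T0 : ℝ, 1 ≤ K ∧ 2 ≤ T0 ∧ ∀ t : ℝ, T0 ≤ t →
    Real.exp (-(K * t)) ≤ ‖H (I * t)‖ ∧ ∀ u : ℂ, ‖u‖ ≤ t / 8 →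
    DifferentiableAt ℂ H (I * t + u) ∧ H (I * t + u) ≠ 0 ∧
    ‖logDeriv H (I * t + u) - (Real.log t : ℂ)‖ ≤ K) :
    ∀ R : ℝ, 1 ≤ R → ∃ K T0 : ℝ, 0 < K ∧ 2 ≤ T0 ∧ ∀ (t : ℝ) (u : ℂ), T0 ≤ t → ‖u‖ ≤ R →
    DifferentiableAt ℂ H (I * t + u) ∧ H (I * t + u) ≠ 0 ∧
    ‖logDeriv H (I * t + u) - ((1 * Real.log t : ℝ) : ℂ)‖ ≤ K ∧
    Real.exp (1 * Real.log t * u.re - K) * ‖H (I * t)‖ ≤ ‖H (I * t + u)‖ ∧
    ‖H (I * t + u)‖ ≤ Real.exp (1 * Real.log t * u.re + K) * ‖H (I * t)‖ := by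
  obtain ⟨K, T0, hK, hT0, H1⟩ := hH
  intro R hR
  refine ⟨K * (R + 1), max T0 (8 * R), by positivity, hT0.trans (le_max_left _ _), ?_⟩
  intro t u ht hu
  have ht0 : T0 ≤ t := (le_max_left _ _).trans ht
  have ht1 : 8 * R ≤ t := (le_max_right _ _).trans ht
  obtain ⟨-, h2⟩ := H1 t ht0
  have h3 : ∀ v : ℂ, ‖v‖ ≤ R → DifferentiableAt ℂ H (I * t + v) ∧ H (I * t + v) ≠ 0 ∧
      ‖logDeriv H (I * t + v) - (Real.log t : ℂ)‖ ≤ K := fun v hv => h2 v (by linarith)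
  obtain ⟨h4, h5, h6⟩ := h3 u hu
  have hKR : K ≤ K * (R + 1) := by nlinarith
  refine ⟨h4, h5, ?_, ?_, ?_⟩
  · rw [one_mul]
    exact h6.trans hKR
  · have h7 := Pool.Agent.W148.SDGrow.seg (F := H) (M := Real.log t) (E := K) (I * t + u) (-u) (by
      intro s hs0 hs1
      have h8 : (I * t + u : ℂ) + s * (-u) = I * t + (((1 - s : ℝ) : ℂ) * u) := by push_cast; ring
      rw [h8]
      apply h3
      rw [norm_mul, Complex.norm_real, Real.norm_eq_abs, abs_of_nonneg (by linarith)]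
      nlinarith [norm_nonneg u])
    rw [add_neg_cancel_right, norm_neg, Complex.neg_re] at h7
    rw [← mul_comm, mul_comm]
    have h8 : Real.exp (1 * Real.log t * u.re - K * (R + 1)) *
        (‖H (I * t + u)‖ * Real.exp (Real.log t * -u.re + K * ‖u‖)) ≤ ‖H (I * t + u)‖ := by
      have h9 : Real.exp (1 * Real.log t * u.re - K * (R + 1)) * Real.exp (Real.log t * -u.re + K * ‖u‖) ≤ 1 := by
        rw [← Real.exp_add, Real.exp_le_one_iff]
        nlinarith [norm_nonneg u]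
      have h10 := norm_nonneg (H (I * t + u))
      calc _ = ‖H (I * t + u)‖ * (Real.exp (1 * Real.log t * u.re - K * (R + 1)) *
            Real.exp (Real.log t * -u.re + K * ‖u‖)) := by ring
        _ ≤ ‖H (I * t + u)‖ * 1 := by gcongr
        _ = _ := by ring
    refine le_trans ?_ h8
    gcongr
  · have h7 := Pool.Agent.W148.SDGrow.seg (F := H) (M := Real.log t) (E := K) (I * t) u (by
      intro s hs0 hs1
      apply h3
      rw [norm_mul, Complex.norm_real, Real.norm_eq_abs, abs_of_nonneg hs0]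
      nlinarith [norm_nonneg u])
    refine h7.trans ?_
    rw [mul_comm ‖H (I * t)‖]
    refine mul_le_mul_of_nonneg_right (Real.exp_le_exp.2 ?_) (norm_nonneg _)
    nlinarith [norm_nonneg u]

end gam

/-! ## Growth -/

section gro

variable {k N : ℕ} {ps lam : ℕ → ℂ} {c : ℝ} {u0 : ℂ} {X Z : ℂ → ℂ}

theorem gro_of {H : ℂ → ℂ} (hgam : ∀ R : ℝ, 1 ≤ R → ∃ K T0 : ℝ, 0 < K ∧ 2 ≤ T0 ∧ ∀ (t : ℝ) (u : ℂ), T0 ≤ t → ‖u‖ ≤ R →
    DifferentiableAt ℂ H (I * t + u) ∧ H (I * t + u) ≠ 0 ∧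
    ‖logDeriv H (I * t + u) - ((1 * Real.log t : ℝ) : ℂ)‖ ≤ K ∧
    Real.exp (1 * Real.log t * u.re - K) * ‖H (I * t)‖ ≤ ‖H (I * t + u)‖ ∧
    ‖H (I * t + u)‖ ≤ Real.exp (1 * Real.log t * u.re + K) * ‖H (I * t)‖)
    (hsymm : ∀ z : ℂ, X (-(conj z)) = conj (X z))
    (heq : ∀ w : ℂ, 0 < w.im → X w = H w * Z (1 / 2 + w))
    (hgro : ∃ A : ℝ, ∀ s : ℂ, 1 / 16 ≤ s.re → 1 ≤ s.im → ‖Z s‖ ≤ A * s.im ^ A) :
    ∀ R : ℝ, 1 ≤ R → ∃ K T0 : ℝ, 0 < K ∧ 2 ≤ T0 ∧ ∀ (t : ℝ) (u : ℂ), T0 ≤ t → ‖u‖ ≤ R →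
    ‖Z (1 / 2 + (I * t + u))‖ ≤ t ^ K := by
  intro R hR
  obtain ⟨K, T0, hK, hT0, H1⟩ := hgam R hR
  obtain ⟨A, hA⟩ := hgro
  obtain ⟨B, hB⟩ : ∃ B, B = |A| + 1 := ⟨_, rfl⟩
  have hB1 : 1 ≤ B := by rw [hB]; linarith [abs_nonneg A]
  have hAB : A ≤ B := by rw [hB]; linarith [le_abs_self A]
  have hA' : ∀ s : ℂ, 1 / 16 ≤ s.re → 1 ≤ s.im → ‖Z s‖ ≤ B * s.im ^ B := by
    intro s h1 h2
    refine (hA s h1 h2).trans ?_
    have h3 : s.im ^ A ≤ s.im ^ B := Real.rpow_le_rpow_of_exponent_le h2 hAB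
    have h4 : 0 ≤ s.im ^ A := by positivity
    have h5 : 0 ≤ s.im ^ B := by positivity
    nlinarith
  -- `B (2t)^B e^{2K} t^{2R} ≤ t^K'` with `K' = 2 B + B + 2 K + 2 R` once `t ≥ e`, `t ≥ 2`, `B ≤ e^B`
  refine ⟨3 * B + 2 * K + 2 * R, max T0 (max 3 (2 * R + 2)), by positivity, hT0.trans (le_max_left _ _), ?_⟩
  intro t u ht hu
  have ht0 : T0 ≤ t := (le_max_left _ _).trans ht
  have ht3 : 3 ≤ t := ((le_max_left _ _).trans (le_max_right _ _)).trans ht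
  have htR : 2 * R + 2 ≤ t := ((le_max_right _ _).trans (le_max_right _ _)).trans ht
  have htp : 0 < t := by linarith
  have hlt : 1 ≤ Real.log t := by
    rw [Real.le_log_iff_exp_le htp]
    have := Real.exp_one_lt_d9
    linarith
  have hure := Complex.abs_re_le_norm u
  have huim := Complex.abs_im_le_norm u
  have hure' := abs_le.1 (hure.trans hu)
  have huim' := abs_le.1 (huim.trans hu)
  have key : ∀ v : ℂ, ‖v‖ ≤ R → 1 / 16 ≤ 1 / 2 + v.re → ‖Z (1 / 2 + (I * t + v))‖ ≤ t ^ (3 * B) := by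
    intro v hv hv2
    have hvim := Complex.abs_im_le_norm v
    have hvim' := abs_le.1 (hvim.trans hv)
    have h1 := hA' (1 / 2 + (I * t + v)) (by simpa using hv2) (by simp; linarith)
    have h2 : (1 / 2 + (I * t + v) : ℂ).im = t + v.im := by simp
    rw [h2] at h1
    refine h1.trans ?_
    have h3 : (t + v.im) ^ B ≤ (t * t) ^ B := by
      apply Real.rpow_le_rpow
      · linarith
      · nlinarith
      · linarith
    have h4 : B ≤ t ^ B := by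
      have h5 : B ≤ Real.exp B := by linarith [Real.add_one_le_exp B]
      have h6 : Real.exp B ≤ Real.exp (Real.log t * B) := by
        apply Real.exp_le_exp.2
        nlinarith
      rw [Real.rpow_def_of_pos htp]
      linarith
    have h5 : (t * t) ^ B = t ^ B * t ^ B := Real.mul_rpow htp.le htp.le
    have h6 : t ^ (3 * B) = t ^ B * (t ^ B * t ^ B) := by
      rw [← Real.rpow_add htp, ← Real.rpow_add htp]
      ring_nf
    rw [h6]
    have h7 : 0 < t ^ B := by positivity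
    rw [h5] at h3
    have h8 : 0 ≤ (t + v.im) ^ B := by
      apply Real.rpow_nonneg
      linarith
    exact mul_le_mul h4 h3 h8 h7.le
  have hpow : t ^ (3 * B) ≤ t ^ (3 * B + 2 * K + 2 * R) := by
    apply Real.rpow_le_rpow_of_exponent_le (by linarith)
    linarith
  rcases le_or_gt (1 / 16) (1 / 2 + u.re) with h | h
  · exact (key u hu h).trans hpow
  · -- reflect
    obtain ⟨v, hv⟩ : ∃ v : ℂ, v = -(conj u) := ⟨_, rfl⟩
    have hvR : ‖v‖ ≤ R := by rw [hv, norm_neg, Complex.norm_conj]; exact hu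
    have hvre : v.re = -u.re := by rw [hv]; simp
    have h1 := key v hvR (by rw [hvre]; linarith)
    have h2 : -(conj (I * t + u)) = I * t + v := by
      rw [hv, map_add, map_mul, Complex.conj_I, Complex.conj_ofReal]
      ring
    have h3 := hsymm (I * t + u)
    rw [h2] at h3
    have h4 : ‖X (I * t + v)‖ = ‖X (I * t + u)‖ := by rw [h3, Complex.norm_conj]
    have him : ∀ w : ℂ, ‖w‖ ≤ R → 0 < (I * t + w).im := by
      intro w hw
      have := (abs_le.1 ((Complex.abs_im_le_norm w).trans hw)).1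
      simp
      linarith
    rw [heq _ (him v hvR), heq _ (him u hu), norm_mul, norm_mul] at h4
    obtain ⟨-, -, -, -, k1⟩ := H1 t v ht0 hvR
    obtain ⟨-, k0, -, k2, -⟩ := H1 t u ht0 hu
    have hHt : 0 < ‖H (I * t)‖ := by
      obtain ⟨-, k3, -⟩ := H1 t 0 ht0 (by simp; linarith)
      rw [add_zero] at k3
      exact norm_pos_iff.2 k3
    have hHu : 0 < ‖H (I * t + u)‖ := norm_pos_iff.2 k0
    -- `|Z(u)| = |H(v)| |Z(v)| / |H(u)|`
    have h5 : ‖H (I * t + v)‖ ≤ Real.exp (2 * R * Real.log t + 2 * K) * ‖H (I * t + u)‖ := by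
      refine k1.trans ?_
      have h6 : Real.exp (1 * Real.log t * v.re + K) * ‖H (I * t)‖ ≤
          Real.exp (2 * R * Real.log t + 2 * K) * (Real.exp (1 * Real.log t * u.re - K) * ‖H (I * t)‖) := by
        rw [← mul_assoc, ← Real.exp_add]
        refine mul_le_mul_of_nonneg_right (Real.exp_le_exp.2 ?_) (norm_nonneg _)
        rw [hvre]
        nlinarith
      refine h6.trans ?_
      gcongr
    have h6 : ‖H (I * t + u)‖ * ‖Z (1 / 2 + (I * t + u))‖ ≤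
        ‖H (I * t + u)‖ * (Real.exp (2 * R * Real.log t + 2 * K) * t ^ (3 * B)) := by
      rw [← h4]
      calc ‖H (I * t + v)‖ * ‖Z (1 / 2 + (I * t + v))‖
          ≤ (Real.exp (2 * R * Real.log t + 2 * K) * ‖H (I * t + u)‖) * t ^ (3 * B) := by
            gcongr
        _ = _ := by ring
    have h7 := le_of_mul_le_mul_left h6 hHu
    refine h7.trans ?_
    have h8 : Real.exp (2 * R * Real.log t + 2 * K) ≤ t ^ (2 * K + 2 * R) := by
      rw [Real.rpow_def_of_pos htp]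
      apply Real.exp_le_exp.2
      nlinarith
    calc Real.exp (2 * R * Real.log t + 2 * K) * t ^ (3 * B) ≤ t ^ (2 * K + 2 * R) * t ^ (3 * B) := by gcongr
      _ = t ^ (3 * B + 2 * K + 2 * R) := by rw [← Real.rpow_add htp]; ring_nf

end gro

/-! ## Slow growth -/

section slow

lemma gamma_le {x : ℝ} (hx : 2 ≤ x) : Real.Gamma x ≤ Real.exp (2 * (x + 1) ^ (3 / 2 : ℝ)) := by
  have h0 : (x : ℝ) ≤ ⌈x⌉₊ := Nat.le_ceil x
  have h1 : Real.Gamma x ≤ Real.Gamma ((⌈x⌉₊ : ℝ) + 1) := by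
    apply (Real.Gamma_strictMonoOn_Ici).monotoneOn
    · exact hx
    · show (2 : ℝ) ≤ _
      linarith
    · linarith
  rw [Real.Gamma_nat_eq_factorial] at h1
  have h2 : ((⌈x⌉₊.factorial : ℕ) : ℝ) ≤ (⌈x⌉₊ : ℝ) ^ ⌈x⌉₊ := by exact_mod_cast Nat.factorial_le_pow _
  have hp : (0 : ℝ) < ⌈x⌉₊ := by linarith
  have h3 : (⌈x⌉₊ : ℝ) ^ ⌈x⌉₊ = Real.exp (Real.log ⌈x⌉₊ * ⌈x⌉₊) := by
    rw [← Real.rpow_natCast, Real.rpow_def_of_pos hp]
  have h4 : Real.log ⌈x⌉₊ * ⌈x⌉₊ ≤ 2 * (x + 1) ^ (3 / 2 : ℝ) := by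
    have h5 : Real.log ⌈x⌉₊ ≤ (⌈x⌉₊ : ℝ) ^ (1 / 2 : ℝ) / (1 / 2) :=
      Real.log_le_rpow_div hp.le (by norm_num)
    have h6 : (⌈x⌉₊ : ℝ) ^ (3 / 2 : ℝ) = (⌈x⌉₊ : ℝ) ^ (1 / 2 : ℝ) * ⌈x⌉₊ := by
      have h7 : (3 / 2 : ℝ) = 1 / 2 + 1 := by norm_num
      rw [h7, Real.rpow_add hp, Real.rpow_one]
    have h7 : (⌈x⌉₊ : ℝ) ≤ x + 1 := (Nat.ceil_lt_add_one (by linarith)).le
    have h8 : (⌈x⌉₊ : ℝ) ^ (3 / 2 : ℝ) ≤ (x + 1) ^ (3 / 2 : ℝ) := Real.rpow_le_rpow hp.le h7 (by norm_num)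
    nlinarith
  calc Real.Gamma x ≤ Real.exp (Real.log ⌈x⌉₊ * ⌈x⌉₊) := by rw [← h3]; exact h1.trans h2
    _ ≤ _ := Real.exp_le_exp.2 h4

variable {k N : ℕ} {ps lam : ℕ → ℂ} {c : ℝ} {u0 : ℂ} {X Z : ℂ → ℂ}

theorem slow_X (hD : LData k c u0 X Z)
    (hr : ∃ K : ℝ, 0 < K ∧ ∀ s : ℂ, 5 / 2 ≤ s.re → ‖Z s‖ ≤ K) :
    ∃ K : ℝ, 0 < K ∧ ∀ z : ℂ, ‖X z‖ ≤ Real.exp (K * (1 + ‖z‖) ^ (3 / 2 : ℝ)) := by
  obtain ⟨K1, hK1, hZ⟩ := hr
  obtain ⟨M, hM⟩ := hD.vert 0 2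
  have hc := hD.c_pos
  obtain ⟨D, hDd⟩ : ∃ D : ℝ, D = ‖u0‖ + |Real.log c| + 2 * ((k : ℝ) + 2) ^ (3 / 2 : ℝ) + K1 + |M| + 1 := ⟨_, rfl⟩
  have hD0 : 0 < D := by rw [hDd]; positivity
  refine ⟨D, hD0, ?_⟩
  have hpos : ∀ z : ℂ, 0 ≤ z.re → ‖X z‖ ≤ Real.exp (D * (1 + ‖z‖) ^ (3 / 2 : ℝ)) := by
    intro z hz
    have h1z : 1 ≤ 1 + ‖z‖ := by linarith [norm_nonneg z]
    have h1 : 1 + ‖z‖ ≤ (1 + ‖z‖) ^ (3 / 2 : ℝ) := by
      conv_lhs => rw [← Real.rpow_one (1 + ‖z‖)]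
      exact Real.rpow_le_rpow_of_exponent_le h1z (by norm_num)
    set Y := (1 + ‖z‖) ^ (3 / 2 : ℝ) with hY
    have hY1 : 1 ≤ Y := by linarith
    rcases le_or_gt z.re 2 with h2 | h2
    · have h3 := hM z hz h2
      have h4 : M ≤ Real.exp (D * Y) := by
        have h5 : M ≤ D := by
          rw [hDd]
          have := le_abs_self M
          have := norm_nonneg u0
          have := abs_nonneg (Real.log c)
          have : 0 ≤ 2 * ((k : ℝ) + 2) ^ (3 / 2 : ℝ) := by positivity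
          linarith
        have h6 : D ≤ D * Y := by nlinarith
        have h7 := Real.add_one_le_exp (D * Y)
        linarith
      exact h3.trans h4
    · rw [hD.eq z (Or.inr (by linarith)), norm_mul, norm_mul]
      have h3 : ‖Z (1 / 2 + z)‖ ≤ K1 := hZ _ (by
        have : (1 / 2 + z : ℂ).re = 1 / 2 + z.re := by simp
        rw [this]; linarith)
      have h4 : ‖Hg c ((k : ℝ) / 2) z‖ ≤ Real.exp (|Real.log c| * Y) *
          Real.exp (2 * ((k : ℝ) + 2) ^ (3 / 2 : ℝ) * Y) := by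
        unfold Hg
        rw [norm_mul]
        apply mul_le_mul _ _ (norm_nonneg _) (Real.exp_pos _).le
        · rw [Complex.norm_cpow_eq_rpow_re_of_pos hc, Real.rpow_def_of_pos hc]
          apply Real.exp_le_exp.2
          have h5 : Real.log c * z.re ≤ |Real.log c| * z.re := by
            gcongr
            exact le_abs_self _
          have h6 : z.re ≤ Y := by
            have := Complex.abs_re_le_norm z
            have := le_abs_self z.re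
            linarith
          have h7 : |Real.log c| * z.re ≤ |Real.log c| * Y := by gcongr
          linarith
        · have h5 : (z + ((k / 2 : ℝ) : ℂ)).re = z.re + k / 2 := by simp
          have hk0 : (0 : ℝ) ≤ k := Nat.cast_nonneg k
          have h6 := Pool.Agent.H986R2.DBN.Stir2Aux.norm_Gamma_le (s := z + ((k / 2 : ℝ) : ℂ)) (by rw [h5]; linarith)
          rw [h5] at h6
          refine h6.trans ((gamma_le (by linarith)).trans (Real.exp_le_exp.2 ?_))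
          have h7 : (z.re + k / 2 + 1) ^ (3 / 2 : ℝ) ≤ (((k : ℝ) + 2) * (1 + ‖z‖)) ^ (3 / 2 : ℝ) := by
            apply Real.rpow_le_rpow (by linarith) _ (by norm_num)
            have := Complex.abs_re_le_norm z
            have := le_abs_self z.re
            nlinarith [norm_nonneg z]
          rw [Real.mul_rpow (by positivity) (by linarith)] at h7
          rw [hY]
          linarith
      calc ‖u0‖ * ‖Hg c ((k : ℝ) / 2) z‖ * ‖Z (1 / 2 + z)‖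
          ≤ Real.exp (‖u0‖ * Y) * (Real.exp (|Real.log c| * Y) *
              Real.exp (2 * ((k : ℝ) + 2) ^ (3 / 2 : ℝ) * Y)) * Real.exp (K1 * Y) := by
            have h5 : ‖u0‖ ≤ Real.exp (‖u0‖ * Y) := by
              have h6 := Real.add_one_le_exp (‖u0‖ * Y)
              have h7 : ‖u0‖ ≤ ‖u0‖ * Y := by nlinarith [norm_nonneg u0]
              linarith
            have h6 : K1 ≤ Real.exp (K1 * Y) := by
              have h6 := Real.add_one_le_exp (K1 * Y)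
              have h7 : K1 ≤ K1 * Y := by nlinarith
              linarith
            gcongr
            exact h3.trans h6
        _ = Real.exp ((‖u0‖ + |Real.log c| + 2 * ((k : ℝ) + 2) ^ (3 / 2 : ℝ) + K1) * Y) := by
            rw [← Real.exp_add, ← Real.exp_add, ← Real.exp_add]
            congr 1
            ring
        _ ≤ _ := by
            apply Real.exp_le_exp.2
            apply mul_le_mul_of_nonneg_right _ (by linarith)
            rw [hDd]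
            linarith [abs_nonneg M]
  intro z
  rcases le_or_gt 0 z.re with h | h
  · exact hpos z h
  · have h1 := hpos (-(conj z)) (by simp; linarith)
    rw [hD.symm, Complex.norm_conj, norm_neg, Complex.norm_conj] at h1
    exact h1

end slow

/-- **The structure `CG`.** -/
theorem cg_of {k N : ℕ} {ps lam : ℕ → ℂ} {c : ℝ} {u0 : ℂ} {X Z : ℂ → ℂ} (hf : Frm k N ps lam) (hL : IsL lam Z)
    (hD : LData k c u0 X Z) : CG 1 (fun w => u0 * Hg c ((k : ℝ) / 2) w) X Z := by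
  have hk : (1 : ℝ) ≤ k := by exact_mod_cast hf.k_pos
  have hA : (0 : ℝ) < (k : ℝ) / 2 := by positivity
  have hst := stir_u hD.c_pos hA hD.u_ne
  have hgam := gam_of (H := fun w => u0 * Hg c ((k : ℝ) / 2) w) hst
  have hrgt := rgt_of hf hL
  have heq : ∀ w : ℂ, 0 < w.im → X w = (fun w => u0 * Hg c ((k : ℝ) / 2) w) w * Z (1 / 2 + w) :=
    fun w hw => hD.eq w (Or.inl hw)
  refine ⟨⟨one_pos, hD.diff, hD.symm, heq, hL.diff, hgam, gro_of hgam hD.symm heq hD.gro, hrgt⟩, ?_, ?_⟩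
  · obtain ⟨K, T0, hK, hT0, H1⟩ := hst
    refine ⟨K, T0, hK, hT0, ?_⟩
    intro t ht
    obtain ⟨h1, h2⟩ := H1 t ht
    refine ⟨h1, fun u hu => ?_⟩
    obtain ⟨h3, h4, h5⟩ := h2 u hu
    exact ⟨h3, h4, by rw [one_mul]; exact h5⟩
  · apply slow_X hD
    obtain ⟨c1, K1, -, hK1, h⟩ := hrgt 1 one_pos
    exact ⟨K1, hK1, fun s hs => (h s (by linarith)).2.1⟩

end Pool.Agent.Y671.GL
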