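import Pool.Agent.Y671.GL.Low
import Pool.Agent.Y423.GL.TotD
import Pool.Agent.Y67.GL.TOTH
import Pool.Agent.W605.SD.FinA

set_option autoImplicit false

/-!
# Project GD2: counting the exceptional zeros
-/

namespace Pool.Agent.Y671.GL

open Complex Filter Topology Set
open scoped ComplexConjugate
open Pool.Agent.W169.HF (heat Slow)
open Pool.Agent.Y671.LD (bad badH order_const_mul iter_diff)

/-- sum of the orders of `g` at the points of `A` -/
noncomputable def nu (g : ℂ → ℂ) (A : Set ℂ) : ℕ := ∑ᶠ s ∈ A, analyticOrderNatAt g s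

lemma nu_eq {g : ℂ → ℂ} {A : Set ℂ} (hA : A.Finite) :
    (nu g A : ℝ) = ∑ s ∈ hA.toFinset, (analyticOrderNatAt g s : ℝ) := by
  unfold nu
  rw [finsum_mem_eq_finite_toFinset_sum _ hA]
  push_cast
  rfl

lemma nu_mono {g : ℂ → ℂ} {A B : Set ℂ} (hB : B.Finite) (h : A ⊆ B) : (nu g A : ℝ) ≤ nu g B := by
  rw [nu_eq hB, nu_eq (hB.subset h)]
  apply Finset.sum_le_sum_of_subset_of_nonneg
  · intro s hs
    rw [Set.Finite.mem_toFinset] at hs ⊢
    exact h hs
  · intro _ _ _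
    exact Nat.cast_nonneg _

lemma nu_le {g : ℂ → ℂ} {A : Set ℂ} (hA : A.Finite) {M : ℝ}
    (h : ∀ S : Finset ℂ, (∀ s ∈ S, s ∈ A) → ∑ s ∈ S, (analyticOrderNatAt g s : ℝ) ≤ M) : (nu g A : ℝ) ≤ M := by
  rw [nu_eq hA]
  exact h _ fun s hs => (Set.Finite.mem_toFinset hA).1 hs

lemma le_nu {g : ℂ → ℂ} {A : Set ℂ} (hA : A.Finite) (S : Finset ℂ) (h : ∀ s ∈ S, s ∈ A) :
    ∑ s ∈ S, (analyticOrderNatAt g s : ℝ) ≤ nu g A := by
  rw [nu_eq hA]
  apply Finset.sum_le_sum_of_subset_of_nonneg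
  · intro s hs
    rw [Set.Finite.mem_toFinset]
    exact h s hs
  · intro _ _ _
    exact Nat.cast_nonneg _

/-- shift of the variable -/
lemma order_shift {g : ℂ → ℂ} (hg : Differentiable ℂ g) {u : ℂ} (hu : u ≠ 0) (a z : ℂ) :
    analyticOrderNatAt (fun z => u * g (a + z)) z = analyticOrderNatAt g (a + z) := by
  have h1 : Differentiable ℂ (fun z => g (a + z)) := hg.comp (by fun_prop)
  rw [order_const_mul hu z (h1.analyticAt z)]
  have h2 : (fun z => g (a + z)) = g ∘ (fun z => a + z) := rfl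
  have h3 : analyticOrderAt (g ∘ (fun z => a + z)) z = analyticOrderAt g (a + z) := by
    apply analyticOrderAt_comp_of_deriv_ne_zero
    · fun_prop
    · have : HasDerivAt (fun z : ℂ => a + z) 1 z := (hasDerivAt_id z).const_add a
      rw [this.deriv]
      exact one_ne_zero
  unfold analyticOrderNatAt
  rw [h2, h3]

lemma nu_shift {g : ℂ → ℂ} (hg : Differentiable ℂ g) {u : ℂ} (hu : u ≠ 0) (a : ℂ) {A : Set ℂ} (hA : A.Finite) :
    nu (fun z => u * g (a + z)) A = nu g ((fun z => a + z) '' A) := by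
  have h1 : (nu (fun z => u * g (a + z)) A : ℝ) = nu g ((fun z => a + z) '' A) := by
    classical
    rw [nu_eq hA, nu_eq (hA.image _)]
    have h2 : (hA.image (fun z => a + z)).toFinset = hA.toFinset.image (fun z => a + z) := by
      ext z
      simp
    rw [h2, Finset.sum_image (fun x _ y _ hxy => add_left_cancel hxy)]
    exact Finset.sum_congr rfl fun s _ => by rw [order_shift hg hu]
  exact_mod_cast h1

/-! ## Derivatives -/

/-- zeros of the `n`-th derivative -/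
def ZD (Λ : ℂ → ℂ) (n : ℕ) (T : ℝ) : Set ℂ := {s | iteratedDeriv n Λ s = 0 ∧ 0 < s.im ∧ s.im ≤ T}

/-- those off the line `Re s = a` or multiple -/
def ED (Λ : ℂ → ℂ) (a : ℝ) (n : ℕ) (T : ℝ) : Set ℂ :=
  {s | s ∈ ZD Λ n T ∧ (s.re ≠ a ∨ iteratedDeriv (n + 1) Λ s = 0)}

section der

variable {κ : ℝ} {H X Z : ℂ → ℂ}

/-- the derivatives do not vanish outside of the strip -/
theorem stripD (hκ : 1 / 2 ≤ κ) (hC : CG κ H X Z) (hA : AppX X) :
    (∀ n, ∃ p, iteratedDeriv n X p ≠ 0) ∧ ∀ (n : ℕ) (z : ℂ), iteratedDeriv n X z = 0 → |z.re| ≤ 1 / 2 := by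
  have hκ0 : 0 < κ := by linarith
  have hb : 0 < 2 * κ := by positivity
  have hbc : ((2 * κ : ℝ) : ℂ) ≠ 0 := by exact_mod_cast hb.ne'
  have hXd := hC.cf.diff
  obtain ⟨F, hF⟩ : ∃ F : ℂ → ℂ, F = fun z => X (z / (2 * κ : ℝ)) := ⟨_, rfl⟩
  have hFd : Differentiable ℂ F := by rw [hF]; exact hXd.comp (by fun_prop)
  obtain ⟨h1, h2, h3, h4, h5, h6, h7⟩ := Pool.Agent.Y412.GL.HSZ.hsz κ H X Z hκ hC F _
    (by rw [hF]; push_cast; rfl) rfl
  obtain ⟨K1, T1, hT1, h6'⟩ := h6 (10 * κ)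
  have hne := iter_ne hFd (10 * κ) K1 T1 (fun t ht => h6' t ((10 * κ : ℝ) : ℂ) ht
    (by rw [Complex.norm_real, Real.norm_eq_abs, abs_of_pos (by positivity)])
    (by rw [Complex.ofReal_re]))
  have hne' : ∀ n, ∃ p, iteratedDeriv n X p ≠ 0 := by
    intro n
    obtain ⟨p, hp⟩ := hne n
    refine ⟨((1 / (2 * κ) : ℝ) : ℂ) * p, fun h0 => hp ?_⟩
    have e2 : F = fun z => X (((1 / (2 * κ) : ℝ) : ℂ) * z) := by
      rw [hF]
      funext z
      congr 1
      push_cast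
      ring
    rw [e2, Pool.Agent.Y671.LD.iter_scale hXd, h0, mul_zero]
  exact ⟨hne', strip_of_app' hXd hA hne'⟩

theorem ZD_fin (hκ : 1 / 2 ≤ κ) (hC : CG κ H X Z) (hA : AppX X) (n : ℕ) (T : ℝ) : (ZD X n T).Finite := by
  obtain ⟨hne, hst⟩ := stripD hκ hC hA
  have hne1 : iteratedDeriv n X 1 ≠ 0 := by
    intro h0
    have := hst n 1 h0
    norm_num at this
  have hK : IsCompact (Icc (-(1 / 2 : ℝ)) (1 / 2) ×ℂ Icc (0 : ℝ) T) := isCompact_Icc.reProdIm isCompact_Icc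
  refine (Pool.Agent.W605.SD.fin_zeros (iter_diff hC.cf.diff n) hne1 hK).subset ?_
  rintro s ⟨h1, h2, h3⟩
  refine ⟨?_, h1⟩
  rw [mem_reProdIm]
  have := abs_le.1 (hst n _ h1)
  exact ⟨⟨this.1, this.2⟩, h2.le, h3⟩

/-- **Counting, derivatives.** -/
theorem countD (hκ : 1 / 2 ≤ κ) (hκ2 : κ ≤ 10 ^ 40) (hG : GG κ H X Z) (hA : AppX X) (hL : LowX X) :
    ∃ c C : ℝ, 0 < c ∧ 0 < C ∧
      (∀ (n : ℕ) (T : ℝ), (nu (iteratedDeriv n X) (ED X 0 n T) : ℝ) ≤
        C * Real.exp (-(c * n)) * nu (iteratedDeriv n X) (ZD X n T)) ∧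
      (∀ (n : ℕ) (T : ℝ), 2 ≤ T → (nu (iteratedDeriv n X) (ED X 0 n T) : ℝ) ≤
        C * Real.exp (-(c * n)) * T * Real.log T) := by
  have hfinZ := ZD_fin hκ hG.cg hA
  have hsub : ∀ n T, ED X 0 n T ⊆ ZD X n T := fun n T s h => h.1
  obtain ⟨c, C, hc, hC, hfin⟩ := ddx_all κ H X Z hκ hκ2 hG hA hL
  obtain ⟨K, hK, N1, hlow⟩ := hL
  have hK1 : 1 ≤ K + 1 := by linarith
  obtain ⟨c2, T0, hc2, hT0, htot⟩ := Pool.Agent.Y423.GL.totd κ H X Z hκ hG.cg hA (K + 1) hK1
  obtain ⟨N2, hN2⟩ : ∃ N2 : ℕ, ∀ n : ℕ, N2 ≤ n → T0 ≤ Real.exp (n / K) := by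
    have h1 : Tendsto (fun n : ℕ => Real.exp ((n : ℝ) / K)) atTop atTop :=
      Real.tendsto_exp_atTop.comp (tendsto_natCast_atTop_atTop.atTop_div_const hK)
    obtain ⟨N', h⟩ := (h1.eventually_ge_atTop T0).exists_forall_of_atTop
    exact ⟨N', h⟩
  have hexc : ∀ (n : ℕ) (T : ℝ), 2 ≤ T → (nu (iteratedDeriv n X) (ED X 0 n T) : ℝ) ≤
      C * T * Real.log T * Real.exp (-(c * n)) := by
    intro n T hT
    refine nu_le ((hfinZ n T).subset (hsub n T)) fun S hS => hfin n T hT S fun s hs => ?_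
    obtain ⟨⟨h1, h2, h3⟩, h4⟩ := hS s hs
    exact ⟨⟨h1, h4⟩, h2, h3⟩
  refine ⟨c, C + C / c2 + Real.exp (c * (max N1 N2 : ℕ)), hc, by positivity, ?_, ?_⟩
  · intro n T
    have hE := Real.exp_pos (-(c * n))
    have hZ0 : (0 : ℝ) ≤ nu (iteratedDeriv n X) (ZD X n T) := Nat.cast_nonneg _
    rcases lt_or_ge n (max N1 N2) with hn | hn
    · have h4 : 1 ≤ Real.exp (c * (max N1 N2 : ℕ)) * Real.exp (-(c * n)) := by
        rw [← Real.exp_add]
        apply Real.one_le_exp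
        have : (n : ℝ) ≤ (max N1 N2 : ℕ) := by exact_mod_cast hn.le
        nlinarith
      calc (nu (iteratedDeriv n X) (ED X 0 n T) : ℝ) ≤ nu (iteratedDeriv n X) (ZD X n T) :=
            nu_mono (hfinZ n T) (hsub n T)
        _ = 1 * nu (iteratedDeriv n X) (ZD X n T) := by ring
        _ ≤ (Real.exp (c * (max N1 N2 : ℕ)) * Real.exp (-(c * n))) * nu (iteratedDeriv n X) (ZD X n T) := by
          gcongr
        _ ≤ _ := by
          have : 0 ≤ (C + C / c2) * Real.exp (-(c * n)) * nu (iteratedDeriv n X) (ZD X n T) := by positivity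
          linarith
    · rcases le_or_gt T (Real.exp (n / K)) with hT | hT
      · have h5 : ED X 0 n T = ∅ := by
          rw [Set.eq_empty_iff_forall_notMem]
          rintro s ⟨⟨h6, h7, h8⟩, h9⟩
          refine hlow n ((le_max_left _ _).trans hn) s ?_ ⟨h6, h9⟩
          rw [abs_of_pos h7]
          exact h8.trans hT
        rw [h5]
        have h6 : (nu (iteratedDeriv n X) ∅ : ℝ) = 0 := by
          unfold nu
          simp
        rw [h6]
        positivity
      · have h5 := hN2 n ((le_max_right _ _).trans hn)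
        have hT1 : T0 ≤ T := by linarith
        have hT3 : 2 ≤ T := by linarith
        have hl : (n : ℝ) / K < Real.log T := by
          rw [Real.lt_log_iff_exp_lt (by linarith)]
          exact hT
        have hl0 : 0 < Real.log T := Real.log_pos (by linarith)
        have h6 : (n : ℝ) ≤ (K + 1) * Real.log T := by
          rw [div_lt_iff₀ hK] at hl
          nlinarith
        obtain ⟨S, hS, h7⟩ := htot n T hT1 h6
        have h7' : c2 * T * Real.log T ≤ nu (iteratedDeriv n X) (ZD X n T) :=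
          h7.trans (le_nu (hfinZ n T) S hS)
        have h8 := hexc n T hT3
        have h9 : C * T * Real.log T * Real.exp (-(c * n)) ≤
            C / c2 * Real.exp (-(c * n)) * nu (iteratedDeriv n X) (ZD X n T) := by
          calc C * T * Real.log T * Real.exp (-(c * n)) =
              C / c2 * Real.exp (-(c * n)) * (c2 * T * Real.log T) := by field_simp
            _ ≤ _ := by gcongr
        have h10 : 0 ≤ (C + Real.exp (c * (max N1 N2 : ℕ))) * Real.exp (-(c * n)) *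
            nu (iteratedDeriv n X) (ZD X n T) := by
          positivity
        linarith
  · intro n T hT
    have hE := Real.exp_pos (-(c * n))
    have hl0 : 0 < Real.log T := Real.log_pos (by linarith)
    have h8 := hexc n T hT
    have h9 : 0 ≤ (C / c2 + Real.exp (c * (max N1 N2 : ℕ))) * Real.exp (-(c * n)) * T * Real.log T := by
      positivity
    linarith

end der

/-! ## Heat flow -/

/-- zeros of the heat flow in a dyadic window -/
def ZH (Λ : ℂ → ℂ) (t T : ℝ) : Set ℂ := {s | heat t Λ s = 0 ∧ T < s.im ∧ s.im ≤ 2 * T}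

/-- those off the line `Re s = a` or multiple -/
def EH (Λ : ℂ → ℂ) (a t T : ℝ) : Set ℂ := {s | s ∈ ZH Λ t T ∧ (s.re ≠ a ∨ deriv (heat t Λ) s = 0)}

section flow

variable {κ : ℝ} {H X Z : ℂ → ℂ}

theorem hht_of (hκ : 1 / 2 ≤ κ) (hC : CG κ H X Z) (hA : AppX X) (hst : ∀ s : ℂ, X s = 0 → |s.re| ≤ 1 / 2) :
    (∀ τ : ℝ, 0 ≤ τ → Differentiable ℂ (heat τ X)) ∧
    (∀ (τ : ℝ) (s : ℂ), 0 ≤ τ → heat τ X s = 0 → |s.re| ≤ 1 / 2) := by
  obtain ⟨K, hK, hs⟩ := hC.slow
  obtain ⟨hne, -⟩ := stripD hκ hC hA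
  obtain ⟨p, hp⟩ := hne 0
  obtain ⟨-, h2, -, h4, -⟩ := Pool.Agent.Y275.GL.hht X (slow_of hC.cf.diff hK hs) hC.cf.symm
    ⟨p, by simpa using hp⟩ hst
  exact ⟨h2, h4⟩

theorem ZH_fin (hκ : 1 / 2 ≤ κ) (hC : CG κ H X Z) (hA : AppX X) (hst : ∀ s : ℂ, X s = 0 → |s.re| ≤ 1 / 2)
    {t : ℝ} (ht : 0 ≤ t) (T : ℝ) : (ZH X t T).Finite := by
  obtain ⟨hd, hs⟩ := hht_of hκ hC hA hst
  have hne1 : heat t X 1 ≠ 0 := by
    intro h0
    have := hs t 1 ht h0
    norm_num at this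
  have hK : IsCompact (Icc (-(1 / 2 : ℝ)) (1 / 2) ×ℂ Icc T (2 * T)) := isCompact_Icc.reProdIm isCompact_Icc
  refine (Pool.Agent.W605.SD.fin_zeros (hd t ht) hne1 hK).subset ?_
  rintro s ⟨h1, h2, h3⟩
  refine ⟨?_, h1⟩
  rw [mem_reProdIm]
  have := abs_le.1 (hs t _ ht h1)
  exact ⟨⟨this.1, this.2⟩, h2.le, h3⟩

/-- **Counting, heat flow.** -/
theorem countH (hκ : 1 / 2 ≤ κ) (hκ5 : κ ≤ 5) (hG : GG κ H X Z) (hA : AppX X)
    (hst : ∀ s : ℂ, X s = 0 → |s.re| ≤ 1 / 2) (hH : HugeX X) :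
    ∃ c C : ℝ, 0 < c ∧ 0 < C ∧ ∀ t T : ℝ, 0 < t → t ≤ 1 / 8 → 2 ≤ T →
      (nu (heat t X) (EH X 0 t T) : ℝ) ≤ C * Real.exp (-(c * t * Real.log T ^ 2)) * nu (heat t X) (ZH X t T) ∧
      (nu (heat t X) (EH X 0 t T) : ℝ) ≤ C * Real.exp (-(c * t * Real.log T ^ 2)) * T * Real.log T := by
  have hfinZ := fun (t : ℝ) (ht : 0 ≤ t) (T : ℝ) => ZH_fin hκ hG.cg hA hst ht T
  have hsub : ∀ t T, EH X 0 t T ⊆ ZH X t T := fun t T s h => h.1
  obtain ⟨c, C, hc, hC, hfin⟩ := hdx_all κ H X Z hκ hκ5 hG hst hH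
  obtain ⟨X0, T1, hX0, hT1, hhuge⟩ := hH
  obtain ⟨c2, T0, hc2, hT0, htot⟩ := Pool.Agent.Y67.GL.toth κ H X Z hκ hG.cg hst X0 hX0
  obtain ⟨T2, hT2⟩ : ∃ T2 : ℝ, T2 = max T0 T1 := ⟨_, rfl⟩
  have hexc : ∀ t T : ℝ, 0 < t → t ≤ 1 / 8 → 2 ≤ T →
      (nu (heat t X) (EH X 0 t T) : ℝ) ≤ C * T * Real.log T * Real.exp (-(c * t * Real.log T ^ 2)) := by
    intro t T ht ht' hT
    refine nu_le ((hfinZ t ht.le T).subset (hsub t T)) fun S hS => hfin T t hT ht ht' S fun s hs => ?_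
    obtain ⟨⟨h1, h2, h3⟩, h4⟩ := hS s hs
    exact ⟨⟨h1, h4⟩, h2, h3⟩
  refine ⟨c, C + C / c2 + Real.exp (c * Real.log T2 ^ 2), hc, by positivity, ?_⟩
  intro t T ht ht' hT
  have hE := Real.exp_pos (-(c * t * Real.log T ^ 2))
  have hl0 : 0 < Real.log T := Real.log_pos (by linarith)
  have hZ0 : (0 : ℝ) ≤ nu (heat t X) (ZH X t T) := Nat.cast_nonneg _
  have hT00 : 0 < T := by linarith
  refine ⟨?_, ?_⟩
  · rcases lt_or_ge T T2 with hT3 | hT3
    · have h4 : 1 ≤ Real.exp (c * Real.log T2 ^ 2) * Real.exp (-(c * t * Real.log T ^ 2)) := by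
        rw [← Real.exp_add]
        apply Real.one_le_exp
        have h5 : Real.log T ≤ Real.log T2 := Real.log_le_log hT00 hT3.le
        have h6 : Real.log T ^ 2 ≤ Real.log T2 ^ 2 := by
          apply pow_le_pow_left₀ hl0.le h5
        have h7 : t * Real.log T ^ 2 ≤ 1 * Real.log T2 ^ 2 := by
          apply mul_le_mul (by linarith) h6 (by positivity) (by norm_num)
        nlinarith
      calc (nu (heat t X) (EH X 0 t T) : ℝ) ≤ nu (heat t X) (ZH X t T) := nu_mono (hfinZ t ht.le T) (hsub t T)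
        _ = 1 * nu (heat t X) (ZH X t T) := by ring
        _ ≤ (Real.exp (c * Real.log T2 ^ 2) * Real.exp (-(c * t * Real.log T ^ 2))) *
            nu (heat t X) (ZH X t T) := by gcongr
        _ ≤ _ := by
          have : 0 ≤ (C + C / c2) * Real.exp (-(c * t * Real.log T ^ 2)) * nu (heat t X) (ZH X t T) := by positivity
          linarith
    · have hT4 : T0 ≤ T := by rw [hT2] at hT3; exact (le_max_left _ _).trans hT3
      have hT5 : T1 ≤ T := by rw [hT2] at hT3; exact (le_max_right _ _).trans hT3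
      rcases le_or_gt (t * Real.log T) X0 with hX | hX
      · obtain ⟨S, hS, h7⟩ := htot T t hT4 ht.le ht' hX
        have h7' : c2 * T * Real.log T ≤ nu (heat t X) (ZH X t T) :=
          h7.trans (le_nu (hfinZ t ht.le T) S hS)
        have h8 := hexc t T ht ht' hT
        have h9 : C * T * Real.log T * Real.exp (-(c * t * Real.log T ^ 2)) ≤
            C / c2 * Real.exp (-(c * t * Real.log T ^ 2)) * nu (heat t X) (ZH X t T) := by
          calc C * T * Real.log T * Real.exp (-(c * t * Real.log T ^ 2)) =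
              C / c2 * Real.exp (-(c * t * Real.log T ^ 2)) * (c2 * T * Real.log T) := by
                field_simp
            _ ≤ _ := by gcongr
        have h10 : 0 ≤ (C + Real.exp (c * Real.log T2 ^ 2)) * Real.exp (-(c * t * Real.log T ^ 2)) *
            nu (heat t X) (ZH X t T) := by
          positivity
        linarith
      · have h5 : EH X 0 t T = ∅ := by
          rw [Set.eq_empty_iff_forall_notMem]
          rintro s ⟨⟨h6, h7, h8⟩, h9⟩
          refine hhuge s.im t s (by linarith) ht ht' ?_ rfl ⟨h6, h9⟩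
          have h10 : Real.log T ≤ Real.log s.im := Real.log_le_log hT00 h7.le
          have h11 : t * Real.log T ≤ t * Real.log s.im := by gcongr
          linarith
        rw [h5]
        have h6 : (nu (heat t X) ∅ : ℝ) = 0 := by
          unfold nu
          simp
        rw [h6]
        positivity
  · have h8 := hexc t T ht ht' hT
    have h9 : 0 ≤ (C / c2 + Real.exp (c * Real.log T2 ^ 2)) *
        Real.exp (-(c * t * Real.log T ^ 2)) * T * Real.log T := by
      positivity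
    linarith

end flow

end Pool.Agent.Y671.GL
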