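import Pool.Agent.Y671.GL.Ne
import Pool.Agent.W347.SD.SB2
import Pool.Agent.W368.SD.SB3
import Pool.Agent.W571.SD.SB1
import Pool.Agent.W32.SD.SCount

set_option autoImplicit false

/-!
# Project GD2: zeros of the derivatives of completed L-functions (`S_DDX`)
-/

namespace Pool.Agent.Y671.GL

open Complex Filter Topology MeasureTheory Set Polynomial
open scoped ComplexConjugate
open Pool.Agent.H24R2.JP (Om)
open Pool.Agent.H24R2.DZ (ra NN)
open Pool.Agent.Y671.LD

lemma vol_scale {b : ℝ} (hb : 0 < b) {A B : Set ℝ} (h : ∀ t ∈ A, t / b ∈ B) :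
    volume A ≤ ENNReal.ofReal b * volume B := by
  have h1 : A ⊆ (fun x => b⁻¹ * x) ⁻¹' B := by
    intro t ht
    have := h t ht
    rw [div_eq_inv_mul] at this
    exact this
  refine (measure_mono h1).trans ?_
  have h2 := Real.volume_preimage_mul_left (a := b⁻¹) (by positivity) B
  rw [h2, inv_inv, abs_of_pos hb]

lemma logDeriv_scale {X : ℂ → ℂ} (hX : Differentiable ℂ X) (b : ℂ) (z : ℂ) :
    logDeriv (fun z => X (z / b)) z = logDeriv X (z / b) / b := by
  have h1 : (fun z => X (z / b)) = X ∘ (fun z => z / b) := rfl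
  rw [h1, logDeriv_comp (hX _) (by fun_prop)]
  have h2 : deriv (fun z : ℂ => z / b) z = 1 / b := by
    have : HasDerivAt (fun z : ℂ => z / b) (1 / b) z := (hasDerivAt_id z).div_const b
    exact this.deriv
  rw [h2]
  ring

section

variable {κ : ℝ} {X : ℂ → ℂ}

lemma app_scale {B b : ℝ} (hb : 0 < b) (hBb : b / 2 = B)
    (h : AppX X) : App B (fun z => X (z / b)) := by
  obtain ⟨Q, hQ1, hQ2⟩ := h
  refine ⟨fun N => (Q N).comp (C ((1 / b : ℝ) : ℂ) * Polynomial.X), ?_, ?_⟩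
  · intro N z hz
    have h1 : (Q N).IsRoot (((1 / b : ℝ) : ℂ) * z) := by
      rw [IsRoot] at hz ⊢
      simpa [eval_comp] using hz
    have h2 := hQ1 N _ h1
    rw [Complex.re_ofReal_mul, abs_mul, abs_of_pos (by positivity : (0 : ℝ) < 1 / b)] at h2
    rw [← hBb]
    have h3 : |z.re| = b * (1 / b * |z.re|) := by field_simp
    rw [h3]
    nlinarith
  · have h1 : Continuous (fun z : ℂ => z / (b : ℂ)) := by fun_prop
    have h2 := hQ2.comp (fun z : ℂ => z / (b : ℂ)) h1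
    have h3 : (fun (N : ℕ) (z : ℂ) => ((Q N).comp (C ((1 / b : ℝ) : ℂ) * Polynomial.X)).eval z) =
        fun N => (fun z => (Q N).eval z) ∘ (fun z : ℂ => z / (b : ℂ)) := by
      funext N z
      simp only [eval_comp, eval_mul, eval_C, eval_X, Function.comp_apply]
      congr 1
      push_cast
      ring
    rw [h3]
    exact h2

lemma symm_scale {b : ℝ} (h : ∀ z : ℂ, X (-(conj z)) = conj (X z)) (z : ℂ) :
    X (-(conj z) / b) = conj (X (z / b)) := by
  rw [← h]
  congr 1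
  rw [map_div₀, Complex.conj_ofReal]
  ring

/-- most points are good at all scales -/
lemma good_scale (hκ : 1 / 2 ≤ κ) (hκ2 : κ ≤ 10 ^ 40) (h : GoodX κ X) :
    ∀ η : ℝ, 0 < η → ∃ c C a0 T0 : ℝ, 0 < c ∧ 0 < C ∧ 1 ≤ a0 ∧ 2 ≤ T0 ∧ ∀ T a : ℝ, T0 ≤ T → a0 ≤ a →
    a ≤ Real.log T / 200 → volume {t0 : ℝ | T / 2 ≤ t0 ∧ t0 ≤ 3 * T ∧
      ¬ NN a η (fun z => (fun z => X (z / (2 * κ : ℝ))) (I * t0 + ra T a * z))} ≤
        ENNReal.ofReal (C * T * Real.exp (-(c * a))) := by
  intro η hη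
  have hκ0 : 0 < κ := by linarith
  obtain ⟨c, C, a0, T0, hc, hC, ha0, hT0, H⟩ := h η hη
  have hb1 : 1 ≤ 2 * κ := by linarith
  have hlog0 : 0 ≤ Real.log (2 * κ) := Real.log_nonneg hb1
  have hlog : Real.log (2 * κ) ≤ 100 := by
    have h1 : Real.log (2 * κ) ≤ Real.log (2 * 10 ^ 40) :=
      Real.log_le_log (by positivity) (by linarith)
    have h2 : Real.log (2 * 10 ^ 40) = Real.log 2 + 40 * Real.log 10 := by
      rw [Real.log_mul (by norm_num) (by norm_num), Real.log_pow]; push_cast; ring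
    have h3 : Real.log 10 ≤ 2.31 := by
      rw [Real.log_le_iff_le_exp (by norm_num)]
      have h4 : Real.exp (2.31 : ℝ) = Real.exp 1 * Real.exp 1 * Real.exp 0.31 := by
        rw [← Real.exp_add, ← Real.exp_add]; norm_num
      have h5 := Real.exp_one_gt_d9
      have h6 : (1.358 : ℝ) ≤ Real.exp 0.31 := by
        have := Real.quadratic_le_exp_of_nonneg (x := 0.31) (by norm_num)
        norm_num at this ⊢
        linarith
      rw [h4]
      have h7 : (7.389 : ℝ) ≤ Real.exp 1 * Real.exp 1 := by nlinarith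
      have h8 : (7.389 : ℝ) * 1.358 ≤ Real.exp 1 * Real.exp 1 * Real.exp 0.31 :=
        mul_le_mul h7 h6 (by norm_num) (by positivity)
      linarith
    have h4 := Real.log_two_lt_d9
    rw [h2] at h1
    linarith
  refine ⟨c, C, a0, 2 * κ * T0, hc, hC, ha0, by nlinarith, ?_⟩
  intro T a hT ha haT
  have hTpos : 0 < T := lt_of_lt_of_le (by positivity) hT
  have hT2 : 2 ≤ T := le_trans (by nlinarith) hT
  have hlT : 0 < Real.log T := Real.log_pos (by linarith)
  have hapos : 0 < a := by linarith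
  obtain ⟨T', hT'⟩ : ∃ T', T' = T / (2 * κ) := ⟨_, rfl⟩
  obtain ⟨r, hr⟩ : ∃ r, r = a / (κ * Real.log T) := ⟨_, rfl⟩
  have hrpos : 0 < r := by rw [hr]; positivity
  have hkr : κ * r = a / Real.log T := by rw [hr]; field_simp
  have hkr2 : κ * r ≤ 1 / 200 := by
    rw [hkr, div_le_iff₀ hlT]; linarith
  have hT'0 : T0 ≤ T' := by
    rw [hT', le_div_iff₀ (by positivity)]; linarith
  have hlogT' : Real.log T' = Real.log T - Real.log (2 * κ) := by
    rw [hT', Real.log_div hTpos.ne' (by positivity)]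
  have h1 := H T' a r hT'0 ha hrpos (by nlinarith) (by linarith) (by
    rw [hlogT', mul_sub, hkr]
    have h2 : a / Real.log T * Real.log T = a := by field_simp
    rw [h2, sub_sub_cancel_left, abs_neg, abs_of_nonneg (by positivity)]
    rw [← hkr]
    nlinarith)
  have h2 : volume {t0 : ℝ | T / 2 ≤ t0 ∧ t0 ≤ 3 * T ∧
      ¬ NN a η (fun z => (fun z => X (z / (2 * κ : ℝ))) (I * t0 + ra T a * z))} ≤
      ENNReal.ofReal (2 * κ) * volume {t0 : ℝ | T' / 2 ≤ t0 ∧ t0 ≤ 3 * T' ∧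
        ¬ NN a η (fun z => X (I * t0 + r * z))} := by
    apply vol_scale (by positivity)
    rintro t ⟨k1, k2, k3⟩
    refine ⟨?_, ?_, ?_⟩
    · rw [hT', div_right_comm]
      gcongr
    · rw [hT', mul_div_assoc']
      gcongr
    · convert k3 using 4
      rename_i z
      have hk : (κ : ℂ) ≠ 0 := by exact_mod_cast hκ0.ne'
      have hl : (Real.log T : ℂ) ≠ 0 := by exact_mod_cast hlT.ne'
      rw [hr]
      unfold ra
      push_cast
      field_simp
  refine h2.trans ((mul_le_mul_right h1 _).trans ?_)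
  rw [← ENNReal.ofReal_mul (by positivity)]
  apply ENNReal.ofReal_le_ofReal
  rw [hT']
  have : 2 * κ * (C * (T / (2 * κ)) * Real.exp (-(c * a))) = C * T * Real.exp (-(c * a)) := by
    field_simp
  rw [this]

lemma far_scale (hX : Differentiable ℂ X) (hκ : 1 / 2 ≤ κ) {R ε0 η t : ℝ} (hη : 0 < η) (hR : 0 ≤ R)
    (ht : 2 * κ ≤ t) (ht2 : 2 * Real.log (2 * κ) ≤ η * Real.log t)
    (h : FarL κ X R (ε0 / (2 * κ)) (η / 4) (t / (2 * κ))) :
    FarOK (fun z => X (z / (2 * κ : ℝ))) R ε0 η t := by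
  intro z hz1 hz2
  have hκ0 : 0 < κ := by linarith
  have hb : 0 < 2 * κ := by positivity
  have htp : 0 < t := by linarith
  have hbc : ((2 * κ : ℝ) : ℂ) ≠ 0 := by exact_mod_cast hb.ne'
  have e1 : (I * t + z) / ((2 * κ : ℝ) : ℂ) = I * ((t / (2 * κ) : ℝ) : ℂ) + z / ((2 * κ : ℝ) : ℂ) := by
    push_cast
    ring
  have h1 : ε0 / (2 * κ) ≤ (z / ((2 * κ : ℝ) : ℂ)).re := by
    rw [Complex.div_ofReal_re]
    gcongr
  have h2 : ‖z / ((2 * κ : ℝ) : ℂ)‖ ≤ R := by
    rw [norm_div, Complex.norm_real, Real.norm_eq_abs, abs_of_pos hb]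
    rw [div_le_iff₀ hb]
    nlinarith
  obtain ⟨h3, h4⟩ := h _ h1 h2
  refine ⟨by show X ((I * t + z) / ((2 * κ : ℝ) : ℂ)) ≠ 0; rw [e1]; exact h3, ?_⟩
  rw [logDeriv_scale hX, e1]
  have hlt : Real.log (t / (2 * κ)) = Real.log t - Real.log (2 * κ) := Real.log_div htp.ne' hb.ne'
  have hlog0 : 0 ≤ Real.log (2 * κ) := Real.log_nonneg (by linarith)
  have hlt0 : 0 ≤ Real.log t := Real.log_nonneg (by linarith)
  set L := logDeriv X (I * ((t / (2 * κ) : ℝ) : ℂ) + z / ((2 * κ : ℝ) : ℂ)) with hL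
  have e2 : L / ((2 * κ : ℝ) : ℂ) - ((Om t : ℝ) : ℂ) =
      (L - ((κ * Real.log (t / (2 * κ)) : ℝ) : ℂ)) / ((2 * κ : ℝ) : ℂ) - ((Real.log (2 * κ) / 2 : ℝ) : ℂ) := by
    have e3 : ((κ * Real.log (t / (2 * κ)) : ℝ) : ℂ) / ((2 * κ : ℝ) : ℂ) =
        ((Om t : ℝ) : ℂ) - ((Real.log (2 * κ) / 2 : ℝ) : ℂ) := by
      rw [hlt]
      have : Om t = Real.log t / 2 := rfl
      rw [this]
      norm_cast
      field_simp
    rw [sub_div, e3]
    ring
  rw [e2]
  refine (norm_sub_le _ _).trans ?_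
  rw [norm_div, Complex.norm_real, Complex.norm_real, Real.norm_eq_abs, Real.norm_eq_abs, abs_of_pos hb,
    abs_of_nonneg (by positivity)]
  have h5 : ‖L - ((κ * Real.log (t / (2 * κ)) : ℝ) : ℂ)‖ / (2 * κ) ≤ η / 4 * Real.log t := by
    rw [div_le_iff₀ hb]
    have h6 : η / 4 * Real.log (t / (2 * κ)) ≤ η / 4 * Real.log t := by
      rw [hlt]
      nlinarith
    have h7 : η / 4 * Real.log t ≤ η / 4 * Real.log t * (2 * κ) := by
      have : 0 ≤ η / 4 * Real.log t := by positivity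
      nlinarith
    linarith
  have h8 : Om t = Real.log t / 2 := rfl
  rw [h8]
  linarith

lemma top_scale (hX : Differentiable ℂ X) (hκ : 1 / 2 ≤ κ) (h : TopL κ X) :
    ∀ R ε0 η : ℝ, 1 ≤ R → 0 < ε0 → 0 < η → ∃ c C T0 : ℝ, 0 < c ∧ 0 < C ∧ 2 ≤ T0 ∧
    ∀ T : ℝ, T0 ≤ T → volume {t : ℝ | T / 2 ≤ t ∧ t ≤ 3 * T ∧
      ¬ FarOK (fun z => X (z / (2 * κ : ℝ))) R ε0 η t} ≤ ENNReal.ofReal (C * T ^ (1 - c)) := by
  intro R ε0 η hR hε0 hη
  have hκ0 : 0 < κ := by linarith
  have hb : 0 < 2 * κ := by positivity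
  obtain ⟨c, C, T0, hc, hC, hT0, H⟩ := h R (ε0 / (2 * κ)) (η / 4) hR (by positivity) (by positivity)
  have hlog0 : 0 ≤ Real.log (2 * κ) := Real.log_nonneg (by linarith)
  refine ⟨c, C * (2 * κ) ^ c, max (2 * κ * T0) (max (4 * κ) (2 * Real.exp (2 * Real.log (2 * κ) / η))), hc,
    by positivity, ?_, ?_⟩
  · refine le_trans ?_ (le_max_left _ _)
    nlinarith
  intro T hT
  have hT1 : 2 * κ * T0 ≤ T := (le_max_left _ _).trans hT
  have hT2 : 4 * κ ≤ T := ((le_max_left _ _).trans (le_max_right _ _)).trans hT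
  have hT3 : 2 * Real.exp (2 * Real.log (2 * κ) / η) ≤ T := ((le_max_right _ _).trans (le_max_right _ _)).trans hT
  have hTpos : 0 < T := by linarith
  obtain ⟨T', hT'⟩ : ∃ T', T' = T / (2 * κ) := ⟨_, rfl⟩
  have hT'0 : T0 ≤ T' := by
    rw [hT', le_div_iff₀ hb]; linarith
  have h2 : volume {t : ℝ | T / 2 ≤ t ∧ t ≤ 3 * T ∧
      ¬ FarOK (fun z => X (z / (2 * κ : ℝ))) R ε0 η t} ≤
      ENNReal.ofReal (2 * κ) * volume {t : ℝ | T' / 2 ≤ t ∧ t ≤ 3 * T' ∧
        ¬ FarL κ X R (ε0 / (2 * κ)) (η / 4) t} := by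
    apply vol_scale (by positivity)
    rintro t ⟨k1, k2, k3⟩
    refine ⟨?_, ?_, ?_⟩
    · rw [hT', div_right_comm]
      gcongr
    · rw [hT', mul_div_assoc']
      gcongr
    · intro hcon
      apply k3
      have ht0 : 0 < t := by linarith
      refine far_scale hX hκ hη (by linarith) (by linarith) ?_ hcon
      have h5 : Real.exp (2 * Real.log (2 * κ) / η) ≤ t := by linarith
      have h6 : 2 * Real.log (2 * κ) / η ≤ Real.log t := by
        rw [Real.le_log_iff_exp_le ht0]; exact h5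
      rw [div_le_iff₀ hη] at h6
      linarith
  refine h2.trans ((mul_le_mul_right (H T' hT'0) _).trans ?_)
  rw [← ENNReal.ofReal_mul (by positivity)]
  apply ENNReal.ofReal_le_ofReal
  rw [hT', Real.div_rpow hTpos.le hb.le]
  have h7 : (2 * κ) ^ (1 - c) = (2 * κ) / (2 * κ) ^ c := by
    rw [Real.rpow_sub hb, Real.rpow_one]
  rw [h7]
  have : 2 * κ * (C * (T ^ (1 - c) / ((2 * κ) / (2 * κ) ^ c))) = C * (2 * κ) ^ c * T ^ (1 - c) := by
    field_simp
  rw [this]

lemma bad_scale {b : ℝ} (hb : 0 < b) (hX : Differentiable ℂ X) (n : ℕ) (s : ℂ) :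
    bad (fun z => X (z / (b : ℂ))) n s ↔ bad X n (s / b) := by
  have hbc : (b : ℂ) ≠ 0 := by exact_mod_cast hb.ne'
  have h1 : ∀ m : ℕ, iteratedDeriv m (fun z => X (z / (b : ℂ))) s =
      ((1 / b : ℝ) : ℂ) ^ m * iteratedDeriv m X (s / b) := by
    intro m
    have h2 : (fun z : ℂ => X (z / (b : ℂ))) = fun z => X (((1 / b : ℝ) : ℂ) * z) := by
      funext z
      congr 1
      push_cast
      ring
    rw [h2, iter_scale hX]
    congr 2
    push_cast
    ring
  have h3 : ∀ m : ℕ, ((1 / b : ℝ) : ℂ) ^ m ≠ 0 := by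
    intro m
    apply pow_ne_zero
    push_cast
    simp [hbc]
  have h4 : (s / (b : ℂ)).re ≠ 0 ↔ s.re ≠ 0 := by
    rw [Complex.div_ofReal_re]
    simp [hb.ne']
  unfold bad
  rw [h1, h1, h4]
  simp [h3, hb.ne']

lemma order_scale {b : ℝ} (hb : 0 < b) {g : ℂ → ℂ} (hg : Differentiable ℂ g) (s : ℂ) :
    analyticOrderNatAt (fun z => g (z / (b : ℂ))) (b * s) = analyticOrderNatAt g s := by
  have hbc : (b : ℂ) ≠ 0 := by exact_mod_cast hb.ne'
  have h1 : (fun z => g (z / (b : ℂ))) = g ∘ (fun z => z / (b : ℂ)) := rfl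
  have h2 : analyticOrderAt (g ∘ (fun z => z / (b : ℂ))) (b * s) = analyticOrderAt g ((b * s) / b) := by
    apply analyticOrderAt_comp_of_deriv_ne_zero
    · fun_prop
    · have : HasDerivAt (fun z : ℂ => z / (b : ℂ)) (1 / b) (b * s) := (hasDerivAt_id _).div_const (b : ℂ)
      rw [this.deriv]
      simp [hbc]
  unfold analyticOrderNatAt
  rw [h1, h2]
  congr 2
  field_simp

end

theorem ddx (hsz : S_HSZ) : S_DDX := by
  intro κ H X Z hκ hκ2 hG hA hL
  have hκ0 : 0 < κ := by linarith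
  have hb : 0 < 2 * κ := by positivity
  have hbc : ((2 * κ : ℝ) : ℂ) ≠ 0 := by exact_mod_cast hb.ne'
  have hC := hG.cg.cf
  have hXd := hC.diff
  set F : ℂ → ℂ := fun z => X (z / (2 * κ : ℝ)) with hF
  have hFd : Differentiable ℂ F := hXd.comp (by fun_prop)
  obtain ⟨h1, h2, h3, h4, h5, h6, h7⟩ := hsz κ H X Z hκ hG.cg F _ (by rw [hF]; push_cast; rfl) rfl
  obtain ⟨K0, hK0, N0, hlow⟩ := hL
  have happ : App κ F := app_scale hb (by ring) hA
  obtain ⟨K1, T1, hT1, h6'⟩ := h6 (10 * κ)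
  have hne := iter_ne hFd (10 * κ) K1 T1 (fun t ht => h6' t ((10 * κ : ℝ) : ℂ) ht
    (by rw [Complex.norm_real, Real.norm_eq_abs, abs_of_pos (by positivity)])
    (by rw [Complex.ofReal_re]))
  have hst : Strip F κ := strip_of_app' hFd happ hne
  have hDD : DD κ (max 25 K0) F := by
    refine ⟨hκ, le_max_left _ _, hFd, ?_, happ, ⟨_, h1, h7⟩, ?_, ?_, good_scale hκ hκ2 hG.good,
      top_scale hXd hκ hG.top⟩
    · intro z
      exact symm_scale hC.symm z
    · intro n hn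
      have h8 := hst n _ hn
      have h9 : ((10 * κ : ℂ)).re = 10 * κ := by
        simp
      rw [h9, abs_of_pos (by positivity)] at h8
      linarith
    · refine ⟨N0, ?_⟩
      intro n hn s hs hbad
      rw [hF, bad_scale hb hXd] at hbad
      refine hlow n hn _ ?_ hbad
      rw [Complex.div_ofReal_im, abs_div, abs_of_pos hb]
      have h8 : |s.im| / (2 * κ) ≤ |s.im| := div_le_self (abs_nonneg _) (by linarith)
      have h9 : Real.exp (n / max 25 K0) ≤ Real.exp (n / K0) := by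
        apply Real.exp_le_exp.2
        exact div_le_div_of_nonneg_left (by positivity) hK0 (le_max_right _ _)
      linarith
  obtain ⟨c, C, hc, hCp, hfin⟩ := sfin hDD Pool.Agent.W347.SD.sb2 (Pool.Agent.W368.SD.sb3 Pool.Agent.W347.SD.sb2)
    Pool.Agent.W571.SD.sb1a Pool.Agent.W571.SD.sb1b (Pool.Agent.W32.SD.scount Pool.Agent.W347.SD.sb2)
  have hlog0 : 0 ≤ Real.log (2 * κ) := Real.log_nonneg (by linarith)
  refine ⟨c, C * (2 * κ) * (1 + 2 * Real.log (2 * κ)), hc, by positivity, ?_⟩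
  intro n T hT S hS
  classical
  have h8 := hfin n (2 * κ * T) (by nlinarith) (S.image (fun s => ((2 * κ : ℝ) : ℂ) * s)) (by
    intro s hs
    rw [Finset.mem_image] at hs
    obtain ⟨w, hw, rfl⟩ := hs
    obtain ⟨k1, k2, k3⟩ := hS w hw
    refine ⟨?_, ?_, ?_⟩
    · rw [hF, bad_scale hb hXd, mul_div_cancel_left₀ _ hbc]
      exact k1
    · rw [Complex.im_ofReal_mul]
      positivity
    · rw [Complex.im_ofReal_mul]
      gcongr)
  rw [Finset.sum_image (by
    intro x _ y _ hxy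
    exact mul_left_cancel₀ hbc hxy)] at h8
  have h9 : ∀ s ∈ S, (analyticOrderNatAt (iteratedDeriv n X) s : ℝ) =
      (analyticOrderNatAt (iteratedDeriv n F) (((2 * κ : ℝ) : ℂ) * s) : ℝ) := by
    intro s _
    have e1 : iteratedDeriv n F = fun z => ((1 / (2 * κ) : ℝ) : ℂ) ^ n * iteratedDeriv n X (z / ((2 * κ : ℝ) : ℂ)) := by
      funext z
      have e2 : F = fun z => X (((1 / (2 * κ) : ℝ) : ℂ) * z) := by
        rw [hF]
        funext z
        congr 1
        push_cast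
        ring
      rw [e2, iter_scale hXd]
      congr 2
      push_cast
      ring
    rw [e1, order_const_mul, order_scale hb (iter_diff hXd n)]
    · apply pow_ne_zero
      norm_cast
      positivity
    · have : Differentiable ℂ (fun z => iteratedDeriv n X (z / ((2 * κ : ℝ) : ℂ))) :=
        (iter_diff hXd n).comp (by fun_prop)
      exact this.analyticAt _
  rw [Finset.sum_congr rfl h9]
  refine h8.trans ?_
  have hlT : 1 / 2 ≤ Real.log T := by
    have h3 : Real.log 2 ≤ Real.log T := Real.log_le_log (by norm_num) hT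
    have := Real.log_two_gt_d9
    linarith
  have h10 : Real.log (2 * κ * T) ≤ (1 + 2 * Real.log (2 * κ)) * Real.log T := by
    rw [Real.log_mul hb.ne' (by linarith)]
    nlinarith
  calc C * Real.exp (-(c * n)) * (2 * κ * T) * Real.log (2 * κ * T)
      ≤ C * Real.exp (-(c * n)) * (2 * κ * T) * ((1 + 2 * Real.log (2 * κ)) * Real.log T) := by gcongr
    _ = _ := by ring

end Pool.Agent.Y671.GL
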