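import Pool.Agent.Y671.GL.Fin
import Pool.Agent.Y771.NF.Inst
import Pool.Agent.W388.TW.Good
import Pool.Agent.W108.TW.Mellin
import Pool.Agent.W440.TW.Twist
import Pool.Agent.W820.TW.FE

set_option autoImplicit false

/-!
# Project GD2: newforms of trivial character as instances of `LData`
-/

namespace Pool.Agent.Y671.GL

open UpperHalfPlane hiding I
open MatrixGroups CongruenceSubgroup Filter Topology Complex
open Pool.Agent.Y771.NF (lm psN)
open scoped ComplexConjugate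

/-- identity theorem on a convex open set -/
lemma id_ext {f g : ℂ → ℂ} {U : Set ℂ} (hU : IsOpen U) (hc : Convex ℝ U) (hf : DifferentiableOn ℂ f U)
    (hg : DifferentiableOn ℂ g U) {σ : ℝ} (hσ : ∃ z ∈ U, σ < z.re) (h : ∀ z ∈ U, σ < z.re → f z = g z) :
    ∀ z ∈ U, f z = g z := by
  obtain ⟨z0, hz0, hz1⟩ := hσ
  have h1 := (hf.analyticOnNhd hU).eqOn_of_preconnected_of_eventuallyEq (hg.analyticOnNhd hU)
    hc.isPreconnected hz0 (by
      have h2 : ∀ᶠ z in 𝓝 z0, z ∈ U := hU.mem_nhds hz0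
      have h3 : ∀ᶠ z : ℂ in 𝓝 z0, σ < z.re :=
        (Complex.continuous_re.continuousAt).eventually (lt_mem_nhds hz1)
      filter_upwards [h2, h3] with z h4 h5
      exact h z h4 h5)
  exact fun z hz => h1 hz

lemma Hg_diff {c A : ℝ} (hc : 0 < c) (hA : 0 < A) {w : ℂ} (hw : w.im ≠ 0 ∨ 0 < w.re) :
    DifferentiableAt ℂ (Hg c A) w := by
  have hcc : (c : ℂ) ≠ 0 := by exact_mod_cast hc.ne'
  unfold Hg
  refine DifferentiableAt.mul ?_ ?_
  · exact (differentiableAt_id).const_cpow (Or.inl hcc)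
  · have h1 : DifferentiableAt ℂ Complex.Gamma (w + A) := by
      apply Complex.differentiableAt_Gamma
      intro m hm
      rcases hw with h | h
      · apply h
        have := congrArg Complex.im hm
        simpa using this
      · have := congrArg Complex.re hm
        simp at this
        have hm0 : (0 : ℝ) ≤ m := Nat.cast_nonneg m
        linarith
    exact h1.comp w (by fun_prop)

variable {N : ℕ} [NeZero N] {k : ℕ} {f : CuspForm (Gamma0 N : Subgroup (GL (Fin 2) ℝ)) (k : ℤ)} {ε : ℝ}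

/-- the L-function -/
theorem exists_Z (hk : 1 ≤ k) (hf : W388.IsNewf N k f ε) : ∃ Z : ℂ → ℂ, W388.FE2 k N 1 Z ∧ IsL (lm f) Z := by
  have hF := Pool.Agent.Y771.NF.frm_newf hk hf
  obtain ⟨-, -, -, hS⟩ := Pool.Agent.Y771.GL.mf k N _ _ hF
  have hk' : (1 : ℤ) ≤ (k : ℤ) := by exact_mod_cast hk
  obtain ⟨Z, hZ, hZs⟩ := W388.exists_twist Pool.Agent.W440.TW.t_twist Pool.Agent.W108.TW.t_mellin hk' hf
    (by
      intro q _ χ s hs
      refine ((hS s.re hs).1).of_nonneg_of_le (fun n => norm_nonneg _) fun n => ?_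
      rcases Nat.eq_zero_or_pos n with rfl | hn
      · have h0 : W388.lamf f 0 = 0 := (Pool.Agent.Y771.NF.heckeSeq hf).zero
        rw [h0]
        simp
        positivity
      · rw [norm_mul, norm_mul, Complex.norm_natCast_cpow_of_pos hn, Complex.neg_re]
        have h1 : ‖χ (n : ZMod q)‖ ≤ 1 := χ.norm_le_one _
        have h2 : ‖lm f n‖ = ‖((W388.lamf f n : ℝ) : ℂ)‖ := rfl
        rw [h2]
        have h3 : 0 ≤ ‖((W388.lamf f n : ℝ) : ℂ)‖ * (n : ℝ) ^ (-s.re) := by positivity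
        nlinarith) 1 1
    DirichletCharacter.isPrimitive_one_level_one (Nat.coprime_one_left N)
  refine ⟨Z, by simpa using hZ, hZ.diff, ?_⟩
  intro s hs
  rw [hZs s hs]
  refine tsum_congr fun n => ?_
  have h1 : (1 : DirichletCharacter ℂ 1) ((n : ℕ) : ZMod 1) = 1 := by
    apply MulChar.one_apply
    exact isUnit_of_subsingleton _
  rw [h1, one_mul]
  rfl

theorem gro_Z (hk : 1 ≤ k) {Z : ℂ → ℂ} (hF : W388.FE2 k N 1 Z) {ps lam : ℕ → ℂ} (hfm : Frm k N ps lam)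
    (hL : IsL lam Z) : ∃ A : ℝ, ∀ s : ℂ, 1 / 16 ≤ s.re → 1 ≤ s.im → ‖Z s‖ ≤ A * s.im ^ A := by
  obtain ⟨c1, K1, -, hK1, h⟩ := rgt_of hfm hL (1 / 2) (by norm_num)
  have hk' : (1 : ℤ) ≤ (k : ℤ) := by exact_mod_cast hk
  have hN : (1 : ℝ) ≤ N := by exact_mod_cast Nat.one_le_iff_ne_zero.2 (NeZero.ne N)
  refine ⟨2 + 2 * (max K1 1 * N) * (((((k : ℤ) : ℝ) - 1) / 2) + 6) ^ 2, ?_⟩
  intro s h1 h2
  have h3 := Pool.Agent.W820.TW.F_growth hk' hN le_rfl (le_max_right K1 1) hF (fun s hs =>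
    ((h s (by linarith)).2.1).trans (le_max_left _ _)) le_rfl s h1 h2
  rwa [one_mul] at h3

/-- the series in terms of the coefficients of the form -/
lemma ser_shift (hk : 1 ≤ k) (hf : W388.IsNewf N k f ε) {Z : ℂ → ℂ} (hL : IsL (lm f) Z) {w : ℂ} (hw : 1 / 2 < w.re) :
    ∑' n : ℕ, (qExpansion 1 f).coeff (n + 1) * ((n + 1 : ℕ) : ℂ) ^ (-((k : ℂ) / 2 + w)) = Z (1 / 2 + w) := by
  have hF := Pool.Agent.Y771.NF.frm_newf hk hf
  obtain ⟨-, -, -, hS⟩ := Pool.Agent.Y771.GL.mf k N _ _ hF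
  have hre : (1 / 2 + w : ℂ).re = 1 / 2 + w.re := by simp
  have hs : 1 < (1 / 2 + w : ℂ).re := by rw [hre]; linarith
  have hsum := (sum_of (hS _ hs).1 (s := 1 / 2 + w) le_rfl).1
  rw [ser_eq hF hL hs, LSeries, hsum.tsum_eq_zero_add, LSeries.term_zero, zero_add]
  refine tsum_congr fun n => ?_
  have h0 : n + 1 ≠ 0 := by omega
  have hn0 : ((n + 1 : ℕ) : ℂ) ≠ 0 := by exact_mod_cast h0
  have hnr : (0 : ℝ) < ((n + 1 : ℕ) : ℝ) := by exact_mod_cast Nat.succ_pos n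
  rw [LSeries.term_of_ne_zero h0, ← Pool.Agent.Y771.NF.aa_lm hf (n + 1)]
  unfold aa
  have e2 : lm f (n + 1) / ((n + 1 : ℕ) : ℂ) ^ (1 / 2 + w) =
      lm f (n + 1) * ((n + 1 : ℕ) : ℂ) ^ (-(1 / 2 + w)) := by
    rw [Complex.cpow_neg, div_eq_mul_inv]
  rw [e2, mul_assoc]
  congr 1
  rw [Complex.ofReal_cpow hnr.le, Complex.ofReal_natCast, ← Complex.cpow_add _ _ hn0]
  congr 1
  push_cast
  ring

/-- **The completed L-function of a newform.** -/
theorem ldata_of (hk : 1 ≤ k) (hf : W388.IsNewf N k f ε) {Z : ℂ → ℂ} (hFE : W388.FE2 k N 1 Z) (hL : IsL (lm f) Z)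
    {Λ : ℂ → ℂ} (hΛ : Differentiable ℂ Λ) {σ : ℝ} (hser : ∀ s : ℂ, σ < s.re →
      Λ s = ((Real.sqrt N / (2 * Real.pi) : ℝ) : ℂ) ^ s * Complex.Gamma s *
        ∑' n : ℕ, (qExpansion 1 f).coeff (n + 1) * ((n + 1 : ℕ) : ℂ) ^ (-s))
    {w : ℝ} (hfe : ∀ s : ℂ, Λ (k - s) = (w : ℂ) * Λ s)
    (hconj : ∀ s : ℂ, Λ (conj s) = conj (Λ s))
    (hvert : ∀ a b : ℝ, ∃ M : ℝ, ∀ s : ℂ, a ≤ s.re → s.re ≤ b → ‖Λ s‖ ≤ M)
    {u : ℂ} (hu : u ≠ 0) (huw : u * w = conj u) :
    LData k (Real.sqrt N / (2 * Real.pi)) (u * ((Real.sqrt N / (2 * Real.pi) : ℝ) : ℂ) ^ ((k : ℂ) / 2))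
      (fun z => u * Λ ((k : ℂ) / 2 + z)) Z := by
  have hF := Pool.Agent.Y771.NF.frm_newf hk hf
  have hN : (0 : ℝ) < N := by exact_mod_cast Nat.pos_of_ne_zero (NeZero.ne N)
  have hc : 0 < Real.sqrt N / (2 * Real.pi) := by
    have := Real.pi_pos
    positivity
  set c : ℝ := Real.sqrt N / (2 * Real.pi) with hcd
  have hcc : (c : ℂ) ≠ 0 := by exact_mod_cast hc.ne'
  have hkr : (1 : ℝ) ≤ k := by exact_mod_cast hk
  have hk2 : (0 : ℝ) < (k : ℝ) / 2 := by positivity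
  have hbase : ∀ z : ℂ, max σ 1 < z.re → u * Λ ((k : ℂ) / 2 + z) =
      (u * (c : ℂ) ^ ((k : ℂ) / 2)) * Hg c ((k : ℝ) / 2) z * Z (1 / 2 + z) := by
    intro z hz
    have hz1 : σ < z.re := (le_max_left _ _).trans_lt hz
    have hz2 : 1 < z.re := (le_max_right _ _).trans_lt hz
    have hre : ((k : ℂ) / 2 + z).re = (k : ℝ) / 2 + z.re := by
      simp
    rw [hser _ (by rw [hre]; linarith), ser_shift hk hf hL (by linarith), Complex.cpow_add _ _ hcc]
    unfold Hg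
    have e1 : z + (((k : ℝ) / 2 : ℝ) : ℂ) = (k : ℂ) / 2 + z := by push_cast; ring
    rw [e1]
    ring
  refine ⟨hc, mul_ne_zero hu ?_, ?_, ?_, ?_, ?_, gro_Z hk hFE hF hL⟩
  · rw [Ne, Complex.cpow_eq_zero_iff]
    tauto
  · exact (hΛ.comp (by fun_prop)).const_mul u
  · intro z
    have h1 : (k : ℂ) / 2 + -(conj z) = (k : ℂ) - ((k : ℂ) / 2 + conj z) := by ring
    have h2 : (k : ℂ) / 2 + conj z = conj ((k : ℂ) / 2 + z) := by
      have h3 : conj (2 : ℂ) = 2 := Complex.conj_ofNat 2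
      rw [map_add, map_div₀, Complex.conj_natCast, h3]
    rw [h1, hfe, h2, hconj, map_mul, ← huw]
    ring
  · have hd1 : Differentiable ℂ (fun z => u * Λ ((k : ℂ) / 2 + z)) := (hΛ.comp (by fun_prop)).const_mul u
    have hd2 : ∀ z : ℂ, (z.im ≠ 0 ∨ 0 < z.re) → DifferentiableAt ℂ
        (fun z => (u * (c : ℂ) ^ ((k : ℂ) / 2)) * Hg c ((k : ℝ) / 2) z * Z (1 / 2 + z)) z := by
      intro z hz
      refine ((Hg_diff hc hk2 hz).const_mul _).mul ?_
      exact (hL.diff.comp (by fun_prop : Differentiable ℂ (fun z : ℂ => 1 / 2 + z))) z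
    intro z hz
    rcases hz with hz | hz
    · exact id_ext (U := {z : ℂ | 0 < z.im}) (isOpen_lt continuous_const Complex.continuous_im)
        (convex_halfSpace_im_gt 0) hd1.differentiableOn
        (fun z hz => (hd2 z (Or.inl (ne_of_gt hz))).differentiableWithinAt)
        ⟨((max σ 1 + 1 : ℝ) : ℂ) + I, by
          show 0 < (((max σ 1 + 1 : ℝ) : ℂ) + I).im
          simp, by simp⟩
        (fun z _ h => hbase z h) z hz
    · exact id_ext (U := {z : ℂ | 1 / 2 < z.re}) (isOpen_lt continuous_const Complex.continuous_re)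
        (convex_halfSpace_re_gt (1 / 2)) hd1.differentiableOn
        (fun z hz => (hd2 z (Or.inr (by
          have : (1 / 2 : ℝ) < z.re := hz
          linarith))).differentiableWithinAt)
        ⟨((max σ 1 + 1 : ℝ) : ℂ), by
          show 1 / 2 < (((max σ 1 + 1 : ℝ) : ℂ)).re
          rw [Complex.ofReal_re]
          have := le_max_right σ 1
          linarith, by rw [Complex.ofReal_re]; linarith⟩
        (fun z _ h => hbase z h) z hz
  · intro a b
    obtain ⟨M, hM⟩ := hvert ((k : ℝ) / 2 + a) ((k : ℝ) / 2 + b)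
    refine ⟨‖u‖ * M, ?_⟩
    intro z h1 h2
    rw [norm_mul]
    have hre : ((k : ℂ) / 2 + z).re = (k : ℝ) / 2 + z.re := by simp
    have := hM ((k : ℂ) / 2 + z) (by rw [hre]; linarith) (by rw [hre]; linarith)
    gcongr

end Pool.Agent.Y671.GL
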