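import Pool.Agent.Y671.GL.Low
import Pool.Agent.Y671.GL.NF
import Pool.Agent.W174.HF.NF1
import Pool.Agent.Y275.GL.Had1

set_option autoImplicit false

/-!
# Project GD2: newforms of weight two with real coefficients (elliptic curves)
-/

namespace Pool.Agent.Y671.GL

open UpperHalfPlane hiding I
open MatrixGroups CongruenceSubgroup Filter Topology Complex
open Pool.Agent.Y771.NF (lm psN)
open scoped ComplexConjugate
open Pool.Agent.W169.HF (IsForm IsCompleted coef heat)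

variable {N : ℕ} [NeZero N] {f : CuspForm (Gamma0 N : Subgroup (GL (Fin 2) ℝ)) 2} {w : ℝ}

theorem newf_of_form (hf : IsForm N f w) :
    W388.IsNewf N ((2 : ℕ) : ℤ) (f : CuspForm (Gamma0 N : Subgroup (GL (Fin 2) ℝ)) ((2 : ℕ) : ℤ)) w where
  one := hf.one
  real := hf.real
  mul := hf.mul
  pow := fun p j hp => by
    have h := hf.pow p j hp
    have e : (p : ℂ) ^ (((2 : ℕ) : ℤ) - 1) = (p : ℂ) := by norm_num
    rw [e]
    exact h
  sign := hf.sign
  fricke := fun τ τ' h => by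
    have h1 := hf.fricke τ τ' h
    have hN : (0 : ℝ) ≤ N := Nat.cast_nonneg N
    have e : (w : ℂ) * (((Real.sqrt N : ℝ) : ℂ) * (τ : ℂ) / Complex.I) ^ ((2 : ℕ) : ℤ) =
        -(w : ℂ) * (N : ℂ) * (τ : ℂ) ^ 2 := by
      rw [zpow_natCast, div_pow, mul_pow, Complex.I_sq, ← Complex.ofReal_pow, Real.sq_sqrt hN,
        Complex.ofReal_natCast]
      ring
    rw [e]
    exact h1

/-- the L-series with trivial character -/
lemma facE_one {q : ℕ} (hq : q = 1) (χ : DirichletCharacter ℂ q) (s : ℂ) :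
    Pool.Agent.W355.UN.facE f χ s = ((Real.sqrt N / (2 * Real.pi) : ℝ) : ℂ) ^ s * Complex.Gamma s *
      ∑' n : ℕ, coef f (n + 1) * ((n + 1 : ℕ) : ℂ) ^ (-s) := by
  subst hq
  unfold Pool.Agent.W355.UN.facE
  have h1 : ∀ n : ℕ, χ ((n : ℕ) : ZMod 1) = 1 := by
    intro n
    have h2 : ((n : ℕ) : ZMod 1) = 1 := Subsingleton.elim _ _
    rw [h2, map_one]
  simp only [h1, mul_one, Nat.cast_one]

/-- the uniform local theorem for one elliptic curve -/
theorem flow_ec (hf : IsForm N f w) {Λ : ℂ → ℂ} (hΛ : IsCompleted f Λ) :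
    ∃ C : ℝ, Pool.Agent.TH839.UH.Flow C 1 N Λ := by
  classical
  obtain ⟨C, hC, -, H⟩ := Pool.Agent.TH839.UH.flow_all
  obtain ⟨Λ', h1, ⟨σ, h2⟩, -, h4⟩ := H N f w 1 (⊥ : Subgroup (DirichletCharacter ℂ 1)) hf (Nat.coprime_one_left N)
  have hcard : Fintype.card (⊥ : Subgroup (DirichletCharacter ℂ 1)) = 1 := Fintype.card_unique
  have hcond : ∀ χ : DirichletCharacter ℂ 1, χ.conductor = 1 := by
    intro χ
    exact Nat.dvd_one.1 χ.conductor_dvd_level
  have hA : Pool.Agent.W355.UN.condA (⊥ : Subgroup (DirichletCharacter ℂ 1)) N = N := by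
    unfold Pool.Agent.W355.UN.condA
    rw [Fintype.prod_unique, hcond]
    simp
  have hE : ∀ s : ℂ, Pool.Agent.W355.UN.prodE (⊥ : Subgroup (DirichletCharacter ℂ 1)) f s =
      ((Real.sqrt N / (2 * Real.pi) : ℝ) : ℂ) ^ s * Complex.Gamma s *
      ∑' n : ℕ, coef f (n + 1) * ((n + 1 : ℕ) : ℂ) ^ (-s) := by
    intro s
    unfold Pool.Agent.W355.UN.prodE
    rw [Fintype.prod_unique]
    exact facE_one (hcond _) _ s
  have hu : Λ' = Λ := Pool.Agent.W355.UN.Pk.uniq hΛ.1 h1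
    ⟨3, fun s hs => by rw [hΛ.2 s (by linarith)]⟩
    ⟨σ, fun s hs => by rw [h2 s hs, hE s]⟩
  rw [hu, hcard, hA] at h4
  exact ⟨C, h4⟩

/-- **Everything about the completed L-function of an elliptic curve.** -/
theorem ec_data (hf : IsForm N f w) {Λ : ℂ → ℂ} (hΛ : IsCompleted f Λ) :
    ∃ (u : ℂ) (H Z : ℂ → ℂ), u ≠ 0 ∧ GG 1 H (fun z => u * Λ (1 + z)) Z ∧
      (∀ s : ℂ, (fun z => u * Λ (1 + z)) s = 0 → |s.re| ≤ 1 / 2) ∧
      AppX (fun z => u * Λ (1 + z)) ∧ LowX (fun z => u * Λ (1 + z)) ∧ HugeX (fun z => u * Λ (1 + z)) := by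
  obtain ⟨Λ', hΛ', hfe, hconj, hvert⟩ := Pool.Agent.W174.HF.nf1 N f w hf
  have hu : Λ' = Λ := Pool.Agent.W169.HF.completed_unique hΛ' hΛ
  subst hu
  have hnf := newf_of_form hf
  obtain ⟨Z, hFE, hL⟩ := exists_Z (k := 2) (by norm_num) hnf
  have hF := Pool.Agent.Y771.NF.frm_newf (k := 2) (by norm_num) hnf
  obtain ⟨u, hu0, huw⟩ : ∃ u : ℂ, u ≠ 0 ∧ u * (w : ℂ) = conj u := by
    rcases hf.sign with h | h
    · exact ⟨1, one_ne_zero, by rw [h]; simp⟩
    · exact ⟨Complex.I, Complex.I_ne_zero, by rw [h]; simp⟩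
  have hD := ldata_of (k := 2) (by norm_num) hnf hFE hL (Λ := Λ') hΛ.1 (σ := 2) (fun s hs => hΛ.2 s hs)
    (w := w) (fun s => by
      have := hfe s
      push_cast
      exact this) hconj hvert hu0 huw
  have e1 : (fun z : ℂ => u * Λ' ((((2 : ℕ) : ℂ)) / 2 + z)) = fun z => u * Λ' (1 + z) := by
    funext z
    congr 2
    norm_num
  rw [e1] at hD
  have hgg := gg_of hF hL hD
  have hst := strip_of hF hL hD
  obtain ⟨C, hfl⟩ := flow_ec hf hΛ
  have hN : (1 : ℝ) ≤ N := by exact_mod_cast Nat.one_le_iff_ne_zero.2 (NeZero.ne N)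
  have hne : ∃ z, (fun z => u * Λ' (1 + z)) z ≠ 0 := by
    obtain ⟨κ, K1, -, -, h⟩ := rgt_of hF hL 1 one_pos
    refine ⟨2, fun h0 => ?_⟩
    have h1 := hst 2 h0
    norm_num at h1
  have hsl := hgg.cg.slow
  have hd := hgg.cg.cf.diff
  have h0 : heat 0 Λ' = Λ' := by
    obtain ⟨K, hK, hs⟩ := hsl
    obtain ⟨g0, -⟩ := Pool.Agent.Y275.GL.hht (fun z => u * Λ' (1 + z)) (slow_of hd hK hs) hD.symm hne hst
    rw [heat_shift'] at g0
    funext s
    have h2 := congrFun g0 (s - 1)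
    simp only [add_sub_cancel] at h2
    exact mul_left_cancel₀ hu0 h2
  refine ⟨u, _, Z, hu0, hgg, hst, ?_, low_flow hN hfl h0 hu0, huge_flow le_rfl hN hfl hu0⟩
  exact Pool.Agent.Y275.GL.had1 _ hd hD.symm hne hsl hst

end Pool.Agent.Y671.GL
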