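import Pool.Agent.Y671.GL.All
import Pool.Agent.W655.SD.SC2

set_option autoImplicit false

/-!
# Project GD2: most heights are good, at every scale
-/

namespace Pool.Agent.Y671.GL

open Complex Filter Topology MeasureTheory Set
open scoped ComplexConjugate
open Pool.Agent.H24R2.DZ (NN MM)

lemma mT_diff' (ps lam : ℕ → ℂ) (θ T : ℝ) : Differentiable ℂ (mT ps lam θ T) := by
  unfold mT MM
  apply Differentiable.fun_sum
  intro h hh
  have h0 : ((h : ℕ) : ℂ) ≠ 0 := by
    have := (Finset.mem_Icc.1 hh).1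
    exact_mod_cast (by omega : h ≠ 0)
  refine Differentiable.const_mul ?_ _
  intro s
  exact (differentiable_id.neg s).const_cpow (Or.inl h0)

theorem few_bad {k N : ℕ} {ps lam : ℕ → ℂ} {F : ℂ → ℂ} (hf : Frm k N ps lam) (hF : IsL lam F) :
    FewBad F (mT ps lam) :=
  gc1_all F (mT ps lam) hF.diff (mT_diff' ps lam) (mv1_all k N ps lam F hf hF) (mv2_all k N ps lam F hf hF)

theorem topL_of {k N : ℕ} {ps lam : ℕ → ℂ} {F : ℂ → ℂ} (hf : Frm k N ps lam) (hF : IsL lam F)
    {κ : ℝ} {H X : ℂ → ℂ} (hC : CF κ H X F) : TopL κ X :=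
  gtop_all κ H X F (mT ps lam) hC (mT_diff' ps lam) (mv1_all k N ps lam F hf hF)

/-- From few bad heights to good points of the completed function. -/
theorem goodX_of_few {κ : ℝ} {H X Z : ℂ → ℂ} {M : ℝ → ℝ → ℂ → ℂ} (hC : CF κ H X Z)
    (hM : ∀ θ T : ℝ, Differentiable ℂ (M θ T)) (hB : FewBad Z M) : GoodX κ X := by
  intro η hη
  have hκ := hC.κ_pos
  obtain ⟨η1, ε1, a1, T1, hη1, hε1, ha1, hT1, H1⟩ := gc2_all κ H X Z hC η hη
  obtain ⟨θ, c, C, a0, T0, -, -, hc, hCp, ha0, hT0, H0⟩ := hB η1 (ε1 * κ / 2) hη1 (by positivity)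
  refine ⟨c / (2 * κ), C, max (max 2 a1) (2 * κ * a0), max T0 (2 * T1), by positivity, hCp,
    ?_, hT0.trans (le_max_left _ _), ?_⟩
  · exact le_trans (by norm_num) ((le_max_left _ _).trans (le_max_left _ _))
  intro T a r hT ha hr hr1 hκr haT
  have h1 : 2 ≤ a := ((le_max_left _ _).trans (le_max_left _ _)).trans ha
  have h2 : a1 ≤ a := ((le_max_right _ _).trans (le_max_left _ _)).trans ha
  have h3 : 2 * κ * a0 ≤ a := (le_max_right _ _).trans ha
  have hTT0 : T0 ≤ T := (le_max_left _ _).trans hT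
  have hTT1 : 2 * T1 ≤ T := (le_max_right _ _).trans hT
  have hT0' : 0 < T := by linarith
  have haT' := abs_le.1 haT
  -- `Λ = r log T`
  have h4 : a ≤ 2 * κ * (r * Real.log T) := by nlinarith
  have h5 : a0 ≤ r * Real.log T := by
    have : 2 * κ * a0 ≤ 2 * κ * (r * Real.log T) := h3.trans h4
    exact le_of_mul_le_mul_left this (by positivity)
  have h6 := H0 T r hTT0 h5 hr1
  refine (measure_mono ?_).trans (h6.trans ?_)
  · rintro t0 ⟨k1, k2, k3⟩
    refine ⟨k1, k2, fun hG => k3 ?_⟩
    refine H1 (M θ T) a r t0 (hM θ T) (by linarith) h2 hr hr1 ?_ ?_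
    · have ht0 : 0 < t0 := by linarith
      have e1 : |Real.log t0 - Real.log T| ≤ 2 := by
        rw [← Real.log_div ht0.ne' hT0'.ne', abs_le]
        constructor
        · have g3 := Real.log_le_sub_one_of_pos (show 0 < T / t0 by positivity)
          have g4 : Real.log (t0 / T) = -Real.log (T / t0) := by
            rw [← Real.log_inv, inv_div]
          have g5 : T / t0 ≤ 2 := by
            rw [div_le_iff₀ ht0]; linarith
          rw [g4]
          linarith
        · have g3 := Real.log_le_sub_one_of_pos (show 0 < t0 / T by positivity)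
          have g5 : t0 / T ≤ 3 := by
            rw [div_le_iff₀ hT0']; linarith
          linarith
      have e2 : κ * r * Real.log t0 - a = κ * r * (Real.log t0 - Real.log T) + (κ * r * Real.log T - a) := by ring
      rw [e2]
      refine (abs_add_le _ _).trans ?_
      rw [abs_mul, abs_of_pos (by positivity)]
      have : κ * r * |Real.log t0 - Real.log T| ≤ 1 / 100 * 2 := by gcongr
      linarith
    · refine ⟨hG.1, hG.2.trans ?_⟩
      refine mul_le_mul_of_nonneg_right (Real.exp_le_exp.2 ?_) (by positivity)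
      -- ε1 κ/2 * Λ ≤ ε1 a
      have g1 : κ * (r * Real.log T) ≤ 2 * a := by nlinarith
      nlinarith
  · refine ENNReal.ofReal_le_ofReal ?_
    have : c / (2 * κ) * a ≤ c * (r * Real.log T) := by
      rw [div_mul_eq_mul_div, div_le_iff₀ (by positivity)]
      nlinarith
    gcongr

theorem goodX_of {k N : ℕ} {ps lam : ℕ → ℂ} {F : ℂ → ℂ} (hf : Frm k N ps lam) (hF : IsL lam F)
    {κ : ℝ} {H X : ℂ → ℂ} (hC : CF κ H X F) : GoodX κ X :=
  goodX_of_few hC (mT_diff' ps lam) (few_bad hf hF)

end Pool.Agent.Y671.GL
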