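import Pool.Agent.Y671.GL.Hdx
import Pool.Agent.Y671.GL.Cg
import Pool.Agent.Y671.GL.Good
import Pool.Agent.Y412.GL.HSZ
import Pool.Agent.Y275.GL.HHT

set_option autoImplicit false

/-!
# Project GD2: the final theorems on completed L-functions of forms
-/

namespace Pool.Agent.Y671.GL

open Complex Filter Topology MeasureTheory Set
open scoped ComplexConjugate

theorem ddx_all : S_DDX := ddx Pool.Agent.Y412.GL.HSZ.hsz

theorem hdx_all : S_HDX := hdx Pool.Agent.Y412.GL.HSZ.hsz Pool.Agent.Y275.GL.hht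

variable {k N : ℕ} {ps lam : ℕ → ℂ} {c : ℝ} {u0 : ℂ} {X Z : ℂ → ℂ}

theorem gg_of (hf : Frm k N ps lam) (hL : IsL lam Z) (hD : LData k c u0 X Z) :
    GG 1 (fun w => u0 * Hg c ((k : ℝ) / 2) w) X Z := by
  have hC := cg_of hf hL hD
  exact ⟨hC, goodX_of hf hL hC.cf, topL_of hf hL hC.cf⟩

theorem strip_of (hf : Frm k N ps lam) (hL : IsL lam Z) (hD : LData k c u0 X Z) :
    ∀ s : ℂ, X s = 0 → |s.re| ≤ 1 / 2 := by
  have hpos : ∀ s : ℂ, 1 / 2 < s.re → X s ≠ 0 := by
    intro s hs h0
    have hk : (0 : ℝ) ≤ k := Nat.cast_nonneg k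
    rw [hD.eq s (Or.inr hs)] at h0
    obtain ⟨c1, K1, hc1, -, h⟩ := rgt_of hf hL (s.re - 1 / 2) (by linarith)
    have h1 := (h (1 / 2 + s) (by
      have : (1 / 2 + s : ℂ).re = 1 / 2 + s.re := by simp
      rw [this]; linarith)).1
    rcases mul_eq_zero.1 h0 with h2 | h2
    · rcases mul_eq_zero.1 h2 with h3 | h3
      · exact hD.u_ne h3
      · unfold Hg at h3
        rcases mul_eq_zero.1 h3 with h4 | h4
        · rw [Complex.cpow_eq_zero_iff] at h4
          exact hD.c_pos.ne' (by exact_mod_cast h4.1)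
        · refine Complex.Gamma_ne_zero_of_re_pos ?_ h4
          have : (s + ((k / 2 : ℝ) : ℂ)).re = s.re + k / 2 := by simp
          rw [this]
          linarith
    · rw [h2, norm_zero] at h1
      linarith
  intro s hs
  by_contra hcon
  rw [not_le, lt_abs] at hcon
  rcases hcon with h | h
  · exact hpos s h hs
  · refine hpos (-(conj s)) (by simp; linarith) ?_
    rw [hD.symm, hs, map_zero]

end Pool.Agent.Y671.GL
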