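import Pool.Agent.Y671.GL.Fin
import Pool.Agent.TH839.UH.Fin2

set_option autoImplicit false

/-!
# Project GD2: `LowX` and `HugeX` from the uniform local theorem on `D^n Λ_t`
-/

namespace Pool.Agent.Y671.GL

open Complex Filter Topology MeasureTheory Set
open scoped ComplexConjugate
open Pool.Agent.W169.HF (heat Slow)
open Pool.Agent.Y671.LD (bad badH)
open Pool.Agent.TH839.UH (lD Flow)

lemma lD_ge {d : ℕ} {A : ℝ} (hd : 1 ≤ d) (hA : 1 ≤ A) {y : ℝ} (hy : 1 ≤ y) : Real.log y ≤ lD d A y := by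
  unfold lD
  have h0 : 0 < 1 + |y| := by positivity
  rw [Real.log_mul (by positivity) (by positivity), Real.log_pow]
  have h1 : Real.log y ≤ Real.log (1 + |y|) := Real.log_le_log (by linarith) (by linarith [le_abs_self y])
  have h2 : 0 ≤ Real.log y := Real.log_nonneg hy
  have h3 : 0 ≤ Real.log A := Real.log_nonneg hA
  have h4 : (1 : ℝ) ≤ d := by exact_mod_cast hd
  push_cast
  nlinarith

theorem low_of {X : ℂ → ℂ} {C A : ℝ} {d : ℕ} (hA : 1 ≤ A)
    (h : ∀ (n : ℕ) (s : ℂ), C * lD d A s.im ≤ n → iteratedDeriv n X s = 0 →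
      s.re = 0 ∧ iteratedDeriv (n + 1) X s ≠ 0) : LowX X := by
  obtain ⟨D, hD⟩ : ∃ D : ℝ, D = |C| := ⟨_, rfl⟩
  have hD0 : 0 ≤ D := by rw [hD]; exact abs_nonneg _
  have hCD : C ≤ D := by rw [hD]; exact le_abs_self _
  have hA0 : 0 ≤ Real.log A := Real.log_nonneg hA
  obtain ⟨N0, hN0⟩ := exists_nat_ge (2 * D * (d + Real.log A + 2 * d * Real.log 2))
  refine ⟨4 * d * D + 1, by positivity, N0, ?_⟩
  rintro n hn s hs ⟨h1, h2⟩
  have hK : 0 < 4 * d * D + 1 := by positivity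
  have hx : 0 ≤ n / (4 * d * D + 1) := by positivity
  have h3 : Real.log (1 + |s.im|) ≤ Real.log 2 + n / (4 * d * D + 1) := by
    have h4 : 1 + |s.im| ≤ 2 * Real.exp (n / (4 * d * D + 1)) := by
      have := Real.one_le_exp hx
      linarith
    have h5 := Real.log_le_log (by positivity) h4
    rw [Real.log_mul (by norm_num) (Real.exp_pos _).ne', Real.log_exp] at h5
    exact h5
  have h4 : lD d A s.im ≤ d + Real.log A + 2 * d * (Real.log 2 + n / (4 * d * D + 1)) := by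
    unfold lD
    rw [Real.log_mul (by positivity) (by positivity), Real.log_pow]
    push_cast
    have : (2 * (d : ℝ)) * Real.log (1 + |s.im|) ≤ 2 * d * (Real.log 2 + n / (4 * d * D + 1)) := by gcongr
    linarith
  have h5 : 0 ≤ lD d A s.im := by
    unfold lD
    have h6 : 1 ≤ A * (1 + |s.im|) ^ (2 * d) := by
      have : 1 ≤ (1 + |s.im|) ^ (2 * d) := one_le_pow₀ (by linarith [abs_nonneg s.im])
      nlinarith
    have := Real.log_nonneg h6
    positivity
  have h6 : C * lD d A s.im ≤ n := by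
    have h7 : C * lD d A s.im ≤ D * (d + Real.log A + 2 * d * (Real.log 2 + n / (4 * d * D + 1))) := by
      calc C * lD d A s.im ≤ D * lD d A s.im := by gcongr
        _ ≤ _ := by gcongr
    have hn' : (N0 : ℝ) ≤ n := by exact_mod_cast hn
    have h8 : D * (2 * d * (n / (4 * d * D + 1))) ≤ n / 2 := by
      have h9 : D * (2 * d * (n / (4 * d * D + 1))) = (2 * d * D / (4 * d * D + 1)) * n := by
        field_simp
      have h10 : 2 * d * D / (4 * d * D + 1) ≤ 1 / 2 := by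
        rw [div_le_iff₀ hK]
        linarith
      rw [h9]
      have hn0 : (0 : ℝ) ≤ n := Nat.cast_nonneg n
      nlinarith
    have h9 : D * (d + Real.log A + 2 * d * (Real.log 2 + n / (4 * d * D + 1))) =
        (2 * D * (d + Real.log A + 2 * d * Real.log 2)) / 2 + D * (2 * d * (n / (4 * d * D + 1))) := by ring
    rw [h9] at h7
    linarith
  obtain ⟨k1, k2⟩ := h n s h6 h1
  rcases h2 with h2 | h2
  · exact h2 k1
  · exact k2 h2

theorem huge_of {X : ℂ → ℂ} {C A : ℝ} {d : ℕ} (hd : 1 ≤ d) (hA : 1 ≤ A)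
    (h : ∀ (τ : ℝ) (s : ℂ), 0 ≤ τ → C * lD d A s.im ≤ τ * lD d A s.im ^ 2 → heat τ X s = 0 →
      s.re = 0 ∧ deriv (heat τ X) s ≠ 0) : HugeX X := by
  refine ⟨max 1 C, 2, le_max_left _ _, le_rfl, ?_⟩
  rintro t τ s ht hτ hτ8 hX hs ⟨h1, h2⟩
  have h3 : Real.log t ≤ lD d A t := lD_ge hd hA (by linarith)
  have h4 : 0 < Real.log t := Real.log_pos (by linarith)
  have h5 : C ≤ τ * lD d A t := by
    calc C ≤ max 1 C := le_max_right _ _
      _ ≤ τ * Real.log t := hX
      _ ≤ τ * lD d A t := by gcongr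
  have h6 : C * lD d A s.im ≤ τ * lD d A s.im ^ 2 := by
    rw [hs]
    have h7 : 0 ≤ lD d A t := by linarith
    nlinarith
  obtain ⟨k1, k2⟩ := h τ s hτ.le h6 h1
  rcases h2 with h2 | h2
  · exact h2 k1
  · exact k2 h2

/-- the heat flow and its derivatives under `X z = u Λ(a + z)` -/
lemma heat_shift' (u a : ℂ) (Λ : ℂ → ℂ) (τ : ℝ) :
    heat τ (fun z => u * Λ (a + z)) = fun z => u * heat τ Λ (a + z) := by
  funext z
  have h1 : ∀ v : ℝ, ((Real.exp (-v ^ 2) : ℝ) : ℂ) *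
      (fun z => u * Λ (a + z)) (z + ((2 * Real.sqrt τ * v : ℝ) : ℂ)) =
      u * (((Real.exp (-v ^ 2) : ℝ) : ℂ) * Λ (a + z + ((2 * Real.sqrt τ * v : ℝ) : ℂ))) := by
    intro v
    simp only
    rw [add_assoc]
    ring
  unfold heat
  simp only [h1]
  rw [MeasureTheory.integral_const_mul]
  ring

lemma iter_shift' (u a : ℂ) (g : ℂ → ℂ) (n : ℕ) (z : ℂ) :
    iteratedDeriv n (fun z => u * g (a + z)) z = u * iteratedDeriv n g (a + z) := by
  rw [iteratedDeriv_const_mul_field, iteratedDeriv_comp_const_add]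

theorem low_flow {C A : ℝ} {d : ℕ} {Λ : ℂ → ℂ} (hA : 1 ≤ A) (hF : Flow C d A Λ) (h0 : heat 0 Λ = Λ) {u : ℂ} (hu : u ≠ 0) :
    LowX (fun z => u * Λ (1 + z)) := by
  refine low_of (C := C) (A := A) (d := d) hA ?_
  intro n s hn hs
  rw [iter_shift'] at hs ⊢
  have h1 := hF.loc n 0 (1 + s) le_rfl (by
    have : (1 + s : ℂ).im = s.im := by simp
    rw [this]
    linarith) (by
    rw [h0]
    exact (mul_eq_zero.1 hs).resolve_left hu)
  rw [h0] at h1
  refine ⟨by have := h1.1; simp at this; exact this, mul_ne_zero hu h1.2⟩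

theorem huge_flow {C A : ℝ} {d : ℕ} {Λ : ℂ → ℂ} (hd : 1 ≤ d) (hA : 1 ≤ A) (hF : Flow C d A Λ) {u : ℂ} (hu : u ≠ 0) :
    HugeX (fun z => u * Λ (1 + z)) := by
  refine huge_of (C := C) (A := A) (d := d) hd hA ?_
  intro τ s hτ hn hs
  rw [heat_shift'] at hs ⊢
  have h1 := hF.loc 0 τ (1 + s) hτ (by
    have : (1 + s : ℂ).im = s.im := by simp
    rw [this]
    push_cast
    linarith) (by
    rw [iteratedDeriv_zero]
    exact (mul_eq_zero.1 hs).resolve_left hu)
  refine ⟨by have := h1.1; simp at this; exact this, ?_⟩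
  have h2 := iter_shift' u 1 (heat τ Λ) 1 s
  rw [iteratedDeriv_one] at h2
  rw [h2]
  exact mul_ne_zero hu h1.2

end Pool.Agent.Y671.GL
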