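import Pool.Agent.Y671.GL.Cnt
import Pool.Agent.Y671.GL.EC

set_option autoImplicit false

/-!
# Project GD2: the theorems for completed L-functions of elliptic curves
-/

namespace Pool.Agent.Y671.GL

open Complex Filter Topology Set
open scoped ComplexConjugate
open Pool.Agent.W169.HF (heat Slow)
open Pool.Agent.Y671.LD (bad badH order_const_mul iter_diff)

section

variable {Λ : ℂ → ℂ} {u : ℂ} {a : ℝ}

lemma ZD_image (hu : u ≠ 0) (n : ℕ) (T : ℝ) :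
    (fun z => (a : ℂ) + z) '' ZD (fun z => u * Λ ((a : ℂ) + z)) n T = ZD Λ n T := by
  ext s
  constructor
  · rintro ⟨z, ⟨h1, h2, h3⟩, rfl⟩
    rw [iter_shift'] at h1
    refine ⟨(mul_eq_zero.1 h1).resolve_left hu, ?_, ?_⟩
    · simpa using h2
    · simpa using h3
  · rintro ⟨h1, h2, h3⟩
    refine ⟨s - a, ⟨?_, ?_, ?_⟩, by simp⟩
    · rw [iter_shift', add_sub_cancel, h1, mul_zero]
    · simpa using h2
    · simpa using h3

lemma ED_image (hu : u ≠ 0) (n : ℕ) (T : ℝ) :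
    (fun z => (a : ℂ) + z) '' ED (fun z => u * Λ ((a : ℂ) + z)) 0 n T = ED Λ a n T := by
  have hZ := ZD_image (Λ := Λ) (a := a) hu n T
  ext s
  constructor
  · rintro ⟨z, ⟨h1, h2⟩, rfl⟩
    refine ⟨by rw [← hZ]; exact ⟨z, h1, rfl⟩, ?_⟩
    rw [iter_shift'] at h2
    rcases h2 with h2 | h2
    · left
      simpa using h2
    · right
      exact (mul_eq_zero.1 h2).resolve_left hu
  · rintro ⟨h1, h2⟩
    rw [← hZ] at h1
    obtain ⟨z, h3, rfl⟩ := h1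
    refine ⟨z, ⟨h3, ?_⟩, rfl⟩
    rw [iter_shift']
    rcases h2 with h2 | h2
    · left
      simpa using h2
    · right
      rw [h2, mul_zero]

lemma ZH_image (hu : u ≠ 0) (t T : ℝ) :
    (fun z => (a : ℂ) + z) '' ZH (fun z => u * Λ ((a : ℂ) + z)) t T = ZH Λ t T := by
  ext s
  constructor
  · rintro ⟨z, ⟨h1, h2, h3⟩, rfl⟩
    rw [heat_shift'] at h1
    refine ⟨(mul_eq_zero.1 h1).resolve_left hu, ?_, ?_⟩
    · simpa using h2
    · simpa using h3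
  · rintro ⟨h1, h2, h3⟩
    refine ⟨s - a, ⟨?_, ?_, ?_⟩, by simp⟩
    · rw [heat_shift']
      simp only [add_sub_cancel]
      rw [h1, mul_zero]
    · simpa using h2
    · simpa using h3

lemma deriv_heat_shift (u a : ℂ) (Λ : ℂ → ℂ) (t : ℝ) (z : ℂ) :
    deriv (heat t (fun z => u * Λ (a + z))) z = u * deriv (heat t Λ) (a + z) := by
  rw [heat_shift']
  have h2 := iter_shift' u a (heat t Λ) 1 z
  rw [iteratedDeriv_one, iteratedDeriv_one] at h2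
  exact h2

lemma EH_image (hu : u ≠ 0) (t T : ℝ) :
    (fun z => (a : ℂ) + z) '' EH (fun z => u * Λ ((a : ℂ) + z)) 0 t T = EH Λ a t T := by
  have hZ := ZH_image (Λ := Λ) (a := a) hu t T
  ext s
  constructor
  · rintro ⟨z, ⟨h1, h2⟩, rfl⟩
    refine ⟨by rw [← hZ]; exact ⟨z, h1, rfl⟩, ?_⟩
    rw [deriv_heat_shift] at h2
    rcases h2 with h2 | h2
    · left
      simpa using h2
    · right
      exact (mul_eq_zero.1 h2).resolve_left hu
  · rintro ⟨h1, h2⟩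
    rw [← hZ] at h1
    obtain ⟨z, h3, rfl⟩ := h1
    refine ⟨z, ⟨h3, ?_⟩, rfl⟩
    rw [deriv_heat_shift]
    rcases h2 with h2 | h2
    · left
      simpa using h2
    · right
      rw [h2, mul_zero]

/-- **Derivatives**, in terms of `Λ`. -/
theorem countD_shift {κ : ℝ} {H Z : ℂ → ℂ} (hκ : 1 / 2 ≤ κ) (hκ2 : κ ≤ 10 ^ 40) (hu : u ≠ 0)
    (hG : GG κ H (fun z => u * Λ ((a : ℂ) + z)) Z) (hA : AppX (fun z => u * Λ ((a : ℂ) + z)))
    (hL : LowX (fun z => u * Λ ((a : ℂ) + z))) :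
    (∀ (n : ℕ) (T : ℝ), (ZD Λ n T).Finite) ∧ ∃ c C : ℝ, 0 < c ∧ 0 < C ∧
      (∀ (n : ℕ) (T : ℝ), (nu (iteratedDeriv n Λ) (ED Λ a n T) : ℝ) ≤
        C * Real.exp (-(c * n)) * nu (iteratedDeriv n Λ) (ZD Λ n T)) ∧
      (∀ (n : ℕ) (T : ℝ), 2 ≤ T → (nu (iteratedDeriv n Λ) (ED Λ a n T) : ℝ) ≤
        C * Real.exp (-(c * n)) * T * Real.log T) := by
  have hΛ : Differentiable ℂ Λ := by
    have h1 : Differentiable ℂ (fun s => u⁻¹ * (fun z => u * Λ ((a : ℂ) + z)) (s - a)) :=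
      (hG.cg.cf.diff.comp (by fun_prop)).const_mul _
    have h2 : (fun s => u⁻¹ * (fun z => u * Λ ((a : ℂ) + z)) (s - a)) = Λ := by
      funext s
      simp only [add_sub_cancel]
      rw [inv_mul_cancel_left₀ hu]
    rwa [h2] at h1
  have hfin := fun (n : ℕ) (T : ℝ) => ZD_fin hκ hG.cg hA n T
  obtain ⟨c, C, hc, hC, h1, h2⟩ := countD hκ hκ2 hG hA hL
  have e0 : ∀ n : ℕ, iteratedDeriv n (fun z => u * Λ ((a : ℂ) + z)) =
      fun z => u * iteratedDeriv n Λ ((a : ℂ) + z) := fun n => funext fun z => iter_shift' u a Λ n z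
  have e1 : ∀ (n : ℕ) (T : ℝ), nu (iteratedDeriv n (fun z => u * Λ ((a : ℂ) + z)))
      (ZD (fun z => u * Λ ((a : ℂ) + z)) n T) = nu (iteratedDeriv n Λ) (ZD Λ n T) := by
    intro n T
    rw [e0, nu_shift (iter_diff hΛ n) hu a (hfin n T), ZD_image hu]
  have e2 : ∀ (n : ℕ) (T : ℝ), nu (iteratedDeriv n (fun z => u * Λ ((a : ℂ) + z)))
      (ED (fun z => u * Λ ((a : ℂ) + z)) 0 n T) = nu (iteratedDeriv n Λ) (ED Λ a n T) := by
    intro n T
    rw [e0, nu_shift (iter_diff hΛ n) hu a ((hfin n T).subset fun s h => h.1), ED_image hu]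
  refine ⟨fun n T => ?_, c, C, hc, hC, fun n T => ?_, fun n T hT => ?_⟩
  · rw [← ZD_image (a := a) hu]
    exact (hfin n T).image _
  · rw [← e1, ← e2]
    exact h1 n T
  · rw [← e2]
    exact h2 n T hT

/-- **Heat flow**, in terms of `Λ`. -/
theorem countH_shift {κ : ℝ} {H Z : ℂ → ℂ} (hκ : 1 / 2 ≤ κ) (hκ5 : κ ≤ 5) (hu : u ≠ 0)
    (hG : GG κ H (fun z => u * Λ ((a : ℂ) + z)) Z) (hA : AppX (fun z => u * Λ ((a : ℂ) + z)))
    (hst : ∀ s : ℂ, (fun z => u * Λ ((a : ℂ) + z)) s = 0 → |s.re| ≤ 1 / 2)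
    (hH : HugeX (fun z => u * Λ ((a : ℂ) + z))) :
    (∀ t T : ℝ, 0 ≤ t → (ZH Λ t T).Finite) ∧ ∃ c C : ℝ, 0 < c ∧ 0 < C ∧
      ∀ t T : ℝ, 0 < t → t ≤ 1 / 8 → 2 ≤ T →
      (nu (heat t Λ) (EH Λ a t T) : ℝ) ≤ C * Real.exp (-(c * t * Real.log T ^ 2)) * nu (heat t Λ) (ZH Λ t T) ∧
      (nu (heat t Λ) (EH Λ a t T) : ℝ) ≤ C * Real.exp (-(c * t * Real.log T ^ 2)) * T * Real.log T := by
  obtain ⟨hd, -⟩ := hht_of hκ hG.cg hA hst
  have hΛ : ∀ t : ℝ, 0 ≤ t → Differentiable ℂ (heat t Λ) := by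
    intro t ht
    have h1 : Differentiable ℂ (fun s => u⁻¹ * heat t (fun z => u * Λ ((a : ℂ) + z)) (s - a)) :=
      ((hd t ht).comp (by fun_prop)).const_mul _
    have h2 : (fun s => u⁻¹ * heat t (fun z => u * Λ ((a : ℂ) + z)) (s - a)) = heat t Λ := by
      rw [heat_shift']
      funext s
      simp only [add_sub_cancel]
      rw [inv_mul_cancel_left₀ hu]
    rwa [h2] at h1
  have hfin := fun (t : ℝ) (ht : 0 ≤ t) (T : ℝ) => ZH_fin hκ hG.cg hA hst ht T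
  obtain ⟨c, C, hc, hC, h1⟩ := countH hκ hκ5 hG hA hst hH
  have e1 : ∀ (t T : ℝ), 0 ≤ t → nu (heat t (fun z => u * Λ ((a : ℂ) + z)))
      (ZH (fun z => u * Λ ((a : ℂ) + z)) t T) = nu (heat t Λ) (ZH Λ t T) := by
    intro t T ht
    rw [← ZH_image (Λ := Λ) (a := a) hu, heat_shift' u a Λ t, nu_shift (hΛ t ht) hu a (hfin t ht T)]
  have e2 : ∀ (t T : ℝ), 0 ≤ t → nu (heat t (fun z => u * Λ ((a : ℂ) + z)))
      (EH (fun z => u * Λ ((a : ℂ) + z)) 0 t T) = nu (heat t Λ) (EH Λ a t T) := by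
    intro t T ht
    rw [← EH_image (Λ := Λ) (a := a) hu, heat_shift' u a Λ t,
      nu_shift (hΛ t ht) hu a ((hfin t ht T).subset fun s h => h.1)]
  refine ⟨fun t T ht => ?_, c, C, hc, hC, fun t T ht ht' hT => ?_⟩
  · rw [← ZH_image (a := a) hu]
    exact (hfin t ht T).image _
  · rw [← e1 t T ht.le, ← e2 t T ht.le]
    exact h1 t T ht ht' hT

end

end Pool.Agent.Y671.GL
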