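import Pool.Agent.H24R2.DZ.Spec

set_option autoImplicit false

/-!
# Mollified mean squares of GL(2) L-functions at the scale 1 / log T  (project GD2, owner helper671)

Every task is one `Prop` below (`S_...`); a task proves it, possibly from earlier ones given as hypotheses.

`Frm k N ps lam`: the normalised coefficients `lam n` of a holomorphic newform of weight `k`, level `N`,
nebentypus `ps` (only the values at primes are used). `Ph k lam z = ∑ lam n n^((k-1)/2) e^(-n z)` is the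
form at `τ = i z / 2π`.
-/

namespace Pool.Agent.Y671.GL

open Complex Filter Topology MeasureTheory Set
open scoped ComplexConjugate
open Pool.Agent.H24R2.DZ (MM ray ph)

/-! ## A. Forms -/

/-- `a(n) = λ(n) n^((k-1)/2)` -/
noncomputable def aa (k : ℕ) (lam : ℕ → ℂ) (n : ℕ) : ℂ :=
  lam n * (((n : ℝ) ^ (((k : ℝ) - 1) / 2) : ℝ) : ℂ)

/-- `Φ(z) = ∑ a(n) e^(-nz)` -/
noncomputable def Ph (k : ℕ) (lam : ℕ → ℂ) (z : ℂ) : ℂ := ∑' n : ℕ, aa k lam n * cexp (-(n * z))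

structure Frm (k N : ℕ) (ps lam : ℕ → ℂ) : Prop where
  k_pos : 1 ≤ k
  N_pos : 1 ≤ N
  zero : lam 0 = 0
  one : lam 1 = 1
  mul : ∀ m n : ℕ, Nat.Coprime m n → lam (m * n) = lam m * lam n
  pow : ∀ p j : ℕ, p.Prime → lam (p ^ (j + 2)) = lam p * lam (p ^ (j + 1)) - ps p * lam (p ^ j)
  ps_le : ∀ p : ℕ, ‖ps p‖ ≤ 1
  /-- a pointwise bound below the trivial one (elliptic curves: Hasse) -/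
  ram : ∃ th C : ℝ, 0 ≤ th ∧ th < 1 / 2 ∧ ∀ n : ℕ, 1 ≤ n → ‖lam n‖ ≤ C * (n : ℝ) ^ th
  /-- mean square over the primes -/
  rs : ∃ C : ℝ, ∀ x : ℝ, 2 ≤ x →
    ∑ p ∈ (Finset.Icc 1 ⌊x⌋₊).filter Nat.Prime, ‖lam p‖ ^ 2 * Real.log p / p ≤ 4 * Real.log x + C
  bd : ∃ C : ℝ, ∀ z : ℂ, 0 < z.re → ‖Ph k lam z‖ ≤ C * z.re ^ (-((k : ℝ) / 2))
  cusp : ∃ ch : ℤ → ℂ, (∀ a : ℤ, IsCoprime a (N : ℤ) → ‖ch a‖ = 1) ∧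
    ∀ (q : ℕ) (a b : ℤ), 1 ≤ q → N ∣ q → (q : ℤ) ∣ a * b - 1 → (∀ z : ℂ, 0 < z.re →
      Ph k lam (z + 2 * Real.pi * I * a / q) =
        ch a * (2 * Real.pi / (I * q * z)) ^ k * Ph k lam (4 * Real.pi ^ 2 / (q ^ 2 * z) - 2 * Real.pi * I * b / q))
  fricke : ∃ ε : ℂ, ‖ε‖ = 1 ∧ ∀ z : ℂ, 0 < z.re → Ph k lam (4 * Real.pi ^ 2 / (N * z)) =
    ε * ((Real.sqrt N : ℝ) * z / (2 * Real.pi)) ^ k * Ph k (fun n => conj (lam n)) z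

/-- `F` is the L-function of the form. -/
structure IsL (lam : ℕ → ℂ) (F : ℂ → ℂ) : Prop where
  diff : Differentiable ℂ F
  ser : ∀ s : ℂ, 1 < s.re → F s = ∑' n : ℕ, lam n * (n : ℂ) ^ (-s)

/-! ## B. Shifted convolution by Jutila's circle method -/

/-- Fejér's kernel of period 1. -/
noncomputable def fej (H : ℕ) (x : ℝ) : ℝ :=
  ‖∑ j ∈ Finset.range H, cexp (2 * Real.pi * I * j * x)‖ ^ 2 / H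

/-- the moduli `M p`, `P < p ≤ 4 P` prime, `p ∤ M` -/
def QQ (M P : ℕ) : Finset ℕ :=
  ((Finset.Ioc P (4 * P)).filter (fun p => p.Prime ∧ ¬ p ∣ M)).image (fun p => M * p)

noncomputable def Lam (M P : ℕ) : ℝ := ∑ q ∈ QQ M P, (q.totient : ℝ)

/-- Task JUT: Jutila's approximation of the constant function by arcs. -/
def S_JUT : Prop := ∃ C P0 : ℝ, 0 < C ∧ 2 ≤ P0 ∧ ∀ (M P H : ℕ) (g : ℝ → ℂ), 1 ≤ M → P0 ≤ P → M ≤ P → 1 ≤ H →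
  H ≤ P ^ 2 → Continuous g → Function.Periodic g 1 →
  (QQ M P).card * (P : ℝ) ≤ Lam M P ∧ 0 < Lam M P ∧
  ‖(∫ x in (0 : ℝ)..1, g x) - (1 / (Lam M P : ℝ) : ℝ) *
      ∑ q ∈ QQ M P, ∑ a ∈ (Finset.range q).filter (fun a => a.Coprime q),
        ∫ β in (-(1 / 2) : ℝ)..(1 / 2), g (a / q + β) * (fej H β : ℂ)‖ ≤
    C * M * Real.sqrt H * Real.log P / P * Real.sqrt (∫ x in (0 : ℝ)..1, ‖g x‖ ^ 2)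

/-- the product of two values, at a point of the circle -/
noncomputable def gg (k : ℕ) (lam : ℕ → ℂ) (h l : ℕ) (r : ℤ) (v x : ℝ) : ℂ :=
  Ph k lam (h * (v + 2 * Real.pi * I * x)) * conj (Ph k lam (l * (v + 2 * Real.pi * I * x))) *
    cexp (2 * Real.pi * I * r * x)

/-- Task ARC: transformation at the cusps `a / q` and Kloosterman sums. -/
def S_ARC : Prop := ∀ (k N : ℕ) (ps lam : ℕ → ℂ), Frm k N ps lam → ∃ C A : ℝ, 0 < C ∧ 1 ≤ A ∧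
  ∀ (h l p : ℕ) (r : ℤ) (v β : ℝ), 1 ≤ h → 1 ≤ l → 1 ≤ p → r ≠ 0 → 0 < v → v ≤ 1 → |β| ≤ 1 / 2 →
  ‖∑ a ∈ (Finset.range (N * h * l * p)).filter (fun a => a.Coprime (N * h * l * p)),
      gg k lam h l r v (a / (N * h * l * p : ℕ) + β)‖ ≤
    C * (h * l * |r|) ^ A * (p * (v + |β|)) ^ (5 / 2 : ℝ) * v ^ (-((k : ℝ) + 5 / 4)) * (p : ℝ) ^ (5 / 8 : ℝ)

/-- Task SC: shifted convolution sums. -/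
def S_SC : Prop := ∀ (k N : ℕ) (ps lam : ℕ → ℂ), Frm k N ps lam → ∃ c C A : ℝ, 0 < c ∧ 0 < C ∧ 1 ≤ A ∧
  ∀ (h l : ℕ) (r : ℤ) (v : ℝ), 1 ≤ h → 1 ≤ l → r ≠ 0 → 0 < v → v ≤ 1 →
  ‖∫ x in (0 : ℝ)..1, gg k lam h l r v x‖ ≤ C * (h * l * |r|) ^ A * v ^ (c - k)

/-! ## C. Integrals over rays and horizontal lines -/

/-- Task RTA: from the ray to an area. -/
def S_RTA : Prop := ∃ C : ℝ, 0 < C ∧ ∀ (g : ℂ → ℂ) (δ X : ℝ), 0 < δ → δ ≤ 1 / 10 → 0 < X →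
  (∀ z : ℂ, 0 < z.re → DifferentiableAt ℂ g z) →
  ∫ x in X..(2 * X), ‖g (ray δ x)‖ ^ 2 ≤
    C / (δ * X) * ∫ v in (δ * X / 4)..(4 * δ * X), ∫ u in (X / 4)..(4 * X), ‖g (v + u * I)‖ ^ 2

/-- Task FJ1: intervals and Fourier coefficients of a periodic function. -/
def S_FJ1 : Prop := ∃ C : ℝ, 0 < C ∧ ∀ f : ℝ → ℝ, Continuous f → (∀ x, 0 ≤ f x) →
  Function.Periodic f (2 * Real.pi) →
  (∀ U : ℝ, 1 ≤ U → ∫ u in (U / 4)..(4 * U), f u ≤ C * U * ∫ u in (0 : ℝ)..(2 * Real.pi), f u) ∧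
  (∀ (U m : ℝ) (R : ℕ), 0 < U → 0 ≤ m → 1 ≤ R → 1 ≤ U * R →
    (∀ r : ℤ, r ≠ 0 → |r| < R → ‖∫ u in (0 : ℝ)..(2 * Real.pi), (f u : ℂ) * cexp (I * r * u)‖ ≤ m) →
    ∫ u in (U / 4)..(4 * U), f u ≤ C * U * ((∫ u in (0 : ℝ)..(2 * Real.pi), f u) + R * m))

/-- Task FJ2: almost periodic functions with well-spaced frequencies `m / Q`. -/
def S_FJ2 : Prop := ∃ C : ℝ, 0 < C ∧ ∀ (d : ℕ → ℂ) (Q Y U v : ℝ), 0 < Q → 0 < Y → Y ≤ U → 0 < v →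
  Summable (fun m => ‖d m‖ * Real.exp (-(m / Q * v))) →
  (∀ m n : ℕ, d m ≠ 0 → d n ≠ 0 → m ≠ n → Q / Y ≤ |(m : ℝ) - n|) →
  ∫ u in (U / 4)..(4 * U), ‖∑' m : ℕ, d m * cexp (-(m / Q * (v + u * I)))‖ ^ 2 ≤
    C * U * ∑' m : ℕ, ‖d m‖ ^ 2 * Real.exp (-(2 * (m / Q) * v))

/-! ## D. The mean square -/

/-- `c_n = ∑_{h | n} b_h λ(n/h)` -/
noncomputable def cn (lam b : ℕ → ℂ) (n : ℕ) : ℂ := ∑ h ∈ n.divisors, b h * lam (n / h)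

/-- `∑_{l ≤ y/q} b_{ql} conj λ(al) / l` -/
noncomputable def Gq (y : ℕ) (lam b : ℕ → ℂ) (q a : ℕ) : ℂ :=
  ∑ l ∈ Finset.Icc 1 (y / q), b (q * l) * conj (lam (a * l)) / l

/-- the dual sum -/
noncomputable def DS (y : ℕ) (lam b : ℕ → ℂ) (T : ℝ) : ℝ :=
  ∑ q ∈ Finset.Icc 1 y, ∑' a : ℕ, if 1 ≤ a ∧ a.Coprime q then
    ‖Gq y lam b q a‖ ^ 2 / (a * q) * Real.exp (-(a / (4 * q * T))) else 0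

noncomputable def GF (k y : ℕ) (lam b : ℕ → ℂ) (z : ℂ) : ℂ :=
  (∑ h ∈ Finset.Icc 1 y, b h * (((h : ℝ) ^ (((k : ℝ) - 1) / 2) : ℝ) : ℂ) * Ph k lam (h * z)) - b 1 * cexp (-z)

/-- Task RAY: the integral over the ray. -/
def S_RAY : Prop := ∀ (k N : ℕ) (ps lam : ℕ → ℂ), Frm k N ps lam → ∃ c C A T0 : ℝ, 0 < c ∧ 0 < C ∧ 1 ≤ A ∧ 10 ≤ T0 ∧
  ∀ (T σ : ℝ) (y : ℕ) (b : ℕ → ℂ), T0 ≤ T → 1 ≤ y → (y : ℝ) ^ A ≤ T → 1 / 2 ≤ σ → σ ≤ 3 / 2 → (∀ h, y < h → b h = 0) →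
  IntegrableOn (fun x : ℝ => ‖GF k y lam b (ray (1 / T) x)‖ ^ 2 * x ^ (2 * σ + k - 2)) (Ioi 0) ∧
  ∫ x in Ioi (0 : ℝ), ‖GF k y lam b (ray (1 / T) x)‖ ^ 2 * x ^ (2 * σ + k - 2) ≤
    C * T ^ (2 * σ + k - 1) * ((∑' n : ℕ, if n ≤ 1 then 0 else ‖cn lam b n‖ ^ 2 * (n : ℝ) ^ (-(2 * σ)) *
        Real.exp (-(n / (C * T * (y : ℝ) ^ A)))) +
      T ^ (1 - 2 * σ) * DS y lam b T + T ^ (-c) * (y : ℝ) ^ A * ∑ h ∈ Finset.Icc 1 y, ‖b h‖ ^ 2)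

/-- Task MEL: the Mellin transform of `GF` on the ray. -/
def S_MEL : Prop := ∀ (k N : ℕ) (ps lam : ℕ → ℂ) (F : ℂ → ℂ), Frm k N ps lam → IsL lam F →
  ∀ (δ σ t : ℝ) (y : ℕ) (b : ℕ → ℂ), 0 < δ → δ < Real.pi / 2 → 1 / 2 ≤ σ → σ ≤ 3 / 2 →
  IntegrableOn (fun x : ℝ => GF k y lam b (ray δ x) * (x : ℂ) ^ (((σ + ((k : ℝ) - 1) / 2 : ℝ) : ℂ) + t * I - 1)) (Ioi 0) ∧
  ∫ x in Ioi (0 : ℝ), GF k y lam b (ray δ x) * (x : ℂ) ^ (((σ + ((k : ℝ) - 1) / 2 : ℝ) : ℂ) + t * I - 1) =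
    cexp (-(I * ((Real.pi / 2 - δ : ℝ) : ℂ)) * (((σ + ((k : ℝ) - 1) / 2 : ℝ) : ℂ) + t * I)) *
      Complex.Gamma (((σ + ((k : ℝ) - 1) / 2 : ℝ) : ℂ) + t * I) *
      (F ((σ : ℂ) + t * I) * MM y b ((σ : ℂ) + t * I) - b 1)

/-- Task GAM: lower bound for the Gamma factor. -/
def S_GAM : Prop := ∀ A B : ℝ, 0 < A → A ≤ B → ∃ c T0 : ℝ, 0 < c ∧ 1 ≤ T0 ∧ ∀ T t σ : ℝ, T0 ≤ T → T / 4 ≤ t →
  t ≤ 4 * T → A ≤ σ → σ ≤ B → c * T ^ (2 * σ - 1) ≤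
    ‖cexp (-(I * ((Real.pi / 2 - 1 / T : ℝ) : ℂ)) * ((σ : ℂ) + t * I)) * Complex.Gamma ((σ : ℂ) + t * I)‖ ^ 2

/-- Task SAN: the mean square of `F M - b_1`. -/
def S_SAN : Prop := ∀ (k N : ℕ) (ps lam : ℕ → ℂ) (F : ℂ → ℂ), Frm k N ps lam → IsL lam F →
  ∃ c C A T0 : ℝ, 0 < c ∧ 0 < C ∧ 1 ≤ A ∧ 10 ≤ T0 ∧
  ∀ (T σ : ℝ) (y : ℕ) (b : ℕ → ℂ), T0 ≤ T → 1 ≤ y → (y : ℝ) ^ A ≤ T → 1 / 2 ≤ σ → σ ≤ 3 / 2 → (∀ h, y < h → b h = 0) →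
  ∫ t in (T / 4)..(4 * T), ‖F ((σ : ℂ) + t * I) * MM y b ((σ : ℂ) + t * I) - b 1‖ ^ 2 ≤
    C * T * ((∑' n : ℕ, if n ≤ 1 then 0 else ‖cn lam b n‖ ^ 2 * (n : ℝ) ^ (-(2 * σ)) *
        Real.exp (-(n / (C * T * (y : ℝ) ^ A)))) +
      T ^ (1 - 2 * σ) * DS y lam b T + T ^ (-c) * (y : ℝ) ^ A * ∑ h ∈ Finset.Icc 1 y, ‖b h‖ ^ 2)

/-! ## E. The mollifier -/

/-- The Dirichlet inverse of `λ`: multiplicative, `-λ(p)` at `p`, `ps p` at `p²`, `0` at higher powers. -/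
noncomputable def mf (ps lam : ℕ → ℂ) (n : ℕ) : ℂ := if n = 0 then 0 else
  ∏ p ∈ n.primeFactors, (if n.factorization p = 1 then -lam p else if n.factorization p = 2 then ps p else 0)

/-- The mollifier coefficients `μ_f(h) φ(log h / (θ L)) h^(-β)`. -/
noncomputable def bq (ps lam : ℕ → ℂ) (θ L : ℝ) (β : ℂ) (h : ℕ) : ℂ :=
  mf ps lam h * ((ph (Real.log h / (θ * L)) : ℝ) : ℂ) * (h : ℂ) ^ (-β)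

/-- Task MF: `mf` is the Dirichlet inverse of `lam`; a pointwise bound. -/
def S_MF : Prop := ∀ (k N : ℕ) (ps lam : ℕ → ℂ), Frm k N ps lam →
  (∀ m n : ℕ, Nat.Coprime m n → mf ps lam (m * n) = mf ps lam m * mf ps lam n) ∧
  (∀ n : ℕ, 1 ≤ n → ∑ d ∈ n.divisors, mf ps lam d * lam (n / d) = if n = 1 then 1 else 0) ∧
  (∃ th C : ℝ, 0 ≤ th ∧ th < 1 / 2 ∧ ∀ n : ℕ, 1 ≤ n → ‖mf ps lam n‖ ≤ C * (n : ℝ) ^ th) ∧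
  (∀ σ : ℝ, 1 < σ → Summable (fun n : ℕ => ‖lam n‖ * (n : ℝ) ^ (-σ)) ∧
    Summable (fun n : ℕ => ‖mf ps lam n‖ * (n : ℝ) ^ (-σ)))

/-- Task EU1: the sum of `|∑_{h | n} μ_f(h) h^(-w) λ(n/h)|²`, `w = (1 + iτ) / L`. -/
def S_EU1 : Prop := ∀ (k N : ℕ) (ps lam : ℕ → ℂ), Frm k N ps lam → ∃ C : ℝ, 0 < C ∧ ∀ (L τ : ℝ) (X : ℕ), 1 ≤ L →
  ∑ n ∈ Finset.Icc 1 X, (n : ℝ) ^ (-(1 + 1 / L)) *
    ‖∑ h ∈ n.divisors, mf ps lam h * (h : ℂ) ^ (-((1 + I * τ) / L)) * lam (n / h)‖ ^ 2 ≤ C * (1 + |τ|) ^ 16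

/-- Task EU2: the dual sum. -/
def S_EU2 : Prop := ∀ (k N : ℕ) (ps lam : ℕ → ℂ), Frm k N ps lam → ∃ C : ℝ, 0 < C ∧ ∀ (L τ : ℝ) (X : ℕ), 1 ≤ L →
  ∑ q ∈ Finset.Icc 1 X, ∑ a ∈ (Finset.Icc 1 X).filter (fun a => a.Coprime q), ((a : ℝ) * q) ^ (-(1 + 1 / L)) *
    ‖∑' l : ℕ, mf ps lam (q * l) * conj (lam (a * l)) * (l : ℂ) ^ (-(1 + (1 + I * τ) / L))‖ ^ 2 ≤
      C * (1 + |τ|) ^ 16

/-- Task MO1. -/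
def S_MO1 : Prop := ∀ (k N : ℕ) (ps lam : ℕ → ℂ), Frm k N ps lam → ∀ θ : ℝ, 0 < θ → θ ≤ 1 → ∃ C : ℝ, 0 < C ∧
  ∀ (L : ℝ) (β : ℂ) (X : ℕ), 1 ≤ L →
  ∑ n ∈ Finset.Icc 1 X, (n : ℝ) ^ (-(1 + 1 / L)) * ‖cn lam (bq ps lam θ L β) n‖ ^ 2 ≤
    C * (1 + L * ‖β‖) ^ 20 * Real.exp (2 * θ * L * ‖β‖)

/-- Task MO2. -/
def S_MO2 : Prop := ∀ (k N : ℕ) (ps lam : ℕ → ℂ), Frm k N ps lam → ∀ θ : ℝ, 0 < θ → θ ≤ 1 → ∃ C : ℝ, 0 < C ∧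
  ∀ (L : ℝ) (β : ℂ) (X y : ℕ), 1 ≤ L → Real.exp (θ * L) ≤ y →
  ∑ q ∈ Finset.Icc 1 X, ∑ a ∈ (Finset.Icc 1 X).filter (fun a => a.Coprime q), ((a : ℝ) * q) ^ (-(1 + 1 / L)) *
    ‖Gq y lam (bq ps lam θ L β) q a‖ ^ 2 ≤ C * (1 + L * ‖β‖) ^ 20 * Real.exp (2 * θ * L * ‖β‖)

/-- The length of the mollifier. -/
noncomputable def yT (θ T : ℝ) : ℕ := ⌈T ^ θ⌉₊

/-- The mollifier at height `T`. -/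
noncomputable def mT (ps lam : ℕ → ℂ) (θ T : ℝ) (s : ℂ) : ℂ :=
  MM (yT θ T) (bq ps lam θ (Real.log T) 0) s

/-- Task MV1. -/
def S_MV1 : Prop := ∀ (k N : ℕ) (ps lam : ℕ → ℂ) (F : ℂ → ℂ), Frm k N ps lam → IsL lam F →
  ∃ θ0 : ℝ, 0 < θ0 ∧ θ0 ≤ 1 / 200 ∧ ∀ θ : ℝ, 0 < θ → θ ≤ θ0 → ∃ C T0 : ℝ, 0 < C ∧ 2 ≤ T0 ∧ ∀ T σ : ℝ, T0 ≤ T →
  1 / 2 ≤ σ → σ ≤ 3 / 2 →
  ∫ t in (T / 4)..(4 * T), ‖F ((σ : ℂ) + t * I) * mT ps lam θ T ((σ : ℂ) + t * I) - 1‖ ^ 2 ≤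
    C * T * Real.exp (-(θ * (σ - 1 / 2) * Real.log T))

/-- Task MV2. -/
def S_MV2 : Prop := ∀ (k N : ℕ) (ps lam : ℕ → ℂ) (F : ℂ → ℂ), Frm k N ps lam → IsL lam F →
  ∃ θ0 : ℝ, 0 < θ0 ∧ θ0 ≤ 1 / 200 ∧ ∀ θ : ℝ, 0 < θ → θ ≤ θ0 → ∃ C T0 : ℝ, 0 < C ∧ 2 ≤ T0 ∧
  ∀ (T σ : ℝ) (β : ℂ), T0 ≤ T → 1 / 2 ≤ σ → σ ≤ 3 / 2 → ‖β‖ ≤ 1 →
  ∫ t in (T / 4)..(4 * T), ‖F ((σ : ℂ) + t * I) * mT ps lam θ T ((σ : ℂ) + t * I + β)‖ ^ 2 ≤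
    C * T * (1 + Real.log T * ‖β‖) ^ 20 * Real.exp (2 * θ * Real.log T * ‖β‖)

end Pool.Agent.Y671.GL
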