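import Pool.Agent.Y671.GL.Spec

set_option autoImplicit false

/-!
# From the mean square to good points (project GD2, second part)

`CF κ H X Z`: the completed function `X w = Λ(1/2 + w)` (critical line = imaginary axis), `X w = H w * Z (1/2 + w)`
for `0 < Im w`, with `H` the gamma factor (logarithmic derivative `κ log t + O(1)`) and `Z` the L-function.
-/

namespace Pool.Agent.Y671.GL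

open Complex Filter Topology MeasureTheory Set
open scoped ComplexConjugate
open Pool.Agent.H24R2.DZ (NN SSq SHar)

structure CF (κ : ℝ) (H X Z : ℂ → ℂ) : Prop where
  κ_pos : 0 < κ
  diff : Differentiable ℂ X
  symm : ∀ z : ℂ, X (-(conj z)) = conj (X z)
  eq : ∀ w : ℂ, 0 < w.im → X w = H w * Z (1 / 2 + w)
  diffZ : Differentiable ℂ Z
  /-- the gamma factor -/
  gam : ∀ R : ℝ, 1 ≤ R → ∃ K T0 : ℝ, 0 < K ∧ 2 ≤ T0 ∧ ∀ (t : ℝ) (u : ℂ), T0 ≤ t → ‖u‖ ≤ R →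
    DifferentiableAt ℂ H (I * t + u) ∧ H (I * t + u) ≠ 0 ∧
    ‖logDeriv H (I * t + u) - ((κ * Real.log t : ℝ) : ℂ)‖ ≤ K ∧
    Real.exp (κ * Real.log t * u.re - K) * ‖H (I * t)‖ ≤ ‖H (I * t + u)‖ ∧
    ‖H (I * t + u)‖ ≤ Real.exp (κ * Real.log t * u.re + K) * ‖H (I * t)‖
  /-- polynomial growth -/
  gro : ∀ R : ℝ, 1 ≤ R → ∃ K T0 : ℝ, 0 < K ∧ 2 ≤ T0 ∧ ∀ (t : ℝ) (u : ℂ), T0 ≤ t → ‖u‖ ≤ R →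
    ‖Z (1 / 2 + (I * t + u))‖ ≤ t ^ K
  /-- no zeros, and bounds, in the half plane of absolute convergence -/
  rgt : ∀ ε : ℝ, 0 < ε → ∃ c K : ℝ, 0 < c ∧ 0 < K ∧ ∀ s : ℂ, 1 + ε ≤ s.re →
    c ≤ ‖Z s‖ ∧ ‖Z s‖ ≤ K ∧ ‖logDeriv Z s‖ ≤ K

/-- Good heights: mean squares of `Z M - 1` and of `Z` over discs of radius about `r` at height `t0`, with a
mollifier `M`. -/
def GdM (Z M : ℂ → ℂ) (η ε a r t0 : ℝ) : Prop :=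
  (∫ x in (r / 4000)..(30 * r), ∫ y in (-(30 * r))..(30 * r),
    ‖Z (1 / 2 + x + (t0 + y) * I) * M (1 / 2 + x + (t0 + y) * I) - 1‖ ^ 2) ≤ η * r ^ 2 ∧
  (∫ x in (0 : ℝ)..(30 * r), ∫ y in (-(30 * r))..(30 * r),
    ‖Z (1 / 2 + x + (t0 + y) * I) * M (1 / 2 + r + t0 * I)‖ ^ 2) ≤ Real.exp (ε * a) * r ^ 2

/-- The conclusion of task MV1 for the mollifiers `M θ T`. -/
def MVa (Z : ℂ → ℂ) (M : ℝ → ℝ → ℂ → ℂ) : Prop :=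
  ∃ θ0 : ℝ, 0 < θ0 ∧ θ0 ≤ 1 / 200 ∧ ∀ θ : ℝ, 0 < θ → θ ≤ θ0 → ∃ C T0 : ℝ, 0 < C ∧ 2 ≤ T0 ∧ ∀ T σ : ℝ, T0 ≤ T →
  1 / 2 ≤ σ → σ ≤ 3 / 2 →
  ∫ t in (T / 4)..(4 * T), ‖Z ((σ : ℂ) + t * I) * M θ T ((σ : ℂ) + t * I) - 1‖ ^ 2 ≤
    C * T * Real.exp (-(θ * (σ - 1 / 2) * Real.log T))

/-- The conclusion of task MV2 for the mollifiers `M θ T`. -/
def MVb (Z : ℂ → ℂ) (M : ℝ → ℝ → ℂ → ℂ) : Prop :=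
  ∃ θ0 : ℝ, 0 < θ0 ∧ θ0 ≤ 1 / 200 ∧ ∀ θ : ℝ, 0 < θ → θ ≤ θ0 → ∃ C T0 : ℝ, 0 < C ∧ 2 ≤ T0 ∧
  ∀ (T σ : ℝ) (β : ℂ), T0 ≤ T → 1 / 2 ≤ σ → σ ≤ 3 / 2 → ‖β‖ ≤ 1 →
  ∫ t in (T / 4)..(4 * T), ‖Z ((σ : ℂ) + t * I) * M θ T ((σ : ℂ) + t * I + β)‖ ^ 2 ≤
    C * T * (1 + Real.log T * ‖β‖) ^ 20 * Real.exp (2 * θ * Real.log T * ‖β‖)

/-- Most heights are good, at every scale `r`. -/
def FewBad (Z : ℂ → ℂ) (M : ℝ → ℝ → ℂ → ℂ) : Prop :=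
  ∀ η ε : ℝ, 0 < η → 0 < ε → ∃ θ c C a0 T0 : ℝ, 0 < θ ∧ θ ≤ 1 / 200 ∧ 0 < c ∧ 0 < C ∧ 1 ≤ a0 ∧ 2 ≤ T0 ∧
  ∀ T r : ℝ, T0 ≤ T → a0 ≤ r * Real.log T → r ≤ 1 / 100 →
    volume {t0 : ℝ | T / 2 ≤ t0 ∧ t0 ≤ 3 * T ∧ ¬ GdM Z (M θ T) η ε (r * Real.log T) r t0} ≤
      ENNReal.ofReal (C * T * Real.exp (-(c * (r * Real.log T))))

/-- Task GC1: Markov's inequality. -/
def S_GC1 : Prop := ∀ (Z : ℂ → ℂ) (M : ℝ → ℝ → ℂ → ℂ), Differentiable ℂ Z →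
  (∀ θ T : ℝ, Differentiable ℂ (M θ T)) → MVa Z M → MVb Z M → FewBad Z M

/-- Task GC2: good heights give the normalised local situation. -/
def S_GC2 : Prop := ∀ (κ : ℝ) (H X Z : ℂ → ℂ), CF κ H X Z → ∀ η : ℝ, 0 < η → ∃ η1 ε1 a0 T0 : ℝ, 0 < η1 ∧ 0 < ε1 ∧
  1 ≤ a0 ∧ 2 ≤ T0 ∧ ∀ (M : ℂ → ℂ) (a r t0 : ℝ), Differentiable ℂ M → T0 ≤ t0 → a0 ≤ a → 0 < r → r ≤ 1 / 100 →
    |κ * r * Real.log t0 - a| ≤ 1 → GdM Z M η1 ε1 a r t0 → NN a η (fun z => X (I * t0 + r * z))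

/-- At height `t`, in the part `Re z ≥ ε0` of the disc of radius `R`, there are no zeros and the logarithmic
derivative is close to `κ log t`. -/
def FarL (κ : ℝ) (X : ℂ → ℂ) (R ε0 η t : ℝ) : Prop := ∀ z : ℂ, ε0 ≤ z.re → ‖z‖ ≤ R →
  X (I * t + z) ≠ 0 ∧ ‖logDeriv X (I * t + z) - ((κ * Real.log t : ℝ) : ℂ)‖ ≤ η * Real.log t

/-- Most heights have no zeros far from the critical line. -/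
def TopL (κ : ℝ) (X : ℂ → ℂ) : Prop := ∀ R ε0 η : ℝ, 1 ≤ R → 0 < ε0 → 0 < η → ∃ c C T0 : ℝ, 0 < c ∧ 0 < C ∧
  2 ≤ T0 ∧ ∀ T : ℝ, T0 ≤ T → volume {t : ℝ | T / 2 ≤ t ∧ t ≤ 3 * T ∧ ¬ FarL κ X R ε0 η t} ≤
    ENNReal.ofReal (C * T ^ (1 - c))

/-- Task GTOP. -/
def S_GTOP : Prop := ∀ (κ : ℝ) (H X Z : ℂ → ℂ) (M : ℝ → ℝ → ℂ → ℂ), CF κ H X Z →
  (∀ θ T : ℝ, Differentiable ℂ (M θ T)) → MVa Z M → TopL κ X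

/-- Most points are good at all scales (scales in terms of `a = κ r log T`). -/
def GoodX (κ : ℝ) (X : ℂ → ℂ) : Prop := ∀ η : ℝ, 0 < η → ∃ c C a0 T0 : ℝ, 0 < c ∧ 0 < C ∧ 1 ≤ a0 ∧ 2 ≤ T0 ∧
  ∀ T a r : ℝ, T0 ≤ T → a0 ≤ a → 0 < r → r ≤ 1 / 100 → κ * r ≤ 1 / 100 → |κ * r * Real.log T - a| ≤ 1 / 2 →
    volume {t0 : ℝ | T / 2 ≤ t0 ∧ t0 ≤ 3 * T ∧ ¬ NN a η (fun z => X (I * t0 + r * z))} ≤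
      ENNReal.ofReal (C * T * Real.exp (-(c * a)))

end Pool.Agent.Y671.GL
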