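import Pool.Agent.Y671.GL.Spec4

set_option autoImplicit false

/-!
# Project GD2, fifth part: polynomial approximation (Hadamard factorisation of genus one)
-/

namespace Pool.Agent.Y671.GL

open Complex Filter Topology MeasureTheory Set Polynomial
open scoped ComplexConjugate

/-- Task HAD1: an entire function of order less than `2`, symmetric with respect to the imaginary axis, with
zeros in the strip `|Re z| ≤ 1/2`, is a locally uniform limit of polynomials with zeros in the strip. -/
def S_HAD1 : Prop := ∀ X : ℂ → ℂ, Differentiable ℂ X → (∀ z : ℂ, X (-(conj z)) = conj (X z)) →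
  (∃ z, X z ≠ 0) → (∃ K : ℝ, 0 < K ∧ ∀ z : ℂ, ‖X z‖ ≤ Real.exp (K * (1 + ‖z‖) ^ (3 / 2 : ℝ))) →
  (∀ s : ℂ, X s = 0 → |s.re| ≤ 1 / 2) → AppX X

end Pool.Agent.Y671.GL
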