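import Pool.Agent.Y671.GL.Spec4

set_option autoImplicit false

/-!
# Project GD2, sixth part: lower bounds for the number of all zeros
-/

namespace Pool.Agent.Y671.GL

open Complex Filter Topology MeasureTheory Set
open scoped ComplexConjugate
open Pool.Agent.W169.HF (heat Slow)

/-- Task TOTD: the `n`-th derivative has many zeros, `n ≤ K log T`. -/
def S_TOTD : Prop := ∀ (κ : ℝ) (H X Z : ℂ → ℂ), 1 / 2 ≤ κ → CG κ H X Z → AppX X → ∀ K : ℝ, 1 ≤ K →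
  ∃ c T0 : ℝ, 0 < c ∧ 2 ≤ T0 ∧ ∀ (n : ℕ) (T : ℝ), T0 ≤ T → (n : ℝ) ≤ K * Real.log T →
  ∃ S : Finset ℂ, (∀ s ∈ S, iteratedDeriv n X s = 0 ∧ 0 < s.im ∧ s.im ≤ T) ∧
    c * T * Real.log T ≤ ∑ s ∈ S, (analyticOrderNatAt (iteratedDeriv n X) s : ℝ)

/-- Task TOTH: the heat flow at time `τ ≤ K / log T` has many zeros in dyadic windows. -/
def S_TOTH : Prop := ∀ (κ : ℝ) (H X Z : ℂ → ℂ), 1 / 2 ≤ κ → CG κ H X Z →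
  (∀ s : ℂ, X s = 0 → |s.re| ≤ 1 / 2) → ∀ K : ℝ, 1 ≤ K →
  ∃ c T0 : ℝ, 0 < c ∧ 2 ≤ T0 ∧ ∀ T τ : ℝ, T0 ≤ T → 0 ≤ τ → τ ≤ 1 / 8 → τ * Real.log T ≤ K →
  ∃ S : Finset ℂ, (∀ s ∈ S, heat τ X s = 0 ∧ T < s.im ∧ s.im ≤ 2 * T) ∧
    c * T * Real.log T ≤ ∑ s ∈ S, (analyticOrderNatAt (heat τ X) s : ℝ)

end Pool.Agent.Y671.GL
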