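import Pool.Agent.Y671.GL.Spec

set_option autoImplicit false

/-!
# The integral over the ray (task RAY of project GD2) in three parts
-/

namespace Pool.Agent.Y671.GL

open Complex Filter Topology MeasureTheory Set
open scoped ComplexConjugate
open Pool.Agent.H24R2.DZ (ray)

/-- Task RYP: the range `x > x0`, from RTA, FJ1 and SC. -/
def S_RYP : Prop := ∀ (k N : ℕ) (ps lam : ℕ → ℂ), Frm k N ps lam → ∃ c C A T0 : ℝ, 0 < c ∧ 0 < C ∧ 1 ≤ A ∧ 10 ≤ T0 ∧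
  ∀ (T σ x0 : ℝ) (y : ℕ) (b : ℕ → ℂ), T0 ≤ T → 1 ≤ y → 1 / 2 ≤ σ → σ ≤ 3 / 2 → 0 < x0 → x0 ≤ 1 →
  (∀ h, y < h → b h = 0) →
  IntegrableOn (fun x : ℝ => ‖GF k y lam b (ray (1 / T) x)‖ ^ 2 * x ^ (2 * σ + k - 2)) (Ioi x0) ∧
  ∫ x in Ioi x0, ‖GF k y lam b (ray (1 / T) x)‖ ^ 2 * x ^ (2 * σ + k - 2) ≤
    C * T ^ (2 * σ + k - 1) * ((∑' n : ℕ, if n ≤ 1 then 0 else ‖cn lam b n‖ ^ 2 * (n : ℝ) ^ (-(2 * σ)) *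
        Real.exp (-(n * x0 / (C * T)))) + T ^ (-c) * (y / x0) ^ A * ∑ h ∈ Finset.Icc 1 y, ‖b h‖ ^ 2)

/-- the dual polynomial -/
noncomputable def DB (k y : ℕ) (lam b : ℕ → ℂ) (w : ℂ) : ℂ :=
  ∑ h ∈ Finset.Icc 1 y, conj (b h) * (((h : ℝ) ^ (-(((k : ℝ) + 1) / 2)) : ℝ) : ℂ) * Ph k lam (w / h)

/-- Task RYD: the dual range, from RTA and FJ2. -/
def S_RYD : Prop := ∀ (k N : ℕ) (ps lam : ℕ → ℂ), Frm k N ps lam → ∃ C T0 : ℝ, 0 < C ∧ 10 ≤ T0 ∧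
  ∀ (T : ℝ) (y : ℕ) (b : ℕ → ℂ), T0 ≤ T → 1 ≤ y → (∀ h, y < h → b h = 0) →
  IntegrableOn (fun x : ℝ => ‖DB k y lam b (ray (1 / T) x)‖ ^ 2 * x ^ ((k : ℝ) - 1)) (Ioi ((y : ℝ) ^ 2)) ∧
  ∫ x in Ioi ((y : ℝ) ^ 2), ‖DB k y lam b (ray (1 / T) x)‖ ^ 2 * x ^ ((k : ℝ) - 1) ≤ C * T ^ k * DS y lam b T

/-- Task RYA: assembly of RAY with the Fricke involution. -/
def S_RYA : Prop := S_RYP → S_RYD → S_RAY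

end Pool.Agent.Y671.GL
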